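import Pool.Agent.H47.MM.Defs
import Pool.Agent.H3.UP.GUE
import Pool.Agent.H56.MM.Defs

/-!
# THEOREM MN (N generations of big critical returns at every small scale): definitions

`Bt σ e v m w = σ * Me e ((Me v w) ^ m)`: an elementary map of the disc: `m = 1`, `e = v = 0`: restriction; otherwise a critical
pass after a restriction, centred at the base point (`Me e (v ^ m) = 0`, so `Bt 0 = 0`). `BC L τ i`: compositions of `i` elementary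
maps, the parameters of the `i`-th one are in a compact set given by `τ i`. `Rad L t ρ τ`: the radii `τ` are so near `1` that
`‖Me u (B w)‖ ≤ ρ` implies `‖w‖ ≤ R < 1`. `Vd ψ c = ψ c (D)` in the sphere. `NB`: every pull back of a `Vd ψ c` along the orbit of
`b' ∈ C` with at least `N` critical times has a small critical pull back (`f (Y)` is in the `k`-part of `g q`, `q ∈ Y`).
`CSN`, `NCN`, `MNStm`: the same on the sphere, the property of the text and the statement for the families.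
-/

set_option autoImplicit false

open Filter Topology Polynomial Metric Set MeasureTheory

namespace Pool.Agent.H56.MN

open Pool.Agent.H44.Fatou (rat)
open Pool.Agent.H32.BT (IsCrit)
open Pool.Agent.H44.RC (JS J6 Om CC)
open Pool.Agent.H3.UP (CE)
open Pool.Agent.H47.MM (Un Me)
open Pool.Agent.H64.TP (KK)
open Pool.Agent.H35.EX (chord)
open Pool.Agent.H56.MM (Unv Vp Cw)

/-- an elementary map of the disc -/
noncomputable def Bt (σ : ℝ) (e v : ℂ) (m : ℕ) (w : ℂ) : ℂ := σ * Me e (Me v w ^ m)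

/-- compositions of `i` elementary maps -/
def BC (L : ℕ) (τ : ℕ → ℝ) : ℕ → (ℂ → ℂ) → Prop
  | 0, B => B = id
  | i + 1, B => ∃ (B0 : ℂ → ℂ) (σ : ℝ) (e v : ℂ) (m : ℕ), BC L τ i B0 ∧ (σ = τ i ∨ σ = τ i ^ 2) ∧ ‖e‖ ≤ τ i ∧
      ‖v‖ < 1 ∧ 1 ≤ m ∧ m ≤ L ∧ Me e (v ^ m) = 0 ∧ B = fun w => B0 (Bt σ e v m w)

/-- the radii -/
def Rad (L : ℕ) (t ρ : ℝ) (τ : ℕ → ℝ) : Prop :=
  (∀ i, 0 < τ i ∧ τ i < 1) ∧ ∀ i, ∃ R : ℝ, R < 1 ∧ ∀ B, BC L τ i B → ∀ u : ℂ, ‖u‖ ≤ t → ∀ w : ℂ, ‖w‖ < 1 →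
    ‖Me u (B w)‖ ≤ ρ → ‖w‖ ≤ R

/-- the set `ψ c (D)` in the sphere -/
def Vd (ψ : ℂ → ℂ → ℂ) (c : ℂ) : Set (OnePoint ℂ) := (fun w : ℂ => ((ψ c w : ℂ) : OnePoint ℂ)) '' ball 0 1

/-- pull backs with at least `N` critical times have a small critical pull back -/
def NB (a b : Polynomial ℂ) (C : Set ℂ) (g ψ : ℂ → ℂ → ℂ) (N : ℕ) (k : ℝ) : Prop :=
  ∀ c ∈ C, ∀ b' ∈ C, ∀ n : ℕ, (rat a b)^[n] ((b' : ℂ) : OnePoint ℂ) ∈ Vd ψ c →
    N ≤ (CE (rat a b) (Vd ψ c) ((b' : ℂ) : OnePoint ℂ) n).ncard → ∃ j < n, ∃ q ∈ C,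
      ((q : ℂ) : OnePoint ℂ) ∈ CC (rat a b) (n - j) (Vd ψ c) ((rat a b)^[j] ((b' : ℂ) : OnePoint ℂ)) ∧
      ∀ z ∈ CC (rat a b) (n - j) (Vd ψ c) ((rat a b)^[j] ((b' : ℂ) : OnePoint ℂ)),
        ∃ w : ℂ, ‖w‖ < k ∧ rat a b z = ((g q w : ℂ) : OnePoint ℂ)

/-- the same on the sphere, critical points in `S` -/
def CSN (f : OnePoint ℂ → OnePoint ℂ) (S : Set (OnePoint ℂ)) (N : ℕ) (k : ℝ) (φ : OnePoint ℂ → ℂ → OnePoint ℂ) : Prop :=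
  ∀ b ∈ S, ∀ c ∈ S, ∀ n : ℕ, f^[n] c ∈ Vp f (φ b) b → N ≤ (CE f (Vp f (φ b) b) c n).ncard → ∃ j < n, ∃ q ∈ S,
    q ∈ CC f (n - j) (Vp f (φ b) b) (f^[j] c) ∧
      ∀ z ∈ CC f (n - j) (Vp f (φ b) b) (f^[j] c), f z ∈ φ q '' Metric.ball 0 k

/-- the property of the text -/
def NCN (f : OnePoint ℂ → OnePoint ℂ) : Prop :=
  ∀ a, IsCrit f a → a ∈ JS f →
  (IsTotallyDisconnected (KK f) ∨ ∀ A ⊆ Om f a, IsClosed A → A.Nonempty → (∀ x ∈ A, f x ∈ A) → ∃ c ∈ A, IsCrit f c) →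
  ∀ (N : ℕ) (k : ℝ), k < 1 → ∃ ε : ℝ, 0 < ε ∧ ∀ φ : OnePoint ℂ → ℂ → OnePoint ℂ,
    (∀ c ∈ Cw f a, Unv (φ c) ∧ φ c 0 = f c ∧ ∀ u ∈ Metric.ball (0 : ℂ) 1, chord (φ c u) (f c) < ε) →
    ¬ CSN f (Cw f a) N k φ

/-- the statement for the families -/
def MNStm : Prop := ∀ (d m : ℕ), 2 ≤ d → m ≤ d → ∀ x : Pool.Agent.H47.NM.Em d m,
  IsCoprime (Pool.Agent.H79.Eul.pol x.1) (Pool.Agent.H79.Eul.pol x.2) →
  max (Pool.Agent.H79.Eul.pol x.1).natDegree (Pool.Agent.H79.Eul.pol x.2).natDegree = d →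
  ¬ Pool.Agent.H57.CF.UpF d m x → NCN (Pool.Agent.H79.Par.Rf (Pool.Agent.H47.NM.ex d m x))

end Pool.Agent.H56.MN
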