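import Pool.Agent.H56.MN.Defs
import Pool.Agent.H91.MM.SysC
import Pool.Agent.H32.BT.Top

/-!
# Module Fam: from the plane to the sphere

PROOF. As `fam1` (H91/MM/Fam1): the systems from `Φ`, `φ '' Vp F (Φ b) b = Vd ψ c` (`vp_ch`), `c = φ b`. `CSN F S N k Φ` gives `NB`: for `c, b' ∈ C`: `CSN` for `φ.symm c`, `φ.symm b'`: `φ` maps `CC F (n - j) (Vp ..) (F^[j] ..)` onto `CC (rat a b) (n - j) (Vd ψ c) (..)` (homeomorphism, conjugacy) and critical points to critical points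
(`isCrit_conj`), so `CE` is the same set; `q ∈ S` gives `φ q ∈ C` (`hS`); `F z ∈ Φ q '' ball 0 k` gives `rat a b (φ z) = g (φ q) w`.
-/

set_option autoImplicit false

open Filter Topology Metric Set

namespace Pool.Agent.H56.MN

open Pool.Agent.H44.Fatou (rat rat_continuous)
open Pool.Agent.H35.EX (chord)
open Pool.Agent.H91.ATT (Mb)
open Pool.Agent.H47.MM (Un Me Hyp Sys)
open Pool.Agent.H56.MM (Unv Vp)
open Pool.Agent.H44.RC (CC)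
open Pool.Agent.H3.UP (CE)

private theorem it_conj {F F' : OnePoint ℂ → OnePoint ℂ} {φ : OnePoint ℂ ≃ₜ OnePoint ℂ} (conj : ∀ x, F' (φ x) = φ (F x))
    (m : ℕ) (x : OnePoint ℂ) : F'^[m] (φ x) = φ (F^[m] x) := by
  induction m with
  | zero => rfl
  | succ m ih => rw [Function.iterate_succ_apply', Function.iterate_succ_apply', ih, conj]

private theorem cc_conj {F F' : OnePoint ℂ → OnePoint ℂ} {φ : OnePoint ℂ ≃ₜ OnePoint ℂ} (conj : ∀ x, F' (φ x) = φ (F x))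
    (m : ℕ) (V : Set (OnePoint ℂ)) (x : OnePoint ℂ) : φ '' CC F m V x = CC F' m (φ '' V) (φ x) := by
  have e1 : φ '' (F^[m] ⁻¹' V) = F'^[m] ⁻¹' (φ '' V) := by
    ext y
    constructor
    · rintro ⟨x, hx, rfl⟩
      show F'^[m] (φ x) ∈ φ '' V
      rw [it_conj conj]
      exact ⟨_, hx, rfl⟩
    · intro hy
      refine ⟨φ.symm y, ?_, φ.apply_symm_apply y⟩
      obtain ⟨z, hz, hzy⟩ := hy
      show F^[m] (φ.symm y) ∈ V
      have h1 : φ z = φ (F^[m] (φ.symm y)) := by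
        rw [hzy, ← it_conj conj, φ.apply_symm_apply]
      rwa [← φ.injective h1]
  unfold CC
  by_cases hx : x ∈ F^[m] ⁻¹' V
  · rw [φ.image_connectedComponentIn hx, e1]
  · have hx' : φ x ∉ F'^[m] ⁻¹' (φ '' V) := by
      rw [← e1]
      rintro ⟨y, hy, hyx⟩
      exact hx (φ.injective hyx ▸ hy)
    rw [connectedComponentIn_eq_empty hx, connectedComponentIn_eq_empty hx', image_empty]

private theorem ce_conj {F F' : OnePoint ℂ → OnePoint ℂ} {φ : OnePoint ℂ ≃ₜ OnePoint ℂ} (conj : ∀ x, F' (φ x) = φ (F x))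
    (V : Set (OnePoint ℂ)) (x : OnePoint ℂ) (n : ℕ) : CE F V x n = CE F' (φ '' V) (φ x) n := by
  ext k
  constructor
  · rintro ⟨hk, c, hc, hcc⟩
    refine ⟨hk, φ c, (Pool.Agent.H32.BT.isCrit_conj φ conj c).2 hc, ?_⟩
    rw [it_conj conj, ← cc_conj conj]
    exact ⟨c, hcc, rfl⟩
  · rintro ⟨hk, c', hc', hcc'⟩
    rw [it_conj conj, ← cc_conj conj] at hcc'
    obtain ⟨c, hcc, rfl⟩ := hcc'
    exact ⟨hk, c, (Pool.Agent.H32.BT.isCrit_conj φ conj c).1 hc', hcc⟩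

theorem fam1n {a b : Polynomial ℂ} {C : Set ℂ} (h : Hyp a b C) {F : OnePoint ℂ → OnePoint ℂ} {φ : OnePoint ℂ ≃ₜ OnePoint ℂ}
    (hφ : Mb φ) (conj : ∀ x, rat a b (φ x) = φ (F x)) {S : Set (OnePoint ℂ)} (hC : ∀ c ∈ C, φ.symm (c : OnePoint ℂ) ∈ S)
    (hS : ∀ q ∈ S, ∃ c ∈ C, φ q = (c : OnePoint ℂ)) (hfin : ∀ c ∈ C, rat a b (c : OnePoint ℂ) ≠ OnePoint.infty) {N : ℕ}
    (hker : ∀ (L : ℕ) (k : ℝ), k < 1 → ∃ ε : ℝ, 0 < ε ∧ ∀ (g ψ : ℂ → ℂ → ℂ) (l : ℂ → ℕ), Sys a b C L ε g ψ l →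
      ¬ NB a b C g ψ N k) {k : ℝ} (hk : k < 1) :
    ∃ ε : ℝ, 0 < ε ∧ ∀ Φ : OnePoint ℂ → ℂ → OnePoint ℂ,
      (∀ c ∈ S, Unv (Φ c) ∧ Φ c 0 = F c ∧ ∀ u ∈ ball (0 : ℂ) 1, chord (Φ c u) (F c) < ε) → ¬ CSN F S N k Φ := by
  obtain ⟨L, hL⟩ := Pool.Agent.H91.MM.sys_ch h hφ conj hC hfin
  obtain ⟨ε0, hε0, hker⟩ := hker L k hk
  obtain ⟨ε, hε, hsy⟩ := hL ε0 hε0
  refine ⟨ε, hε, fun Φ hΦ hcs => ?_⟩
  obtain ⟨g, ψ, l, hS1, hg, hV⟩ := hsy Φ hΦ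
  refine hker g ψ l hS1 fun c hc b' hb' n hn hN => ?_
  obtain ⟨V, hVd⟩ : ∃ V, V = Vp F (Φ (φ.symm (c : OnePoint ℂ))) (φ.symm (c : OnePoint ℂ)) := ⟨_, rfl⟩
  have hVc : Vd ψ c = φ '' V := by
    rw [hVd, hV c hc]
    rfl
  have hbs : ((b' : ℂ) : OnePoint ℂ) = φ (φ.symm (b' : OnePoint ℂ)) := (φ.apply_symm_apply _).symm
  have h1 : F^[n] (φ.symm (b' : OnePoint ℂ)) ∈ V := by
    rw [hVc, hbs, it_conj conj] at hn
    obtain ⟨z, hz, hzy⟩ := hn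
    rwa [← φ.injective hzy]
  have h2 : N ≤ (CE F V (φ.symm (b' : OnePoint ℂ)) n).ncard := by
    rw [ce_conj conj, ← hVc, ← hbs]
    exact hN
  rw [hVd] at h1 h2
  obtain ⟨j, hj, q, hq, hq1, hq2⟩ := hcs _ (hC c hc) _ (hC b' hb') n h1 h2
  rw [← hVd] at hq1 hq2
  obtain ⟨q', hq', hqq⟩ := hS q hq
  have hcc : CC (rat a b) (n - j) (Vd ψ c) ((rat a b)^[j] ((b' : ℂ) : OnePoint ℂ)) =
      φ '' CC F (n - j) V (F^[j] (φ.symm (b' : OnePoint ℂ))) := by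
    rw [cc_conj conj, ← hVc, ← it_conj conj, ← hbs]
  refine ⟨j, hj, q', hq', ?_, fun z hz => ?_⟩
  · rw [hcc, ← hqq]
    exact ⟨q, hq1, rfl⟩
  · rw [hcc] at hz
    obtain ⟨z0, hz0, rfl⟩ := hz
    obtain ⟨u, hu, hu2⟩ := hq2 z0 hz0
    rw [mem_ball_zero_iff] at hu
    refine ⟨u, hu, ?_⟩
    have h3 := hg q' hq' u (mem_ball_zero_iff.2 (hu.trans hk))
    rw [← hqq, φ.symm_apply_apply, hu2] at h3
    rw [conj, h3]

end Pool.Agent.H56.MN
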