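import Pool.Agent.H56.MN.Ker
import Pool.Agent.H56.MN.Fam
import Pool.Agent.H64.MN.Asm

/-!
# THEOREM MN for the families

PROOF. `asm` (H64/MN/Asm): chart, field, typical point, critical points; `kern`; `fam1n`.
-/

set_option autoImplicit false

open Filter Topology Polynomial Metric Set MeasureTheory

namespace Pool.Agent.H56.MN

theorem ncn_fam : MNStm := by
  intro d m hd hm x hcop hdeg hup a ha haJ h N k hk
  obtain ⟨p, q, C, φ, hmb, conj, hH, h6, hC, hS, hfin, μ, hμ, z, hz, h1, hac, a0, ha0, hom, hret⟩ :=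
    Pool.Agent.H64.MN.asm hd hm hcop hdeg hup ha haJ h
  exact fam1n hH hmb conj hC hS hfin (fun L k hk => kern hH h6 hμ hz h1 hac ha0 hom hret L N hk) hk

end Pool.Agent.H56.MN
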