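import Pool.Agent.H56.MN.Defs
import Pool.Agent.H81.MM.Mob

/-!
# Module Bas: elementary properties of the classes `BC`

`Bt σ e v m 0 = σ Me e (v ^ m) = 0`, `‖Bt σ e v m w‖ < σ < 1`, holomorphic on the disc, not locally constant. Induction on `i`.
-/

set_option autoImplicit false

open Filter Topology Polynomial Metric Set MeasureTheory

namespace Pool.Agent.H56.MN

open Pool.Agent.H47.MM (Un Me)
open Pool.H81.MM (mob mob_den mob_lt mob_inv mob_inv' mob_zero mob_neg mob_hasDerivAt mob_deriv_ne mob_eq_zero)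

theorem me_mob (e w : ℂ) : Me e w = mob e w := rfl

theorem me_inj' {e w w' : ℂ} (he : ‖e‖ < 1) (hw : ‖w‖ < 1) (hw' : ‖w'‖ < 1) (h : Me e w = Me e w') : w = w' := by
  have h1 := mob_inv he hw
  have h2 := mob_inv he hw'
  rw [me_mob, me_mob] at h
  rw [← h1, h, h2]

theorem pow_lt1 {w : ℂ} {m : ℕ} (hm : 1 ≤ m) (hw : ‖w‖ < 1) : ‖w ^ m‖ < 1 := by
  rw [norm_pow]
  exact pow_lt_one₀ (norm_nonneg _) hw (by omega)

theorem bt_zero {σ : ℝ} {e v : ℂ} {m : ℕ} (h : Me e (v ^ m) = 0) : Bt σ e v m 0 = 0 := by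
  have h1 : Me v 0 = v := mob_zero v
  unfold Bt
  rw [h1, h, mul_zero]

theorem bt_lt {σ : ℝ} {e v : ℂ} {m : ℕ} (hσ : 0 < σ) (he : ‖e‖ < 1) (hv : ‖v‖ < 1) (hm : 1 ≤ m) {w : ℂ} (hw : ‖w‖ < 1) :
    ‖Bt σ e v m w‖ < σ := by
  unfold Bt
  rw [norm_mul, Complex.norm_real, Real.norm_of_nonneg hσ.le]
  have h1 : ‖Me e (Me v w ^ m)‖ < 1 := mob_lt he (pow_lt1 hm (mob_lt hv hw))
  calc σ * ‖Me e (Me v w ^ m)‖ < σ * 1 := mul_lt_mul_of_pos_left h1 hσ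
    _ = σ := mul_one σ

theorem bt_diff {σ : ℝ} {e v : ℂ} {m : ℕ} (he : ‖e‖ < 1) (hv : ‖v‖ < 1) (hm : 1 ≤ m) {w : ℂ} (hw : ‖w‖ < 1) :
    DifferentiableAt ℂ (Bt σ e v m) w := by
  have h1 : DifferentiableAt ℂ (fun w : ℂ => Me v w ^ m) w :=
    (mob_hasDerivAt hv hw).differentiableAt.pow m
  have h2 : DifferentiableAt ℂ (mob e) ((fun w : ℂ => Me v w ^ m) w) :=
    (mob_hasDerivAt he (pow_lt1 hm (mob_lt hv hw))).differentiableAt
  exact (h2.comp w h1).const_mul _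

theorem bt_nc {σ : ℝ} {e v : ℂ} {m : ℕ} (hσ : 0 < σ) (he : ‖e‖ < 1) (hv : ‖v‖ < 1) (hm : 1 ≤ m) {p : ℂ} (hp : ‖p‖ < 1) :
    ¬ ∀ᶠ z in 𝓝 p, Bt σ e v m z = Bt σ e v m p := by
  intro h
  have hb : ∀ᶠ z in 𝓝 p, z ∈ ball (0 : ℂ) 1 := isOpen_ball.mem_nhds (mem_ball_zero_iff.2 hp)
  have h1 : {z : ℂ | ‖z‖ < 1 ∧ Me v z ^ m = Me v p ^ m} ∈ 𝓝 p := by
    filter_upwards [h, hb] with z hz hz1
    rw [mem_ball_zero_iff] at hz1
    refine ⟨hz1, ?_⟩
    unfold Bt at hz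
    have hσ' : (σ : ℂ) ≠ 0 := by exact_mod_cast hσ.ne'
    exact me_inj' he (pow_lt1 hm (mob_lt hv hz1)) (pow_lt1 hm (mob_lt hv hp)) (mul_left_cancel₀ hσ' hz)
  have h2 : {z : ℂ | ‖z‖ < 1 ∧ Me v z ^ m = Me v p ^ m}.Finite := by
    have h3 : {w : ℂ | w ^ m = Me v p ^ m}.Finite := by
      refine (Polynomial.nthRoots m (Me v p ^ m)).toFinset.finite_toSet.subset ?_
      intro w hw
      simp only [Finset.mem_coe, Multiset.mem_toFinset]
      rw [Polynomial.mem_nthRoots (by omega)]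
      exact hw
    refine Set.Finite.of_finite_image (f := Me v) (h3.subset ?_) ?_
    · rintro _ ⟨z, ⟨-, hz⟩, rfl⟩
      exact hz
    · rintro z ⟨hz, -⟩ z' ⟨hz', -⟩ hzz
      exact me_inj' hv hz hz' hzz
  exact infinite_of_mem_nhds p h1 h2

theorem bc_bas {L : ℕ} {τ : ℕ → ℝ} (hτ : ∀ i, 0 < τ i ∧ τ i < 1) {i : ℕ} {B : ℂ → ℂ} (h : BC L τ i B) :
    B 0 = 0 ∧ (∀ w ∈ ball (0 : ℂ) 1, ‖B w‖ < 1) ∧ DifferentiableOn ℂ B (ball 0 1) ∧
      ∀ p ∈ ball (0 : ℂ) 1, ¬ ∀ᶠ z in 𝓝 p, B z = B p := by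
  induction i generalizing B with
  | zero =>
    have hB : B = id := h
    subst hB
    refine ⟨rfl, fun w hw => mem_ball_zero_iff.1 hw, differentiableOn_id, fun p _ hc => ?_⟩
    have h1 : ({p} : Set ℂ) ∈ 𝓝 p := by
      filter_upwards [hc] with z hz
      exact hz
    exact infinite_of_mem_nhds p h1 (finite_singleton p)
  | succ i ih =>
    obtain ⟨B0, σ, e, v, m, h0, hσ, he, hv, hm, -, hz, rfl⟩ := h
    obtain ⟨a1, a2, a3, a4⟩ := ih h0
    have he1 : ‖e‖ < 1 := he.trans_lt (hτ i).2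
    have hσ0 : 0 < σ ∧ σ < 1 := by
      rcases hσ with rfl | rfl
      · exact hτ i
      · exact ⟨pow_pos (hτ i).1 2, pow_lt_one₀ (hτ i).1.le (hτ i).2 two_ne_zero⟩
    have hb : ∀ w : ℂ, ‖w‖ < 1 → Bt σ e v m w ∈ ball (0 : ℂ) 1 := fun w hw =>
      mem_ball_zero_iff.2 ((bt_lt hσ0.1 he1 hv hm hw).trans hσ0.2)
    refine ⟨?_, fun w hw => a2 _ (hb w (mem_ball_zero_iff.1 hw)), fun w hw => ?_, fun p hp hc => ?_⟩
    · show B0 (Bt σ e v m 0) = 0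
      rw [bt_zero hz, a1]
    · rw [mem_ball_zero_iff] at hw
      have h1 : DifferentiableAt ℂ B0 (Bt σ e v m w) := a3.differentiableAt (isOpen_ball.mem_nhds (hb w hw))
      exact (h1.comp w (bt_diff he1 hv hm hw)).differentiableWithinAt
    · rw [mem_ball_zero_iff] at hp
      have hq := hb p hp
      have han : AnalyticAt ℂ B0 (Bt σ e v m p) := a3.analyticAt (isOpen_ball.mem_nhds hq)
      have h2 : ∀ᶠ z in 𝓝[≠] (Bt σ e v m p), B0 z ≠ B0 (Bt σ e v m p) := by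
        rcases (han.sub analyticAt_const).eventually_eq_zero_or_eventually_ne_zero (z₀ := Bt σ e v m p)
          (f := fun z => B0 z - B0 (Bt σ e v m p)) with h3 | h3
        · exfalso
          refine a4 _ hq ?_
          filter_upwards [h3] with z hz
          exact sub_eq_zero.1 hz
        · filter_upwards [h3] with z hz hz2
          exact hz (sub_eq_zero.2 hz2)
      have h3 : ∀ᶠ z in 𝓝 (Bt σ e v m p), z ≠ Bt σ e v m p → B0 z ≠ B0 (Bt σ e v m p) :=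
        eventually_nhdsWithin_iff.1 h2
      have h4 : ∀ᶠ z in 𝓝 p, Bt σ e v m z ≠ Bt σ e v m p → B0 (Bt σ e v m z) ≠ B0 (Bt σ e v m p) :=
        (bt_diff he1 hv hm hp).continuousAt.eventually h3
      refine bt_nc hσ0.1 he1 hv hm hp ?_
      filter_upwards [h4, hc] with z h5 h6
      by_contra h7
      exact h5 h7 h6

theorem bc_mono {L L' : ℕ} (hL : L ≤ L') {τ : ℕ → ℝ} {i : ℕ} {B : ℂ → ℂ} (h : BC L τ i B) : BC L' τ i B := by
  induction i generalizing B with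
  | zero => exact h
  | succ i ih =>
    obtain ⟨B0, σ, e, v, m, h0, hσ, he, hv, hm, hmL, hz, hB⟩ := h
    exact ⟨B0, σ, e, v, m, ih h0, hσ, he, hv, hm, hmL.trans hL, hz, hB⟩

end Pool.Agent.H56.MN
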