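import Pool.Agent.H56.MN.Bas
import Pool.Agent.H47.MM.Lift
import Pool.Agent.H47.MM.Sml
import Pool.Agent.H66.UX.LFT
import Pool.Agent.H31.MMx.Sh
import Pool.Agent.H31.MMx.Bad
import Pool.Agent.H47.RJ.CHB

/-!
# Module Evt: restriction and pass

PROOF. `L0` = the maximum of the `L` of `lift` for the finitely many values `v' = f c'`, `c' ∈ C` (finite ones), and `1`. Let `s` be given, `r` from `lift` (with `ε = 1`) for all `v'`; `ε'` with `2 K1 ε' ≤ r`; `ε1` from `sml` for all `x = v'`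
(`v' ∈ JS`, `s`, `ε'`). Let `S`, `y` be given, `Ss w = S (s w)`. Case 1: `S (ball 0 s)` contains no critical value: `lft` gives `S1`, `σ = s`, `e = v = 0`, `m = 1` (`Me 0 (Me 0 w ^ 1) = w`). Case 2: `S w' = f c'`, `‖w'‖ < s`, `c'` critical: `c' ∈ C` (`hof`), `v' = f c'`.
`sml` with `Φ = S`, `w0 = w'`: `‖S' (0)‖ < ε'`, Koebe (`img_le`, H31/MMx/Bad): `‖S (s w) - S w'‖ ≤ 2 K1 ‖S' 0‖`, so `Ss` has its values in `ball v' r`. `lift` for `Ss`, `w0 = 0`, `y`: first alternative: as in case 1. Second: `b'`, `e`, `w1`, `m`, `χ`: `Me e (w1 ^ m) = 0`, `χ w1 = y`,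
`f (χ w) = S (s Me e (w ^ m))`. If `‖e‖ ≤ s`: `σ = s`, `v = w1`, `S1 w = χ (Me w1 w)`. If `s < ‖e‖`: `sh` (H31/MMx/Sh): `ρ` on `ball 0 s` with `Me e (ρ z ^ m) = z`, `ρ 0 = w1`;
`S1 w = χ (ρ (s w))`, `f (S1 w) = S (s (s w))`: `σ = s ^ 2`, `e = v = 0`, `m = 1`.
-/

set_option autoImplicit false

open Filter Topology Polynomial Metric Set MeasureTheory

namespace Pool.Agent.H56.MN

open Pool.Agent.H44.Fatou (rat rat_continuous rat_coe_of_ne)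
open Pool.Agent.H32.BT (IsCrit)
open Pool.Agent.H44.RC (JS J6)
open Pool.Agent.H35.EX (chord)
open Pool.Agent.H47.MM (Un Me Hyp)
open Pool.H81.MM (mob_lt mob_hasDerivAt mob_zero)

/-- the Julia set is forward invariant -/
private theorem js_fwd {f : OnePoint ℂ → OnePoint ℂ} (hf : Continuous f) {x : OnePoint ℂ} (hx : x ∈ JS f) : f x ∈ JS f := by
  intro hF
  apply hx
  refine mem_interior.2 ⟨f ⁻¹' Pool.Agent.H56.HR.FS f, ?_, isOpen_interior.preimage hf, hF⟩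
  intro y hy ε hε
  have h1 : Pool.Agent.H56.HR.EqAt f (f y) := interior_subset hy
  filter_upwards [(hf.tendsto y).eventually (h1 ε hε), Pool.Agent.H47.RJ.ch_ball y hε] with w hw1 hw2
  intro m
  cases m with
  | zero => exact hw2
  | succ m =>
    rw [Function.iterate_succ_apply, Function.iterate_succ_apply]
    exact hw1 m

private theorem me_00 (w : ℂ) : Me 0 (Me 0 w ^ 1) = w := by
  unfold Me
  simp

theorem evt {a b : Polynomial ℂ} {C : Set ℂ} (h : Hyp a b C) (h6 : J6 (rat a b)) : ∃ L0 : ℕ, ∀ s : ℝ, 0 < s → s < 1 →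
    ∃ ε1 : ℝ, 0 < ε1 ∧ ∀ (n : ℕ) (S : ℂ → ℂ), Un S →
      (∃ p : OnePoint ℂ, ∀ w ∈ ball (0 : ℂ) 1, chord p ((rat a b)^[n] ((S w : ℂ) : OnePoint ℂ)) < ε1) →
      (∀ w ∈ ball (0 : ℂ) 1, ∀ c' : OnePoint ℂ, IsCrit (rat a b) c' → rat a b c' = ((S w : ℂ) : OnePoint ℂ) →
        ∃ c ∈ C, c' = ((c : ℂ) : OnePoint ℂ)) →
      ∀ y : ℂ, rat a b (y : OnePoint ℂ) = (S 0 : OnePoint ℂ) → ∃ (σ : ℝ) (e v : ℂ) (m : ℕ) (S1 : ℂ → ℂ),
        (σ = s ∨ σ = s ^ 2) ∧ ‖e‖ ≤ s ∧ ‖v‖ < 1 ∧ 1 ≤ m ∧ m ≤ L0 ∧ Me e (v ^ m) = 0 ∧ Un S1 ∧ S1 0 = y ∧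
        ∀ w ∈ ball (0 : ℂ) 1, rat a b ((S1 w : ℂ) : OnePoint ℂ) = ((S (Bt σ e v m w) : ℂ) : OnePoint ℂ) := by
  classical
  have hd1 : 1 ≤ max a.natDegree b.natDegree := le_trans (by norm_num) h.deg
  obtain ⟨vf, hvf⟩ : ∃ vf : ℂ → ℂ, ∀ c : ℂ, ∀ v : ℂ, rat a b (c : OnePoint ℂ) = (v : OnePoint ℂ) → vf c = v := by
    refine ⟨fun c => if hc : ∃ v : ℂ, rat a b (c : OnePoint ℂ) = (v : OnePoint ℂ) then hc.choose else 0, ?_⟩
    intro c v hv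
    have hc : ∃ v : ℂ, rat a b (c : OnePoint ℂ) = (v : OnePoint ℂ) := ⟨v, hv⟩
    show (if hc : ∃ v : ℂ, rat a b (c : OnePoint ℂ) = (v : OnePoint ℂ) then hc.choose else 0) = v
    rw [dif_pos hc]
    exact OnePoint.coe_injective (hc.choose_spec.symm.trans hv)
  have hl := fun c : ℂ => Pool.Agent.H47.MM.lift h.cop hd1 h.inf (vf c)
  choose Lc hLc using hl
  have hl1 := fun c : ℂ => hLc c 1 one_pos
  choose rc hrc0 hrc using hl1
  obtain ⟨L0, hL0⟩ : ∃ L0 : ℕ, ∀ c ∈ C, Lc c ≤ L0 := by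
    obtain ⟨L0, hL0⟩ := (h.fin.image Lc).bddAbove
    exact ⟨L0, fun c hc => hL0 ⟨c, hc, rfl⟩⟩
  refine ⟨L0 + 1, ?_⟩
  intro s hs0 hs1
  have hK : 0 < Pool.Agent.H31.MMx.K1 s := Pool.Agent.H31.MMx.K1_pos s
  -- the smallness at the critical values
  have hsm : ∀ c : ℂ, ∃ δ : ℝ, 0 < δ ∧ (c ∈ C → ∀ v : ℂ, rat a b (c : OnePoint ℂ) = (v : OnePoint ℂ) →
      ∀ Φ : ℂ → ℂ, Un Φ → ∀ (n : ℕ) (p : OnePoint ℂ),
        (∀ w ∈ ball (0 : ℂ) 1, chord p ((rat a b)^[n] ((Φ w : ℂ) : OnePoint ℂ)) < δ) → ∀ w0 : ℂ, ‖w0‖ ≤ s → Φ w0 = v →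
          ‖deriv Φ 0‖ < rc c / (2 * Pool.Agent.H31.MMx.K1 s)) := by
    intro c
    by_cases hc : c ∈ C ∧ ∃ v : ℂ, rat a b (c : OnePoint ℂ) = (v : OnePoint ℂ)
    · obtain ⟨hc, v, hv⟩ := hc
      have hvJ : (v : OnePoint ℂ) ∈ JS (rat a b) := by
        rw [← hv]
        exact js_fwd (rat_continuous h.cop) (h.jul c hc)
      obtain ⟨δ, hδ, hδ2⟩ := Pool.Agent.H47.MM.sml h6 hvJ hs1 (ε := rc c / (2 * Pool.Agent.H31.MMx.K1 s))
        (div_pos (hrc0 c) (by positivity))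
      refine ⟨δ, hδ, fun _ v' hv' => ?_⟩
      have hvv : v' = v := OnePoint.coe_injective (hv'.symm.trans hv)
      rw [hvv]
      exact hδ2
    · exact ⟨1, one_pos, fun hcC v hv => absurd ⟨hcC, v, hv⟩ hc⟩
  choose δ hδ0 hδ using hsm
  obtain ⟨ε1, hε1, hε1C⟩ : ∃ r : ℝ, 0 < r ∧ ∀ c ∈ C, r ≤ δ c := by
    rcases C.eq_empty_or_nonempty with hE | hE
    · exact ⟨1, one_pos, fun c hc => by rw [hE] at hc; exact absurd hc (notMem_empty c)⟩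
    · obtain ⟨c0, hc0, hmin⟩ := exists_min_image C δ h.fin hE
      exact ⟨δ c0, hδ0 c0, hmin⟩
  refine ⟨ε1, hε1, ?_⟩
  rintro n S hS ⟨p, hp⟩ hof y hy
  obtain ⟨Ss, hSs⟩ : ∃ Ss : ℂ → ℂ, ∀ w, Ss w = S (s * w) := ⟨fun w => S (s * w), fun w => rfl⟩
  have hsc : (s : ℂ) ≠ 0 := by exact_mod_cast hs0.ne'
  have hsw : ∀ w : ℂ, ‖(s : ℂ) * w‖ = s * ‖w‖ := fun w => by
    rw [norm_mul, Complex.norm_real, Real.norm_of_nonneg hs0.le]
  have hsb : ∀ w ∈ ball (0 : ℂ) 1, (s : ℂ) * w ∈ ball (0 : ℂ) s := by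
    intro w hw
    rw [mem_ball_zero_iff] at hw ⊢
    rw [hsw]
    nlinarith
  have hsub : ball (0 : ℂ) s ⊆ ball 0 1 := ball_subset_ball hs1.le
  have hSsU : Un Ss := by
    have h1 : Ss = fun w => S (s * w) := funext hSs
    rw [h1]
    refine ⟨hS.1.comp ((differentiable_id.const_mul _).differentiableOn) fun w hw => hsub (hsb w hw), ?_⟩
    intro w hw w' hw' hww
    exact mul_left_cancel₀ hsc (hS.2 (hsub (hsb w hw)) (hsub (hsb w' hw')) hww)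
  have hSs0 : Ss 0 = S 0 := by rw [hSs, mul_zero]
  have hy' : rat a b (y : OnePoint ℂ) = (Ss 0 : OnePoint ℂ) := by rw [hSs0]; exact hy
  have h01 : (0 : ℂ) ∈ ball (0 : ℂ) 1 := mem_ball_self one_pos
  -- the first alternative
  have fin1 : ∀ S1 : ℂ → ℂ, Un S1 → (∀ w ∈ ball (0 : ℂ) 1, rat a b ((S1 w : ℂ) : OnePoint ℂ) = ((Ss w : ℂ) : OnePoint ℂ)) →
      S1 0 = y → ∃ (σ : ℝ) (e v : ℂ) (m : ℕ) (S1 : ℂ → ℂ),
        (σ = s ∨ σ = s ^ 2) ∧ ‖e‖ ≤ s ∧ ‖v‖ < 1 ∧ 1 ≤ m ∧ m ≤ L0 + 1 ∧ Me e (v ^ m) = 0 ∧ Un S1 ∧ S1 0 = y ∧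
        ∀ w ∈ ball (0 : ℂ) 1, rat a b ((S1 w : ℂ) : OnePoint ℂ) = ((S (Bt σ e v m w) : ℂ) : OnePoint ℂ) := by
    intro S1 h1 h2 h3
    refine ⟨s, 0, 0, 1, S1, Or.inl rfl, by rw [norm_zero]; exact hs0.le, by rw [norm_zero]; exact one_pos, le_rfl, by omega,
      by unfold Me; simp, h1, h3, fun w hw => ?_⟩
    rw [h2 w hw, hSs]
    unfold Bt
    rw [me_00]
  by_cases hcv : ∀ u ∈ ball (0 : ℂ) 1, ∀ c' : OnePoint ℂ, IsCrit (rat a b) c' → rat a b c' ≠ ((Ss u : ℂ) : OnePoint ℂ)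
  · obtain ⟨G, hG1, hG2, hG3⟩ := Pool.Agent.H66.UX.lft h.cop hd1 h.inf h01
      ((convex_ball (0 : ℂ) 1).starConvex h01) isOpen_ball hSsU.1 hcv h01 hy'
    have hG4 : ∀ w ∈ ball (0 : ℂ) 1, rat a b ((G w : ℂ) : OnePoint ℂ) = ((Ss w : ℂ) : OnePoint ℂ) := by
      intro w hw
      rw [rat_coe_of_ne (hG3 w hw).1, ← (hG3 w hw).2]
      rfl
    refine fin1 G ⟨hG1, ?_⟩ hG4 hG2
    intro w hw w' hw' hww
    have h1 := hG4 w hw
    rw [hww, hG4 w' hw'] at h1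
    exact (hSsU.2 hw' hw (OnePoint.coe_injective h1)).symm
  · push Not at hcv
    obtain ⟨u0, hu0, c', hc', hcu⟩ := hcv
    rw [hSs] at hcu
    obtain ⟨c1, hc1, rfl⟩ := hof _ (hsub (hsb u0 hu0)) c' hc' hcu
    have hv := hvf c1 _ hcu
    have hs0' : ‖(s : ℂ) * u0‖ ≤ s := (mem_ball_zero_iff.1 (hsb u0 hu0)).le
    have hder := hδ c1 hc1 _ hcu S hS n p (fun w hw => (hp w hw).trans_le (hε1C c1 hc1)) _ hs0' rfl
    have hsmall : ∀ w ∈ ball (0 : ℂ) 1, ‖Ss w - vf c1‖ < rc c1 := by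
      intro w hw
      rw [hv, hSs]
      have h1 := Pool.Agent.H31.MMx.img_le hS.1 hS.2 hs0.le hs1 (mem_ball_zero_iff.1 (hsb w hw)).le hs0'
      refine h1.trans_lt ?_
      rw [lt_div_iff₀ (by positivity)] at hder
      linarith
    rcases hrc c1 Ss hSsU hsmall y 0 h01 hy' with h1 | h1
    · obtain ⟨S1, h2, h3, h4⟩ := h1
      exact fin1 S1 h2 h3 h4
    · obtain ⟨b1, e, w1, m, χ, -, -, he, -, hm2, hmL, hχ, -, hχf, hw1, hw1m, hw1y⟩ := h1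
      have he1 := mem_ball_zero_iff.1 he
      have hw11 := mem_ball_zero_iff.1 hw1
      have hmL0 : m ≤ L0 + 1 := (hmL.trans (hL0 c1 hc1)).trans (Nat.le_succ _)
      rcases le_or_gt ‖e‖ s with hes | hes
      · have hMb : ∀ w ∈ ball (0 : ℂ) 1, Me w1 w ∈ ball (0 : ℂ) 1 := fun w hw =>
          mem_ball_zero_iff.2 (mob_lt hw11 (mem_ball_zero_iff.1 hw))
        refine ⟨s, e, w1, m, χ ∘ Me w1, Or.inl rfl, hes, hw11, by omega, hmL0, hw1m, ⟨?_, ?_⟩, ?_, ?_⟩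
        · refine hχ.1.comp (fun w hw => ?_) hMb
          exact (mob_hasDerivAt hw11 (mem_ball_zero_iff.1 hw)).differentiableAt.differentiableWithinAt
        · intro w hw w' hw' hww
          exact me_inj' hw11 (mem_ball_zero_iff.1 hw) (mem_ball_zero_iff.1 hw') (hχ.2 (hMb w hw) (hMb w' hw') hww)
        · show χ (Me w1 0) = y
          rw [show Me w1 0 = w1 from mob_zero w1]
          exact hw1y
        · intro w hw
          show rat a b ((χ (Me w1 w) : ℂ) : OnePoint ℂ) = _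
          rw [(hχf _ (hMb w hw)).2, hSs]
          rfl
      · obtain ⟨ρ, hρ1, hρ2, hρ3, hρ4⟩ := Pool.Agent.H31.MMx.sh hs1 (show m ≠ 0 by omega) he1 hes
          (by rw [norm_zero]; exact hs0) hw11 hw1m
        refine ⟨s ^ 2, 0, 0, 1, fun w => χ (ρ (s * w)), Or.inr rfl, by rw [norm_zero]; exact hs0.le,
          by rw [norm_zero]; exact one_pos, le_rfl, by omega, by unfold Me; simp, ⟨?_, ?_⟩, ?_, ?_⟩
        · refine hχ.1.comp (hρ1.comp ((differentiable_id.const_mul _).differentiableOn) hsb) fun w hw => ?_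
          exact (hρ3 _ (hsb w hw)).1
        · intro w hw w' hw' hww
          have h2 := hχ.2 (hρ3 _ (hsb w hw)).1 (hρ3 _ (hsb w' hw')).1 hww
          exact mul_left_cancel₀ hsc (hρ2 (hsb w hw) (hsb w' hw') h2)
        · show χ (ρ (s * 0)) = y
          rw [mul_zero, hρ4]
          exact hw1y
        · intro w hw
          show rat a b ((χ (ρ (s * w)) : ℂ) : OnePoint ℂ) = _
          rw [(hχf _ (hρ3 _ (hsb w hw)).1).2, (hρ3 _ (hsb w hw)).2, hSs]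
          unfold Bt
          rw [me_00]
          congr 2
          push_cast
          ring

end Pool.Agent.H56.MN
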