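import Pool.Agent.H56.MN.Lfu
import Pool.Agent.H56.MN.Evt

/-!
# Module Chn: the chain of univalent maps

`kap f V x n j` = the number of critical times `k ≥ j` of the pull backs of `V` along `x, .., f^n x`.
PROOF of `chn`. Downward induction on `j` (from `n`): `j = n`: `S w = ψ c (Me u w)`, `B = id`, `i = 0`. From `j + 1` to `j`: `kap (j + 1) ≤ kap j ≤ N`, so there are `i`, `B`, `S` for `j + 1`. `y = f^[j] x` is finite (`f ∞ = ∞`, `f^[n] x` finite). `lfu` for `S`, `y`: lift: same `i`, `B`. Otherwise a critical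
point in `CC f 1 (S D) y ⊆ CC f (n - j) V y` (`S D ⊆ CC f (n - j - 1) V (f^[j + 1] x)`, connectedness), so `j` is a critical time, `kap j = kap (j + 1) + 1`, `i + 1 ≤ kap j ≤ N`. `evt` with `s = τ i`: `S1`, `B1 w = B (Bt σ e v m w)`, `BC L0 τ (i + 1) B1`.
`ε1` = the minimum over `i < N` of the `ε1` of `evt` for `s = τ i` (chord ≤ distance) and the `ρ` of `Hyp.off`: `hof`: if `f c' = S w`, `c'` critical, then `f^[n - j] c' = ψ c w'`, within `ε` of `c`: by `off` `c' ∈ C`.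
-/

set_option autoImplicit false

open Filter Topology Polynomial Metric Set MeasureTheory

namespace Pool.Agent.H56.MN

open Pool.Agent.H44.Fatou (rat)
open Pool.Agent.H44.RC (J6 CC cc_max cc_pre cc_mem cc_sub)
open Pool.Agent.H3.UP (CE)
open Pool.Agent.H32.BT (IsCrit)
open Pool.Agent.H47.MM (Un Me Hyp Sys)

/-- the number of critical times from `j` on -/
noncomputable def kap (f : OnePoint ℂ → OnePoint ℂ) (V : Set (OnePoint ℂ)) (x : OnePoint ℂ) (n j : ℕ) : ℕ :=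
  {k ∈ CE f V x n | j ≤ k}.ncard

private theorem chn_chord (a b : ℂ) : Pool.Agent.H35.EX.chord (a : OnePoint ℂ) (b : OnePoint ℂ) ≤ ‖a - b‖ := by
  show ‖a - b‖ / (√(1 + ‖a‖ ^ 2) * √(1 + ‖b‖ ^ 2)) ≤ ‖a - b‖
  apply div_le_self (norm_nonneg _)
  have h1 : 1 ≤ √(1 + ‖a‖ ^ 2) := Real.one_le_sqrt.2 (by nlinarith [norm_nonneg a])
  have h2 : 1 ≤ √(1 + ‖b‖ ^ 2) := Real.one_le_sqrt.2 (by nlinarith [norm_nonneg b])
  nlinarith

private theorem chn_min (n : ℕ) (p : ℕ → ℝ) (hp : ∀ i, 0 < p i) : ∃ ε : ℝ, 0 < ε ∧ ∀ i ≤ n, ε ≤ p i := by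
  induction n with
  | zero => exact ⟨p 0, hp 0, fun i hi => by rw [Nat.le_zero.1 hi]⟩
  | succ n ih =>
    obtain ⟨ε, h1, h2⟩ := ih
    refine ⟨min ε (p (n + 1)), lt_min h1 (hp _), fun i hi => ?_⟩
    rcases Nat.lt_or_ge n i with h | h
    · have : i = n + 1 := by omega
      rw [this]
      exact min_le_right _ _
    · exact (min_le_left _ _).trans (h2 i h)

theorem kap_fin (f : OnePoint ℂ → OnePoint ℂ) (V : Set (OnePoint ℂ)) (x : OnePoint ℂ) (n j : ℕ) :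
    {k ∈ CE f V x n | j ≤ k}.Finite :=
  (Pool.Agent.H3.UP.ce_fin V x n).subset fun _ hk => hk.1

theorem kap_anti (f : OnePoint ℂ → OnePoint ℂ) (V : Set (OnePoint ℂ)) (x : OnePoint ℂ) (n j : ℕ) :
    kap f V x n (j + 1) ≤ kap f V x n j :=
  ncard_le_ncard (fun _ hk => ⟨hk.1, (Nat.le_succ j).trans hk.2⟩) (kap_fin f V x n j)

theorem kap_succ {f : OnePoint ℂ → OnePoint ℂ} {V : Set (OnePoint ℂ)} {x : OnePoint ℂ} {n j : ℕ} (hj : j ∈ CE f V x n) :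
    kap f V x n j = kap f V x n (j + 1) + 1 := by
  unfold kap
  have h1 : {k ∈ CE f V x n | j ≤ k} = insert j {k ∈ CE f V x n | j + 1 ≤ k} := by
    ext k
    constructor
    · rintro ⟨h1, h2⟩
      rcases Nat.eq_or_lt_of_le h2 with h3 | h3
      · exact Or.inl h3.symm
      · exact Or.inr ⟨h1, h3⟩
    · rintro (rfl | ⟨h1, h2⟩)
      · exact ⟨hj, le_rfl⟩
      · exact ⟨h1, (Nat.le_succ j).trans h2⟩
  rw [h1, ncard_insert_of_notMem (fun h => absurd h.2 (by simp)) (kap_fin f V x n (j + 1))]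

/-- the chain of univalent maps over an arbitrary small univalent disc `T` -/
theorem chnT {a b : Polynomial ℂ} {C : Set ℂ} (h : Hyp a b C) (h6 : J6 (rat a b)) : ∃ L0 : ℕ, ∀ τ : ℕ → ℝ,
    (∀ i, 0 < τ i ∧ τ i < 1) → ∀ N : ℕ, ∃ ε1 : ℝ, 0 < ε1 ∧ ∀ T : ℂ → ℂ, Un T →
      (∀ w ∈ ball (0 : ℂ) 1, ‖T w - T 0‖ < ε1) →
      (∀ c' : OnePoint ℂ, IsCrit (rat a b) c' → ∀ m : ℕ,
        (rat a b)^[m] c' ∈ (fun w : ℂ => ((T w : ℂ) : OnePoint ℂ)) '' ball 0 1 → ∃ c ∈ C, c' = ((c : ℂ) : OnePoint ℂ)) →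
      ∀ (n : ℕ) (x u : ℂ), ‖u‖ < 1 →
      (rat a b)^[n] ((x : ℂ) : OnePoint ℂ) = ((T u : ℂ) : OnePoint ℂ) → ∀ j ≤ n,
      kap (rat a b) ((fun w : ℂ => ((T w : ℂ) : OnePoint ℂ)) '' ball 0 1) ((x : ℂ) : OnePoint ℂ) n j ≤ N →
      ∃ i ≤ kap (rat a b) ((fun w : ℂ => ((T w : ℂ) : OnePoint ℂ)) '' ball 0 1) ((x : ℂ) : OnePoint ℂ) n j,
        ∃ B : ℂ → ℂ, BC L0 τ i B ∧ ∃ S : ℂ → ℂ, Un S ∧
        ((S 0 : ℂ) : OnePoint ℂ) = (rat a b)^[j] ((x : ℂ) : OnePoint ℂ) ∧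
        ∀ w ∈ ball (0 : ℂ) 1, (rat a b)^[n - j] ((S w : ℂ) : OnePoint ℂ) = ((T (Me u (B w)) : ℂ) : OnePoint ℂ) := by
  obtain ⟨L0, He⟩ := evt h h6
  refine ⟨L0, fun τ hτ N => ?_⟩
  choose p hp0 hp using fun i => He (τ i) (hτ i).1 (hτ i).2
  obtain ⟨ε0, hε0, hmin⟩ := chn_min N p hp0
  refine ⟨ε0, hε0, ?_⟩
  intro T hT hTs hof n x u hu hx
  set V : Set (OnePoint ℂ) := (fun w : ℂ => ((T w : ℂ) : OnePoint ℂ)) '' ball 0 1 with hV
  have hfix : ∀ n : ℕ, (rat a b)^[n] OnePoint.infty = OnePoint.infty := by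
    intro n
    induction n with
    | zero => rfl
    | succ n ih => rw [Function.iterate_succ_apply, h.inf, ih]
  have hd1 : 1 ≤ max a.natDegree b.natDegree := one_le_two.trans h.deg
  suffices H : ∀ d j : ℕ, j + d = n → kap (rat a b) V ((x : ℂ) : OnePoint ℂ) n j ≤ N →
      ∃ i ≤ kap (rat a b) V ((x : ℂ) : OnePoint ℂ) n j, ∃ B : ℂ → ℂ, BC L0 τ i B ∧ ∃ S : ℂ → ℂ, Un S ∧
        ((S 0 : ℂ) : OnePoint ℂ) = (rat a b)^[j] ((x : ℂ) : OnePoint ℂ) ∧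
        ∀ w ∈ ball (0 : ℂ) 1, (rat a b)^[n - j] ((S w : ℂ) : OnePoint ℂ) = ((T (Me u (B w)) : ℂ) : OnePoint ℂ) from
    fun j hj hk => H (n - j) j (by omega) hk
  intro d
  induction d with
  | zero =>
    intro j hj _
    have hjn : j = n := by omega
    subst hjn
    refine ⟨0, Nat.zero_le _, id, rfl, fun w => T (Me u w), ⟨?_, ?_⟩, ?_, ?_⟩
    · intro w hw
      have h1 : DifferentiableAt ℂ (Me u) w := (Pool.H81.MM.mob_hasDerivAt hu (mem_ball_zero_iff.1 hw)).differentiableAt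
      have h2 : DifferentiableAt ℂ (T) (Me u w) := hT.1.differentiableAt
        (isOpen_ball.mem_nhds (mem_ball_zero_iff.2 (Pool.H81.MM.mob_lt hu (mem_ball_zero_iff.1 hw))))
      exact (h2.comp w h1).differentiableWithinAt
    · intro w hw w' hw' hww
      rw [mem_ball_zero_iff] at hw hw'
      exact me_inj' hu hw hw' (hT.2 (mem_ball_zero_iff.2 (Pool.H81.MM.mob_lt hu hw))
        (mem_ball_zero_iff.2 (Pool.H81.MM.mob_lt hu hw')) hww)
    · rw [hx]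
      show ((T (Me u 0) : ℂ) : OnePoint ℂ) = _
      rw [show Me u 0 = u from Pool.H81.MM.mob_zero u]
    · intro w _
      rw [Nat.sub_self]
      rfl
  | succ d ih =>
    intro j hj hk
    have hjn : j < n := by omega
    have hsub : n - j = (n - (j + 1)) + 1 := by omega
    obtain ⟨i, hi, B, hB, S, hSu, hS0, hSf⟩ := ih (j + 1) (by omega) ((kap_anti _ _ _ _ _).trans hk)
    have hbas := bc_bas hτ hB
    have hmeB : ∀ w ∈ ball (0 : ℂ) 1, Me u (B w) ∈ ball (0 : ℂ) 1 := fun w hw =>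
      mem_ball_zero_iff.2 (Pool.H81.MM.mob_lt hu (hbas.2.1 w hw))
    have hfin : (rat a b)^[j] ((x : ℂ) : OnePoint ℂ) ≠ OnePoint.infty := by
      intro h0
      have h1 : (rat a b)^[n - j] ((rat a b)^[j] ((x : ℂ) : OnePoint ℂ)) = ((T u : ℂ) : OnePoint ℂ) := by
        rw [← Function.iterate_add_apply, Nat.sub_add_cancel hjn.le, hx]
      rw [h0, hfix] at h1
      exact OnePoint.infty_ne_coe _ h1
    obtain ⟨y, hy⟩ := OnePoint.ne_infty_iff_exists.1 hfin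
    have hyS : rat a b (y : OnePoint ℂ) = (S 0 : OnePoint ℂ) := by
      rw [hS0, hy, ← Function.iterate_succ_apply' (rat a b) j]
    rcases lfu h.cop hd1 h.inf hSu hyS with ⟨G1, hG1, hG0, hGf⟩ | ⟨c', hcr, hc'⟩
    · refine ⟨i, hi.trans (kap_anti _ _ _ _ _), B, hB, G1, hG1, by rw [hG0, hy], fun w hw => ?_⟩
      rw [hsub, Function.iterate_succ_apply, hGf w hw, hSf w hw]
    · have hA : CC (rat a b) 1 ((fun w : ℂ => ((S w : ℂ) : OnePoint ℂ)) '' ball 0 1) (y : OnePoint ℂ) ⊆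
          CC (rat a b) (n - j) V ((rat a b)^[j] ((x : ℂ) : OnePoint ℂ)) := by
        apply cc_max (cc_pre _ _ _)
        · rw [← hy]
          exact cc_mem (show (rat a b)^[1] (y : OnePoint ℂ) ∈ _ from ⟨0, mem_ball_self one_pos, hyS.symm⟩)
        · intro z hz
          obtain ⟨w, hw, hwz⟩ : (rat a b)^[1] z ∈ (fun w : ℂ => ((S w : ℂ) : OnePoint ℂ)) '' ball 0 1 := cc_sub hz
          have h1 : rat a b z = ((S w : ℂ) : OnePoint ℂ) := hwz.symm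
          rw [hsub, Function.iterate_succ_apply, h1, hSf w hw]
          exact ⟨_, hmeB w hw, rfl⟩
      have hCE : j ∈ CE (rat a b) V ((x : ℂ) : OnePoint ℂ) n := ⟨hjn, c', hcr, hA hc'⟩
      have hks := kap_succ hCE
      have hiN : i ≤ N := by omega
      obtain ⟨σ, e, v, m, S1, hσ, he, hv, hm, hmL, hMe, hS1, hS10, hS1f⟩ := hp i (n - (j + 1)) S hSu
        ⟨((T 0 : ℂ) : OnePoint ℂ), fun w hw => by
          rw [hSf w hw]
          refine lt_of_le_of_lt (chn_chord _ _) ?_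
          rw [norm_sub_rev]
          exact (hTs _ (hmeB w hw)).trans_le (hmin i hiN)⟩
        (fun w hw q hq hqw => by
          refine hof q hq ((n - (j + 1)) + 1) ⟨_, hmeB w hw, ?_⟩
          rw [Function.iterate_succ_apply, hqw, hSf w hw]) y hyS
      have hσ1 : 0 < σ ∧ σ < 1 := by
        rcases hσ with rfl | rfl
        · exact hτ i
        · exact ⟨pow_pos (hτ i).1 2, pow_lt_one₀ (hτ i).1.le (hτ i).2 two_ne_zero⟩
      refine ⟨i + 1, by omega, fun w => B (Bt σ e v m w), ⟨B, σ, e, v, m, hB, hσ, he, hv, hm, hmL, hMe, rfl⟩, S1, hS1,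
        by rw [hS10, hy], fun w hw => ?_⟩
      have hbt : Bt σ e v m w ∈ ball (0 : ℂ) 1 := mem_ball_zero_iff.2
        ((bt_lt hσ1.1 (he.trans_lt (hτ i).2) hv hm (mem_ball_zero_iff.1 hw)).trans hσ1.2)
      rw [hsub, Function.iterate_succ_apply, hS1f w hw, hSf _ hbt]

theorem chn {a b : Polynomial ℂ} {C : Set ℂ} (h : Hyp a b C) (h6 : J6 (rat a b)) : ∃ L0 : ℕ, ∀ τ : ℕ → ℝ,
    (∀ i, 0 < τ i ∧ τ i < 1) → ∀ N : ℕ, ∃ ε1 : ℝ, 0 < ε1 ∧ ∀ (L : ℕ) (ε : ℝ) (g ψ : ℂ → ℂ → ℂ) (l : ℂ → ℕ),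
      Sys a b C L ε g ψ l → ε ≤ ε1 → ∀ c ∈ C, ∀ (n : ℕ) (x u : ℂ), ‖u‖ < 1 →
      (rat a b)^[n] ((x : ℂ) : OnePoint ℂ) = ((ψ c u : ℂ) : OnePoint ℂ) → ∀ j ≤ n,
      kap (rat a b) (Vd ψ c) ((x : ℂ) : OnePoint ℂ) n j ≤ N →
      ∃ i ≤ kap (rat a b) (Vd ψ c) ((x : ℂ) : OnePoint ℂ) n j, ∃ B : ℂ → ℂ, BC L0 τ i B ∧ ∃ S : ℂ → ℂ, Un S ∧
        ((S 0 : ℂ) : OnePoint ℂ) = (rat a b)^[j] ((x : ℂ) : OnePoint ℂ) ∧
        ∀ w ∈ ball (0 : ℂ) 1, (rat a b)^[n - j] ((S w : ℂ) : OnePoint ℂ) = ((ψ c (Me u (B w)) : ℂ) : OnePoint ℂ) := by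
  obtain ⟨L0, H⟩ := chnT h h6
  refine ⟨L0, fun τ hτ N => ?_⟩
  obtain ⟨ε1, hε1, H1⟩ := H τ hτ N
  obtain ⟨ρ, hρ, hoff⟩ := h.off
  refine ⟨min ε1 ρ, lt_min hε1 hρ, ?_⟩
  intro L ε g ψ l hS hε c hc n x u hu hx j hj hk
  refine H1 (ψ c) (hS.pu c hc) (fun w hw => ?_) (fun c' hc' m hm => ?_) n x u hu hx j hj hk
  · rw [hS.p0 c hc]
    exact (hS.ps c hc w hw).trans_le (hε.trans (min_le_left _ _))
  · obtain ⟨w, hw, hwm⟩ := hm
    by_contra hcon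
    push Not at hcon
    have h2 := hoff c' hc' hcon m c hc _ hwm.symm
    have h3 := (hS.ps c hc w hw).trans_le (hε.trans (min_le_right _ _))
    linarith

end Pool.Agent.H56.MN
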