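import Pool.Agent.H56.MN.Bas

/-!
# Module Cmp: the classes `BC` are compact

PROOF. Induction on `i`. `B j = B0 j ∘ Bt (σ j) (e j) (v j) (m j)`. Pass to a subsequence: `B0 j → B0` locally uniformly on the disc, `B0 ∈ BC L τ i`; `σ j`, `m j` constant (finitely many
values); `e j → e`, `‖e‖ ≤ τ i`; `v j → v`: `(v j) ^ m = - e j` (from `Me e (v ^ m) = 0`), so `‖v j‖ ^ m ≤ τ i < 1`, `‖v‖ < 1`, `Me e (v ^ m) = 0`. `Bt .. → Bt ..` locally uniformly on the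
disc (joint continuity on compact sets, the denominators are bounded below), with values in `ball 0 (τ i)`, whose closure is compact in the disc: so `B0 j (Bt j w) → B0 (Bt w)` locally uniformly.
-/

set_option autoImplicit false

open Filter Topology Polynomial Metric Set MeasureTheory

namespace Pool.Agent.H56.MN

open Pool.Agent.H47.MM (Un Me)
open Pool.H81.MM (mob mob_den mob_lt mob_eq_zero mob_neg)

/-- continuous convergence gives locally uniform convergence -/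
theorem tlu_of_cc {F : ℕ → ℂ → ℂ} {f : ℂ → ℂ} (hf : ContinuousOn f (ball 0 1))
    (h : ∀ x ∈ ball (0 : ℂ) 1, Tendsto (fun y : ℕ × ℂ => F y.1 y.2) (atTop ×ˢ 𝓝[ball 0 1] x) (𝓝 (f x))) :
    TendstoLocallyUniformlyOn F f atTop (ball 0 1) := by
  rw [tendstoLocallyUniformlyOn_iff_forall_tendsto]
  intro x hx
  have h1 : Tendsto (fun y : ℕ × ℂ => (f y.2, F y.1 y.2)) (atTop ×ˢ 𝓝[ball 0 1] x) (𝓝 (f x, f x)) :=
    ((hf x hx).tendsto.comp tendsto_snd).prodMk_nhds (h x hx)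
  exact h1.mono_right (nhds_le_uniformity _)

/-- locally uniform convergence gives continuous convergence -/
theorem cc_of_tlu {F : ℕ → ℂ → ℂ} {f : ℂ → ℂ} (hf : ContinuousOn f (ball 0 1))
    (h : TendstoLocallyUniformlyOn F f atTop (ball 0 1)) {ι : Type*} {l : Filter ι} {n : ι → ℕ} {g : ι → ℂ} {x : ℂ}
    (hx : x ∈ ball (0 : ℂ) 1) (hn : Tendsto n l atTop) (hg : Tendsto g l (𝓝[ball 0 1] x)) :
    Tendsto (fun a => F (n a) (g a)) l (𝓝 (f x)) := by
  refine tendsto_comp_of_locally_uniform_limit_within (F := fun a => F (n a)) (hf x hx) hg ?_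
  intro u hu
  obtain ⟨t, ht, h1⟩ := h u hu x hx
  exact ⟨t, ht, hn.eventually h1⟩

theorem tend_me {ι : Type*} {l : Filter ι} {a b : ι → ℂ} {e w : ℂ} (he : ‖e‖ < 1) (hw : ‖w‖ < 1)
    (ha : Tendsto a l (𝓝 e)) (hb : Tendsto b l (𝓝 w)) : Tendsto (fun i => Me (a i) (b i)) l (𝓝 (Me e w)) := by
  unfold Me
  refine (hb.add ha).div (tendsto_const_nhds.add ?_) (mob_den he hw)
  exact ((Complex.continuous_conj.tendsto e).comp ha).mul hb

theorem tend_pow {ι : Type*} {l : Filter ι} {b : ι → ℂ} {m : ι → ℕ} {w : ℂ} {M : ℕ}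
    (hm : ∀ᶠ i in l, m i = M) (hb : Tendsto b l (𝓝 w)) : Tendsto (fun i => b i ^ m i) l (𝓝 (w ^ M)) := by
  refine (hb.pow M).congr' ?_
  filter_upwards [hm] with i hi
  rw [hi]

theorem bc_cmp {L : ℕ} {τ : ℕ → ℝ} (hτ : ∀ i, 0 < τ i ∧ τ i < 1) (i : ℕ) {B : ℕ → ℂ → ℂ} (hB : ∀ j, BC L τ i (B j)) :
    ∃ (s : ℕ → ℕ) (B' : ℂ → ℂ), StrictMono s ∧ BC L τ i B' ∧
      TendstoLocallyUniformlyOn (fun j => B (s j)) B' atTop (ball 0 1) := by
  induction i generalizing B with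
  | zero =>
    refine ⟨id, id, strictMono_id, rfl, ?_⟩
    have h1 : ∀ j, B j = id := fun j => hB j
    refine tlu_of_cc continuousOn_id fun x _ => ?_
    simp only [h1, id]
    exact tendsto_nhds_of_tendsto_nhdsWithin tendsto_snd
  | succ i ih =>
    choose B0 σ e v m h0 hσ he hv hm hmL hz hBe using hB
    obtain ⟨s0, B', hs0, hB', hlu⟩ := ih h0
    -- the parameters
    have hKc : IsCompact ((closedBall (0 : ℂ) (τ i) ×ˢ closedBall (0 : ℂ) 1) ×ˢ
        (({τ i, τ i ^ 2} : Set ℝ) ×ˢ (Icc 1 L : Set ℕ))) :=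
      ((isCompact_closedBall _ _).prod (isCompact_closedBall _ _)).prod
        ((Set.toFinite _).isCompact.prod (Set.finite_Icc 1 L).isCompact)
    obtain ⟨⟨⟨e', v'⟩, ⟨σ', m'⟩⟩, hmem, s1, hs1, hlim⟩ := hKc.tendsto_subseq
      (x := fun j => ((e (s0 j), v (s0 j)), (σ (s0 j), m (s0 j)))) (fun j => by
        refine ⟨⟨mem_closedBall_zero_iff.2 (he _), mem_closedBall_zero_iff.2 (hv _).le⟩, ?_, ⟨hm _, hmL _⟩⟩
        simpa using hσ (s0 j))
    obtain ⟨⟨he', hv'⟩, ⟨hσ', hm1, hm2⟩⟩ := hmem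
    simp only [mem_closedBall_zero_iff] at he' hv'
    simp only [mem_insert_iff, mem_singleton_iff] at hσ'
    simp only at hm1 hm2
    have le := ((Prod.tendsto_iff _ _).1 ((Prod.tendsto_iff _ _).1 hlim).1).1
    have lv := ((Prod.tendsto_iff _ _).1 ((Prod.tendsto_iff _ _).1 hlim).1).2
    have lσ := ((Prod.tendsto_iff _ _).1 ((Prod.tendsto_iff _ _).1 hlim).2).1
    have lm := ((Prod.tendsto_iff _ _).1 ((Prod.tendsto_iff _ _).1 hlim).2).2
    simp only [Function.comp_def] at le lv lσ lm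
    have lm' : ∀ᶠ j in atTop, m (s0 (s1 j)) = m' := by
      have := lm.eventually (show ∀ᶠ k in 𝓝 m', k = m' by simp [nhds_discrete])
      exact this
    have he1 : ‖e'‖ < 1 := he'.trans_lt (hτ i).2
    -- the relation
    have hrel : ∀ j, v (s0 (s1 j)) ^ m (s0 (s1 j)) = - e (s0 (s1 j)) := fun j =>
      mob_eq_zero ((he _).trans_lt (hτ i).2) (pow_lt1 (hm _) (hv _)) (hz _)
    have hrel' : v' ^ m' = - e' :=
      tendsto_nhds_unique (tend_pow lm' lv) ((le.neg).congr fun j => (hrel j).symm)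
    have hv1 : ‖v'‖ < 1 := by
      refine lt_of_le_of_ne hv' fun h => ?_
      have : ‖v' ^ m'‖ = 1 := by rw [norm_pow, h, one_pow]
      rw [hrel', norm_neg] at this
      linarith
    have hz' : Me e' (v' ^ m') = 0 := by
      rw [hrel']
      exact mob_neg e'
    have hσ0 : 0 < σ' ∧ σ' < 1 := by
      rcases hσ' with rfl | rfl
      · exact hτ i
      · exact ⟨pow_pos (hτ i).1 2, pow_lt_one₀ (hτ i).1.le (hτ i).2 two_ne_zero⟩
    have hBC : BC L τ (i + 1) (fun w => B' (Bt σ' e' v' m' w)) :=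
      ⟨B', σ', e', v', m', hB', hσ', he', hv1, hm1, hm2, hz', rfl⟩
    refine ⟨fun j => s0 (s1 j), _, hs0.comp hs1, hBC, ?_⟩
    refine tlu_of_cc (bc_bas hτ hBC).2.2.1.continuousOn fun x hx => ?_
    have hx1 : ‖x‖ < 1 := mem_ball_zero_iff.1 hx
    have hq : Bt σ' e' v' m' x ∈ ball (0 : ℂ) 1 :=
      mem_ball_zero_iff.2 ((bt_lt hσ0.1 he1 hv1 hm1 hx1).trans hσ0.2)
    have hfst : Tendsto (fun y : ℕ × ℂ => y.1) (atTop ×ˢ 𝓝[ball 0 1] x) atTop := tendsto_fst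
    have hsnd : Tendsto (fun y : ℕ × ℂ => y.2) (atTop ×ˢ 𝓝[ball 0 1] x) (𝓝 x) :=
      tendsto_nhds_of_tendsto_nhdsWithin tendsto_snd
    have hsnd' : ∀ᶠ y : ℕ × ℂ in atTop ×ˢ 𝓝[ball 0 1] x, ‖y.2‖ < 1 := by
      have h1 : ∀ᶠ z in 𝓝[ball (0 : ℂ) 1] x, ‖z‖ < 1 := by
        filter_upwards [self_mem_nhdsWithin] with z hz
        exact mem_ball_zero_iff.1 hz
      exact tendsto_snd.eventually h1
    have k1 : Tendsto (fun y : ℕ × ℂ => Me (v (s0 (s1 y.1))) y.2) (atTop ×ˢ 𝓝[ball 0 1] x) (𝓝 (Me v' x)) :=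
      tend_me hv1 hx1 (lv.comp hfst) hsnd
    have k2 : Tendsto (fun y : ℕ × ℂ => Me (v (s0 (s1 y.1))) y.2 ^ m (s0 (s1 y.1))) (atTop ×ˢ 𝓝[ball 0 1] x)
        (𝓝 (Me v' x ^ m')) :=
      tend_pow (hfst.eventually lm') k1
    have k3 : Tendsto (fun y : ℕ × ℂ => Bt (σ (s0 (s1 y.1))) (e (s0 (s1 y.1))) (v (s0 (s1 y.1))) (m (s0 (s1 y.1))) y.2)
        (atTop ×ˢ 𝓝[ball 0 1] x) (𝓝 (Bt σ' e' v' m' x)) := by
      unfold Bt
      refine Tendsto.mul ?_ ?_
      · exact (Complex.continuous_ofReal.tendsto σ').comp (lσ.comp hfst)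
      · exact tend_me he1 (pow_lt1 hm1 (mob_lt hv1 hx1)) (le.comp hfst) k2
    have k4 : Tendsto (fun y : ℕ × ℂ => Bt (σ (s0 (s1 y.1))) (e (s0 (s1 y.1))) (v (s0 (s1 y.1))) (m (s0 (s1 y.1))) y.2)
        (atTop ×ˢ 𝓝[ball 0 1] x) (𝓝[ball 0 1] (Bt σ' e' v' m' x)) := by
      refine tendsto_nhdsWithin_iff.2 ⟨k3, ?_⟩
      exact k3.eventually (isOpen_ball.mem_nhds hq)
    have k5 := cc_of_tlu (bc_bas hτ hB').2.2.1.continuousOn hlu hq (hs1.tendsto_atTop.comp hfst) k4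
    refine k5.congr fun y => ?_
    show B0 (s0 (s1 y.1)) _ = B (s0 (s1 y.1)) y.2
    rw [hBe]

end Pool.Agent.H56.MN
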