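import Pool.Agent.H56.MN.Vis
import Pool.Agent.H47.MM.Ker
import Pool.Agent.H91.Fatou.Branch

/-!
# Module Ker: the kernel

PROOF. `N = 0` is trivial (`NB` fails for `c = b'`, `n = 0`: there is no `j < 0`). `N ≥ 1`: `t < t' < 1` with `k ≤ t ^ m` for `0 ≠ m ≤ L`; `ε` from `visn`. Let `Sys`, `NB` hold. `hret`: `m` with `f^[m] a0 ∈ ψ c (ball 0 t)` (an open neighbourhood of `c`), `m ≥ 1`. Let `t < t1 < t'`. There is a connected open neighbourhood (a small disc) `O` of `a0` in the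
plane with `f^[m] O ⊆ ψ c (ball 0 t)`. `hom`: `n` with `f^[n] x ∈ O`; `f^[n + m] x = ψ c u`, `‖u‖ < t`: `visn`: `H` on `ball 0 t'`, `H u = x`. `G = f^[n] ∘ H` (finite, holomorphic, `f^[m] (G z) = ψ c z`, so injective), `G u = f^[n] x ∈ O`. `O ⊆ G (ball 0 t')`: `{z ∈ O | z ∈ G (ball 0 t')}` is open (`G` is open), nonempty, and closed in `O`: if
`z j = G (w j) → z ∈ O`, then `ψ c (w j) = f^[m] (z j) → f^[m] z = ψ c w`, `‖w‖ < t`, so `w j → w` (`ψ c` is a homeomorphism onto its open image), `z = G w`. So `f^[m]` is injective on `O` (`f^[m] (G w) = ψ c w`), but `a0 ∈ O` is critical and `m ≥ 1`: contradiction.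
-/

set_option autoImplicit false

open Filter Topology Polynomial Metric Set MeasureTheory

namespace Pool.Agent.H56.MN

open Pool.Agent.H44.Fatou (rat rat_continuous)
open Pool.Agent.H44.RC (JS J6 Om)
open Pool.Agent.H47.OI (AC)
open Pool.Agent.H47.MM (Un Me FI Hyp Sys par un_nhds)
open Pool.Agent.H43.UB (uh_open)
open Pool.Agent.H32.BT (rat_open)

/-- THEOREM MN in the plane -/
theorem kern {a b : Polynomial ℂ} {C : Set ℂ} (h : Hyp a b C) (h6 : J6 (rat a b)) {μ : ℂ → ℂ} (hμ : FI (rat a b) μ) {x : ℂ}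
    (hx : (x : OnePoint ℂ) ∈ JS (rat a b)) (h1 : ‖μ x‖ = 1) (hac : AC μ x (μ x)) {a0 : ℂ} (ha0 : a0 ∈ C)
    (hom : (a0 : OnePoint ℂ) ∈ Om (rat a b) (x : OnePoint ℂ))
    (hret : ∃ c ∈ C, (c : OnePoint ℂ) ∈ Om (rat a b) (a0 : OnePoint ℂ)) (L N : ℕ) {k : ℝ} (hk : k < 1) :
    ∃ ε : ℝ, 0 < ε ∧ ∀ (g ψ : ℂ → ℂ → ℂ) (l : ℂ → ℕ), Sys a b C L ε g ψ l → ¬ NB a b C g ψ N k := by
  have hz1 : (0 : ℂ) ∈ ball (0 : ℂ) 1 := mem_ball_self one_pos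
  rcases Nat.eq_zero_or_pos N with hN0 | hN
  · refine ⟨1, one_pos, fun g ψ l hS hNB => ?_⟩
    obtain ⟨j, hj, -⟩ := hNB a0 ha0 a0 ha0 0 ⟨0, hz1, by simp only [Function.iterate_zero, id, hS.p0 a0 ha0]⟩
      (by rw [hN0]; exact Nat.zero_le _)
    exact absurd hj (Nat.not_lt_zero _)
  obtain ⟨k', t, t', s, hkk, -, ht0, htt, ht1, -, -, hkt, -⟩ := par L hk
  have htlt : t < 1 := htt.trans ht1
  obtain ⟨ε, hε, hvis⟩ := visn h h6 hμ hx h1 hac L N hN hk ht0 htt ht1 (fun m hm hm0 => hkk.trans (hkt m hm hm0))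
  refine ⟨ε, hε, fun g ψ l hS hNB => ?_⟩
  have hbt : ball (0 : ℂ) t ⊆ ball 0 1 := ball_subset_ball htlt.le
  have hbt' : ball (0 : ℂ) t' ⊆ ball 0 1 := ball_subset_ball ht1.le
  have hbtt : ball (0 : ℂ) t ⊆ ball 0 t' := ball_subset_ball htt.le
  have hf : Continuous (rat a b) := rat_continuous h.cop
  have hfo : IsOpenMap (rat a b) := rat_open h.cop (le_trans (by norm_num) h.deg)
  -- the return
  obtain ⟨c, hc, hO⟩ := hret
  have hTT := un_nhds (hS.pu c hc) ht0 htlt.le isOpen_ball hbt (mem_ball_self ht0)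
  have hTo : IsOpen ((fun z : ℂ => (z : OnePoint ℂ)) '' (ψ c '' ball 0 t)) :=
    OnePoint.isOpenEmbedding_coe.isOpenMap _ (uh_open isOpen_ball (hS.pu c hc).1 (hS.pu c hc).2 isOpen_ball hbt)
  rw [hS.p0 c hc] at hTT
  obtain ⟨m, hm1, hm2⟩ := (frequently_atTop.1 (hO _ hTT)) 1
  have hcm : Continuous fun z : ℂ => (rat a b)^[m] (z : OnePoint ℂ) := (hf.iterate m).comp OnePoint.continuous_coe
  obtain ⟨δ, hδ, hδs⟩ := Metric.isOpen_iff.1 (hTo.preimage hcm) a0 hm2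
  have hW : ∀ z ∈ ball a0 δ, ∃ w : ℂ, w ∈ ball (0 : ℂ) t ∧ (rat a b)^[m] (z : OnePoint ℂ) = ((ψ c w : ℂ) : OnePoint ℂ) := by
    intro z hz
    obtain ⟨_, ⟨w, hw, rfl⟩, hw2⟩ := hδs hz
    exact ⟨w, hw, hw2.symm⟩
  -- the visit
  obtain ⟨n, z0, hz0, hxn⟩ : ∃ (n : ℕ) (z0 : ℂ), z0 ∈ ball a0 δ ∧ (rat a b)^[n] (x : OnePoint ℂ) = (z0 : OnePoint ℂ) := by
    have h2 : (fun z : ℂ => (z : OnePoint ℂ)) '' ball a0 δ ∈ 𝓝 (a0 : OnePoint ℂ) :=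
      (OnePoint.isOpenEmbedding_coe.isOpenMap _ isOpen_ball).mem_nhds ⟨a0, mem_ball_self hδ, rfl⟩
    obtain ⟨n, hn⟩ := (hom _ h2).exists
    obtain ⟨z0, h3, h4⟩ := hn
    exact ⟨n, z0, h3, h4.symm⟩
  obtain ⟨u, hu, hu2⟩ := hW z0 hz0
  have hxmn : (rat a b)^[m + n] (x : OnePoint ℂ) = ((ψ c u : ℂ) : OnePoint ℂ) := by
    rw [Function.iterate_add_apply, hxn, hu2]
  obtain ⟨H, hH1, hH2, hH3⟩ := hvis g ψ l hS hNB (m + n) c hc u (mem_ball_zero_iff.1 hu) hxmn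
  have hHi : InjOn H (ball 0 t') := by
    intro w hw w' hw' hww
    refine (hS.pu c hc).2 (hbt' hw) (hbt' hw') (OnePoint.coe_injective ?_)
    rw [← hH2 w hw, ← hH2 w' hw', hww]
  obtain ⟨G, hGd⟩ : ∃ G : ℂ → OnePoint ℂ, G = fun w => (rat a b)^[n] ((H w : ℂ) : OnePoint ℂ) := ⟨_, rfl⟩
  have hGm : ∀ w ∈ ball (0 : ℂ) t', (rat a b)^[m] (G w) = ((ψ c w : ℂ) : OnePoint ℂ) := by
    intro w hw
    rw [hGd]
    show (rat a b)^[m] ((rat a b)^[n] ((H w : ℂ) : OnePoint ℂ)) = _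
    rw [← Function.iterate_add_apply]
    exact hH2 w hw
  have hGc : ∀ w ∈ ball (0 : ℂ) t', ContinuousAt G w := by
    intro w hw
    rw [hGd]
    exact ((hf.iterate n).comp OnePoint.continuous_coe).continuousAt.comp
      (hH1.continuousOn.continuousAt (isOpen_ball.mem_nhds hw))
  have hGu : G u = (z0 : OnePoint ℂ) := by
    rw [hGd]
    show (rat a b)^[n] ((H u : ℂ) : OnePoint ℂ) = _
    rw [hH3]
    exact hxn
  have hGo : IsOpen (G '' ball 0 t') := by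
    have e1 : IsOpen (H '' ball 0 t') := uh_open isOpen_ball hH1 hHi isOpen_ball subset_rfl
    have e2 := Pool.Agent.H91.Fatou.open_iterate hfo n _ (OnePoint.isOpenEmbedding_coe.isOpenMap _ e1)
    rw [hGd, show (fun w : ℂ => (rat a b)^[n] ((H w : ℂ) : OnePoint ℂ)) =
      (rat a b)^[n] ∘ (fun z : ℂ => (z : OnePoint ℂ)) ∘ H from rfl, image_comp, image_comp]
    exact e2
  -- the disc is contained in the image of `G`
  have hsub : ball a0 δ ⊆ (fun z : ℂ => (z : OnePoint ℂ)) ⁻¹' (G '' ball 0 t') := by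
    refine (convex_ball a0 δ).isPreconnected.subset_of_closure_inter_subset (hGo.preimage OnePoint.continuous_coe)
      ⟨z0, hz0, u, hbtt hu, hGu⟩ ?_
    rintro z ⟨hzc, hz⟩
    obtain ⟨w, hw, hwz⟩ := hW z hz
    have hne : (𝓝[(fun z : ℂ => (z : OnePoint ℂ)) ⁻¹' (G '' ball 0 t')] z).NeBot := mem_closure_iff_nhdsWithin_neBot.1 hzc
    refine ⟨w, hbtt hw, ?_⟩
    by_contra hne2
    obtain ⟨U1, U2, hU1, hU2, hm1', hm2', hdis⟩ := t2_separation hne2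
    -- near `w` the map `G` is in `U1`
    obtain ⟨V, hVo, hwV, hVG, hVt⟩ : ∃ V : Set ℂ, IsOpen V ∧ w ∈ V ∧ (∀ v ∈ V, G v ∈ U1) ∧ V ⊆ ball 0 t' := by
      have e1 : ∀ᶠ v in 𝓝 w, G v ∈ U1 := (hGc w (hbtt hw)).eventually (hU1.mem_nhds hm1')
      have e2 : ∀ᶠ v in 𝓝 w, v ∈ ball (0 : ℂ) t' := isOpen_ball.mem_nhds (hbtt hw)
      obtain ⟨V, hV1, hV2, hV3⟩ := _root_.eventually_nhds_iff.1 (e1.and e2)
      exact ⟨V, hV2, hV3, fun v hv => (hV1 v hv).1, fun v hv => (hV1 v hv).2⟩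
    have e3 : (fun z : ℂ => (z : OnePoint ℂ)) '' (ψ c '' V) ∈ 𝓝 ((ψ c w : ℂ) : OnePoint ℂ) :=
      un_nhds (hS.pu c hc) one_pos le_rfl hVo (hVt.trans hbt') hwV
    have e4 : ∀ᶠ z' in 𝓝 z, (rat a b)^[m] ((z' : ℂ) : OnePoint ℂ) ∈ (fun z : ℂ => (z : OnePoint ℂ)) '' (ψ c '' V) := by
      refine hcm.continuousAt.eventually ?_
      show _ ∈ 𝓝 ((rat a b)^[m] (z : OnePoint ℂ))
      rw [hwz]
      exact e3
    have e5 : ∀ᶠ z' in 𝓝 z, ((z' : ℂ) : OnePoint ℂ) ∈ U2 :=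
      OnePoint.continuous_coe.continuousAt.eventually (hU2.mem_nhds hm2')
    have e6 : ∀ᶠ z' in 𝓝[(fun z : ℂ => (z : OnePoint ℂ)) ⁻¹' (G '' ball 0 t')] z, ((z' : ℂ) : OnePoint ℂ) ∈ G '' ball 0 t' :=
      self_mem_nhdsWithin
    have e7 : ∀ᶠ z' in 𝓝[(fun z : ℂ => (z : OnePoint ℂ)) ⁻¹' (G '' ball 0 t')] z,
        (rat a b)^[m] ((z' : ℂ) : OnePoint ℂ) ∈ (fun z : ℂ => (z : OnePoint ℂ)) '' (ψ c '' V) ∧ ((z' : ℂ) : OnePoint ℂ) ∈ U2 :=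
      (e4.and e5).filter_mono nhdsWithin_le_nhds
    obtain ⟨z', ⟨h2, h3⟩, h4⟩ := (e7.and e6).exists
    obtain ⟨_, ⟨v, hv, rfl⟩, hv2⟩ := h2
    obtain ⟨v', hv', hv2'⟩ := h4
    have hvv : v' = v := by
      refine (hS.pu c hc).2 (hbt' hv') (hbt' (hVt hv)) (OnePoint.coe_injective ?_)
      rw [← hGm v' hv', hv2', ← hv2]
    subst hvv
    have h5 := hVG _ hv
    rw [hv2'] at h5
    exact Set.disjoint_left.1 hdis h5 h3
  -- `f` is injective near `a0`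
  refine h.crt a0 ha0 ⟨(fun z : ℂ => (z : OnePoint ℂ)) '' ball a0 δ,
    (OnePoint.isOpenEmbedding_coe.isOpenMap _ isOpen_ball).mem_nhds ⟨a0, mem_ball_self hδ, rfl⟩, ?_⟩
  rintro _ ⟨z, hz, rfl⟩ _ ⟨z', hz', rfl⟩ hzz
  obtain ⟨w, hw, hwz⟩ := hsub hz
  obtain ⟨w', hw', hwz'⟩ := hsub hz'
  obtain ⟨m1, rfl⟩ : ∃ m1, m = m1 + 1 := ⟨m - 1, by omega⟩
  have h2 : (rat a b)^[m1 + 1] ((z : ℂ) : OnePoint ℂ) = (rat a b)^[m1 + 1] ((z' : ℂ) : OnePoint ℂ) := by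
    rw [Function.iterate_succ_apply, Function.iterate_succ_apply]
    exact congrArg _ hzz
  have h3 : ((ψ c w : ℂ) : OnePoint ℂ) = ((ψ c w' : ℂ) : OnePoint ℂ) := by
    rw [← hGm w hw, ← hGm w' hw', hwz, hwz']
    exact h2
  have h4 : w = w' := (hS.pu c hc).2 (hbt' hw) (hbt' hw') (OnePoint.coe_injective h3)
  subst h4
  show ((z : ℂ) : OnePoint ℂ) = ((z' : ℂ) : OnePoint ℂ)
  exact hwz.symm.trans hwz'

end Pool.Agent.H56.MN
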