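import Pool.Agent.H56.MN.Defs
import Pool.Agent.H64.MN.Lfc

/-!
# Module Lfu: univalent lift of a univalent disc, or a critical point in the component

PROOF. `D = G (ball 0 1)` in the sphere, `Y = CC f 1 D y` the component of `f⁻¹ (D)` at `y`. Suppose `Y` contains no critical point. `f : Y → D` is a covering (H64/MN/Lfc: closed map with finite fibres, local homeomorphism), `G` lifts to it.
-/

set_option autoImplicit false

open Filter Topology Polynomial Metric Set MeasureTheory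

namespace Pool.Agent.H56.MN

open Pool.Agent.H44.Fatou (rat)
open Pool.Agent.H32.BT (IsCrit)
open Pool.Agent.H44.RC (CC)
open Pool.Agent.H47.MM (Un Me)

theorem lfu {a b : Polynomial ℂ} (hcop : IsCoprime a b) (hd : 1 ≤ max a.natDegree b.natDegree)
    (hfi : rat a b OnePoint.infty = OnePoint.infty) {G : ℂ → ℂ} (hG : Un G) {y : ℂ}
    (hy : rat a b (y : OnePoint ℂ) = (G 0 : OnePoint ℂ)) :
    (∃ G1 : ℂ → ℂ, Un G1 ∧ G1 0 = y ∧ ∀ w ∈ ball (0 : ℂ) 1, rat a b ((G1 w : ℂ) : OnePoint ℂ) = ((G w : ℂ) : OnePoint ℂ)) ∨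
      ∃ c : OnePoint ℂ, IsCrit (rat a b) c ∧
        c ∈ CC (rat a b) 1 ((fun w : ℂ => ((G w : ℂ) : OnePoint ℂ)) '' ball 0 1) (y : OnePoint ℂ) := by
  by_cases hc : ∃ c : OnePoint ℂ, IsCrit (rat a b) c ∧
        c ∈ CC (rat a b) 1 ((fun w : ℂ => ((G w : ℂ) : OnePoint ℂ)) '' ball 0 1) (y : OnePoint ℂ)
  · exact Or.inr hc
  · left
    push Not at hc
    have hV : IsOpen ((fun w : ℂ => ((G w : ℂ) : OnePoint ℂ)) '' ball 0 1) := by
      have h1 : IsOpen (G '' ball 0 1) := Pool.Agent.H43.UB.uh_open isOpen_ball hG.1 hG.2 isOpen_ball subset_rfl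
      have h2 := OnePoint.isOpenEmbedding_coe.isOpenMap _ h1
      rw [image_image] at h2
      exact h2
    obtain ⟨S, h1, h2, h3⟩ := Pool.Agent.H64.MN.lfu hcop hd hfi hV hG (fun w hw => ⟨w, hw, rfl⟩) (mem_ball_self one_pos) hy
      (fun q hq hcr => hc q hcr hq)
    exact ⟨S, h1, h2, fun w hw => (h3 w hw).1⟩

end Pool.Agent.H56.MN
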