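import Pool.Agent.H56.MN.Prp
import Pool.Agent.H47.OI.Exl

/-!
# Module Lim: the limit map has no critical point over the disc of radius `ρ`

PROOF. `W` = the component of `0` in `{w ∈ ball 0 1 | ‖B w‖ < ρ}`, open, connected. `F w = (B w / ρ) ^ l`: `Prp W F`: `W ∩ {‖F‖ ≤ r}` is compact: it is closed in `closedBall 0 R` (a limit point `w` has `‖w‖ ≤ R < 1`, `‖B w‖ < ρ`,
and is in the closure of the component `W` and in the open set, so in `W`). `PF W F φ` from `hPF` (derivatives multiplied by a positive constant; restriction to `W`). `exl` (OI/Exl): the critical points of `F` in `W` are simple and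
there is at most one. `prp_sur`: there is `w0 ∈ W` with `B w0 = 0`; `F' (w0) = 0` (`l ≥ 2`). If `B' (p) = 0`, `p ∈ W`, then `F' (p) = 0`, `p = w0`, but then `F` vanishes at `w0` of order at least `4`, `F'' (w0) = 0`:
contradiction. So `prp_inv` applies.
-/

set_option autoImplicit false

open Filter Topology Polynomial Metric Set MeasureTheory

namespace Pool.Agent.H56.MN

open Pool.Agent.H47.OI (PF Prp exl)

/-- a power is locally constant only if the function is -/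
private theorem pow_nc {B : ℂ → ℂ} {p : ℂ} (hA : AnalyticAt ℂ B p) (hnc : ¬ ∀ᶠ z in 𝓝 p, B z = B p) {l : ℕ} (hl : l ≠ 0) :
    ¬ ∀ᶠ z in 𝓝 p, B z ^ l = B p ^ l := by
  intro hcon
  obtain ⟨P, hP⟩ : ∃ P : Polynomial ℂ, P = X ^ l - C (B p ^ l) := ⟨_, rfl⟩
  have hP0 : P ≠ 0 := by
    rw [hP]
    exact X_pow_sub_C_ne_zero (Nat.pos_of_ne_zero hl) _
  have hfin : {y : ℂ | P.IsRoot y}.Finite := Polynomial.finite_setOfPred_isRoot hP0
  have hroot : ∀ y : ℂ, y ^ l = B p ^ l → P.IsRoot y := by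
    intro y hy
    rw [hP]
    show eval y (X ^ l - C (B p ^ l)) = 0
    rw [eval_sub, eval_pow, eval_X, eval_C, hy, sub_self]
  by_cases h : ∃ y : ℂ, ∀ᶠ z in 𝓝 p, B z = y
  · obtain ⟨y, hy⟩ := h
    apply hnc
    filter_upwards [hy] with z hz
    rw [hz, hy.self_of_nhds]
  · push Not at h
    have h1 : ∀ y ∈ {y : ℂ | P.IsRoot y}, ∀ᶠ z in 𝓝[≠] p, B z ≠ y := by
      intro y _
      rcases hA.eventually_eq_or_eventually_ne (analyticAt_const (v := y)) with h2 | h2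
      · obtain ⟨z, e1, e2⟩ := ((h y).and_eventually h2).exists
        exact absurd e2 e1
      · exact h2
    have h2 : ∀ᶠ z in 𝓝[≠] p, ∀ y ∈ {y : ℂ | P.IsRoot y}, B z ≠ y := (eventually_all_finite hfin).2 h1
    obtain ⟨z, hz1, hz2⟩ := (h2.and (hcon.filter_mono nhdsWithin_le_nhds)).exists
    exact hz1 (B z) (hroot _ hz2) rfl

theorem lim_inv {B φ : ℂ → ℂ} {l : ℕ} (hl : 2 ≤ l) {ρ R : ℝ} (hρ : 0 < ρ) (hρ1 : ρ < 1) (hR : R < 1)
    (hd : DifferentiableOn ℂ B (ball 0 1)) (h1 : ∀ w ∈ ball (0 : ℂ) 1, ‖B w‖ < 1) (h0 : ‖B 0‖ < ρ)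
    (hRad : ∀ w : ℂ, ‖w‖ < 1 → ‖B w‖ ≤ ρ → ‖w‖ ≤ R) (hnc : ∀ p ∈ ball (0 : ℂ) 1, ¬ ∀ᶠ z in 𝓝 p, B z = B p)
    (hφ : DifferentiableOn ℂ φ (ball 0 1)) (hφi : InjOn φ (ball 0 1)) (hPF : PF (ball 0 1) (fun w => B w ^ l) φ) :
    ∃ h : ℂ → ℂ, DifferentiableOn ℂ h (ball 0 ρ) ∧ (∀ z ∈ ball (0 : ℂ) ρ, ‖h z‖ ≤ R ∧ B (h z) = z) ∧ h (B 0) = 0 := by
  obtain ⟨O, hO⟩ : ∃ O : Set ℂ, O = ball 0 1 ∩ B ⁻¹' ball 0 ρ := ⟨_, rfl⟩
  obtain ⟨W, hW⟩ : ∃ W : Set ℂ, W = connectedComponentIn O 0 := ⟨_, rfl⟩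
  have hOo : IsOpen O := by
    rw [hO]
    exact hd.continuousOn.isOpen_inter_preimage isOpen_ball isOpen_ball
  have h0O : (0 : ℂ) ∈ O := by
    rw [hO]
    exact ⟨mem_ball_self one_pos, mem_ball_zero_iff.2 h0⟩
  have hWo : IsOpen W := by
    rw [hW]
    exact hOo.connectedComponentIn
  have hWO : W ⊆ O := by
    rw [hW]
    exact connectedComponentIn_subset _ _
  have hWc : IsPreconnected W := by
    rw [hW]
    exact isPreconnected_connectedComponentIn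
  have h0W : (0 : ℂ) ∈ W := by
    rw [hW]
    exact mem_connectedComponentIn h0O
  have hWb : W ⊆ ball 0 1 := fun w hw => by
    have := hWO hw
    rw [hO] at this
    exact this.1
  have hWρ : ∀ w ∈ W, ‖B w‖ < ρ := fun w hw => by
    have := hWO hw
    rw [hO] at this
    exact mem_ball_zero_iff.1 this.2
  have hWR : ∀ w ∈ W, ‖w‖ ≤ R := fun w hw => hRad w (mem_ball_zero_iff.1 (hWb hw)) (hWρ w hw).le
  have hWcl : ∀ y ∈ closure W, y ∈ O → y ∈ W := by
    intro y hy hyO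
    have h2 : y ∈ connectedComponentIn O y := mem_connectedComponentIn hyO
    obtain ⟨z, hz1, hz2⟩ := mem_closure_iff.1 hy _ hOo.connectedComponentIn h2
    rw [hW] at hz2 ⊢
    rw [connectedComponentIn_eq hz2, ← connectedComponentIn_eq hz1]
    exact h2
  -- compactness
  have hcpt : ∀ (g : ℂ → ℝ) (r : ℝ), ContinuousOn g (ball 0 1) → (∀ w ∈ ball (0 : ℂ) 1, g w ≤ r → ‖B w‖ < ρ) →
      IsCompact (W ∩ {w | g w ≤ r}) := by
    intro g r hg hgr
    apply Metric.isCompact_of_isClosed_isBounded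
    · rw [← closure_subset_iff_isClosed]
      intro y hy
      have hyW : y ∈ closure W := closure_mono inter_subset_left hy
      have hyR : ‖y‖ ≤ R := by
        have h2 : closure W ⊆ closedBall 0 R :=
          closure_minimal (fun w hw => mem_closedBall_zero_iff.2 (hWR w hw)) isClosed_closedBall
        exact mem_closedBall_zero_iff.1 (h2 hyW)
      have hyb : y ∈ ball (0 : ℂ) 1 := mem_ball_zero_iff.2 (hyR.trans_lt hR)
      have hgy : g y ≤ r := by
        have h2 : ContinuousWithinAt g (W ∩ {w | g w ≤ r}) y :=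
          (hg y hyb).mono fun w hw => hWb hw.1
        exact (closure_minimal (t := Iic r) (fun x hx => by
          obtain ⟨w, hw, rfl⟩ := hx
          exact hw.2) isClosed_Iic) (h2.mem_closure_image hy)
      refine ⟨hWcl y hyW ?_, hgy⟩
      rw [hO]
      exact ⟨hyb, mem_ball_zero_iff.2 (hgr y hyb hgy)⟩
    · exact (Metric.isBounded_closedBall (x := (0 : ℂ)) (r := R)).subset
        fun w hw => mem_closedBall_zero_iff.2 (hWR w hw.1)
  have hBn : ContinuousOn (fun w => ‖B w‖) (ball 0 1) := hd.continuousOn.norm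
  have hpr : ∀ r : ℝ, r < ρ → IsCompact (W ∩ {w | ‖B w‖ ≤ r}) := fun r hr =>
    hcpt _ r hBn fun w _ hw => hw.trans_lt hr
  have hdW : DifferentiableOn ℂ B W := hd.mono hWb
  have hncW : ∀ p ∈ W, ¬ ∀ᶠ z in 𝓝 p, B z = B p := fun p hp => hnc p (hWb hp)
  have hl0 : l ≠ 0 := by omega
  -- the normalised power
  obtain ⟨c, hc⟩ : ∃ c : ℂ, c = (1 / (ρ : ℂ)) ^ l := ⟨_, rfl⟩
  have hρc : (ρ : ℂ) ≠ 0 := by exact_mod_cast hρ.ne'
  have hc0 : c ≠ 0 := by
    rw [hc]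
    exact pow_ne_zero _ (one_div_ne_zero hρc)
  obtain ⟨F, hF⟩ : ∃ F : ℂ → ℂ, F = fun w => c * B w ^ l := ⟨_, rfl⟩
  have hFn : ∀ w, ‖F w‖ = (‖B w‖ / ρ) ^ l := by
    intro w
    rw [hF, hc]
    show ‖(1 / (ρ : ℂ)) ^ l * B w ^ l‖ = _
    rw [norm_mul, norm_pow, norm_pow, norm_div, norm_one, Complex.norm_real, Real.norm_of_nonneg hρ.le, ← mul_pow]
    congr 1
    ring
  have hBA : ∀ p ∈ ball (0 : ℂ) 1, AnalyticAt ℂ B p := fun p hp => hd.analyticAt (isOpen_ball.mem_nhds hp)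
  have hFd : DifferentiableOn ℂ F (ball 0 1) := by
    rw [hF]
    exact (hd.pow l).const_mul c
  have hGd : ∀ p ∈ ball (0 : ℂ) 1, HasDerivAt (fun w => B w ^ l) (l * B p ^ (l - 1) * deriv B p) p := fun p hp =>
    ((hBA p hp).differentiableAt.hasDerivAt.pow l)
  have hF' : ∀ p ∈ ball (0 : ℂ) 1, deriv F p = c * deriv (fun w => B w ^ l) p := by
    intro p hp
    rw [hF]
    exact ((hGd p hp).differentiableAt.hasDerivAt.const_mul c).deriv
  have hF'' : ∀ p ∈ ball (0 : ℂ) 1, deriv F p = c * (l * B p ^ (l - 1) * deriv B p) := by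
    intro p hp
    rw [hF' p hp, (hGd p hp).deriv]
  have hFlt : ∀ w ∈ ball (0 : ℂ) 1, ‖F w‖ < 1 → ‖B w‖ < ρ := by
    intro w _ h2
    rw [hFn] at h2
    by_contra h3
    push Not at h3
    have h4 : 1 ≤ ‖B w‖ / ρ := (one_le_div hρ).2 h3
    exact absurd h2 (not_lt.2 (one_le_pow₀ h4))
  have hPrp : Prp W F := by
    refine ⟨hWo, hWc, hFd.mono hWb, ?_, ?_⟩
    · intro w hw
      rw [hFn]
      exact pow_lt_one₀ (by positivity) ((div_lt_one hρ).2 (hWρ w hw)) hl0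
    · intro r hr
      exact hcpt (fun w => ‖F w‖) r hFd.continuousOn.norm fun w hw h2 => hFlt w hw (h2.trans_lt hr)
  have hPFW : PF W F φ := by
    intro a ha b hb hab ha0 hb0
    have h2 : (fun w => B w ^ l) a = (fun w => B w ^ l) b := by
      rw [hF] at hab
      exact mul_left_cancel₀ hc0 hab
    rw [hF' a (hWb ha)] at ha0 ⊢
    rw [hF' b (hWb hb)] at hb0 ⊢
    obtain ⟨t, ht, h3⟩ := hPF a (hWb ha) b (hWb hb) h2 (right_ne_zero_of_mul ha0) (right_ne_zero_of_mul hb0)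
    refine ⟨t, ht, ?_⟩
    linear_combination c ^ 2 * h3
  have hncF : ∀ p ∈ W, ¬ ∀ᶠ z in 𝓝 p, F z = F p := by
    intro p hp hcon
    refine pow_nc (hBA p (hWb hp)) (hncW p hp) hl0 ?_
    filter_upwards [hcon] with z hz
    rw [hF] at hz
    exact mul_left_cancel₀ hc0 hz
  obtain ⟨hsim, huni⟩ := exl hPrp (hφ.mono hWb) (hφi.mono hWb) hPFW hncF
  obtain ⟨w0, hw0, hBw0⟩ := prp_sur hρ hWo hWc h0W hdW hWρ hpr hncW 0 (mem_ball_self hρ)
  have hFw0 : deriv F w0 = 0 := by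
    rw [hF'' w0 (hWb hw0), hBw0, zero_pow (by omega : l - 1 ≠ 0)]
    ring
  have hcr : ∀ p ∈ W, deriv B p ≠ 0 := by
    intro p hp hp0
    have hFp : deriv F p = 0 := by
      rw [hF'' p (hWb hp), hp0]
      ring
    have hpw : p = w0 := huni p hp w0 hw0 hFp hFw0
    subst hpw
    refine hsim p hp hFp ?_
    have h2 : deriv F =ᶠ[𝓝 p] fun w => c * (l * B w ^ (l - 1) * deriv B w) := by
      filter_upwards [isOpen_ball.mem_nhds (hWb hp)] with w hw
      exact hF'' w hw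
    rw [h2.deriv_eq]
    have h3 : HasDerivAt (deriv B) (deriv (deriv B) p) p :=
      (hBA p (hWb hp)).deriv.differentiableAt.hasDerivAt
    have h4 : HasDerivAt (fun w => B w ^ (l - 1)) (((l - 1 : ℕ) : ℂ) * B p ^ (l - 1 - 1) * deriv B p) p :=
      (hBA p (hWb hp)).differentiableAt.hasDerivAt.pow (l - 1)
    have h5 := (((h4.const_mul (l : ℂ)).mul h3).const_mul c).deriv
    have h6 : (fun w => c * (l * B w ^ (l - 1) * deriv B w)) = fun w => c * (((fun w => (l : ℂ) * B w ^ (l - 1)) * deriv B) w) := by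
      funext w
      rfl
    rw [h6, h5, hp0, hBw0, zero_pow (by omega : l - 1 ≠ 0)]
    ring
  obtain ⟨h, hh1, hh2, hh3⟩ := prp_inv hρ hWo hWc h0W hdW hWρ hpr hcr
  exact ⟨h, hh1, fun z hz => ⟨hWR _ (hh2 z hz).1, (hh2 z hz).2⟩, hh3⟩

end Pool.Agent.H56.MN
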