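import Pool.Agent.H56.MN.Defs

/-!
# Module Prt: the inverse branch survives small perturbations

PROOF. `K j = B j ∘ h → id` uniformly on `closedBall 0 t''`, `t' < t'' < ρ` (`h` maps it into the compact `closedBall 0 R`). Let `δ = (t'' - t') / 4`. For large `j`: `‖K j ζ - ζ‖ < δ` on `ball 0 t''`: by Cauchy `‖(K j)' - 1‖ ≤ 1 / 2` on
`ball 0 (t' + 2 δ)`, so `K j` is injective there, and its image contains `ball 0 t'` (contraction, or the argument of the open mapping on the boundary). `hj = h ∘ (K j)⁻¹`. `K j (B 0) = B j (h (B 0)) = B j 0`, so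
`(K j)⁻¹ (B j 0) = B 0` (`‖B 0‖ ≤ t'` as a limit), `hj (B j 0) = h (B 0) = 0`.
-/

set_option autoImplicit false

open Filter Topology Polynomial Metric Set MeasureTheory

namespace Pool.Agent.H56.MN

/-- the inverse of a small perturbation of the identity -/
private theorem prt_inv {K : ℂ → ℂ} {t' ρ η : ℝ} (ht0 : 0 < t') (hη : 0 < η) (hρ : t' + 8 * η = ρ)
    (hK : DifferentiableOn ℂ K (ball 0 ρ)) (hKη : ∀ z ∈ ball (0 : ℂ) ρ, ‖K z - z‖ ≤ η) :
    ∃ g : ℂ → ℂ, DifferentiableOn ℂ g (ball 0 t') ∧ (∀ z ∈ ball (0 : ℂ) t', g z ∈ ball (0 : ℂ) ρ ∧ K (g z) = z) ∧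
      ∀ w ∈ ball (0 : ℂ) t', K w ∈ ball (0 : ℂ) t' → g (K w) = w := by
  have hsub : ball (0 : ℂ) (ρ - 2 * η) ⊆ ball (0 : ℂ) ρ := ball_subset_ball (by linarith)
  have hGd : DifferentiableOn ℂ (fun z => K z - z) (ball 0 ρ) := hK.sub differentiableOn_id
  have hcau : ∀ z ∈ ball (0 : ℂ) (ρ - 2 * η), ‖deriv (fun z => K z - z) z‖ ≤ 1 / 2 := by
    intro z hz
    rw [mem_ball, dist_zero_right] at hz
    have hcl : closedBall z (2 * η) ⊆ ball (0 : ℂ) ρ := by
      intro w hw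
      rw [mem_closedBall] at hw
      rw [mem_ball]
      have h1 := dist_triangle w z 0
      rw [dist_zero_right z] at h1
      linarith
    have h1 := Complex.norm_deriv_le_of_forall_mem_sphere_norm_le (c := z) (R := 2 * η) (C := η)
      (f := fun z => K z - z) (by linarith) (hGd.diffContOnCl_ball hcl)
      (fun w hw => hKη w (hcl (sphere_subset_closedBall hw)))
    have h2 : η / (2 * η) = 1 / 2 := by
      field_simp
    rw [h2] at h1
    exact h1
  have hlip : ∀ z ∈ ball (0 : ℂ) (ρ - 2 * η), ∀ w ∈ ball (0 : ℂ) (ρ - 2 * η),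
      ‖(K z - z) - (K w - w)‖ ≤ 1 / 2 * ‖z - w‖ := by
    intro z hz w hw
    exact Convex.norm_image_sub_le_of_norm_deriv_le (𝕜 := ℂ) (f := fun z => K z - z)
      (s := ball (0 : ℂ) (ρ - 2 * η)) (C := 1 / 2)
      (fun u hu => hGd.differentiableAt (isOpen_ball.mem_nhds (hsub hu))) hcau (convex_ball _ _) hw hz
  have hlow : ∀ z ∈ ball (0 : ℂ) (ρ - 2 * η), ∀ w ∈ ball (0 : ℂ) (ρ - 2 * η),
      ‖z - w‖ ≤ 2 * ‖K z - K w‖ := by
    intro z hz w hw
    have h1 := hlip z hz w hw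
    have h2 : ‖z - w‖ ≤ ‖K z - K w‖ + ‖(K z - z) - (K w - w)‖ := by
      have h3 : z - w = (K z - K w) - ((K z - z) - (K w - w)) := by ring
      calc ‖z - w‖ = ‖(K z - K w) - ((K z - z) - (K w - w))‖ := by rw [← h3]
        _ ≤ ‖K z - K w‖ + ‖(K z - z) - (K w - w)‖ := norm_sub_le _ _
    linarith
  have hex : ∀ z ∈ ball (0 : ℂ) t', ∃ w ∈ closedBall (0 : ℂ) (t' + η), K w = z := by
    intro z hz
    rw [mem_ball, dist_zero_right] at hz
    have hcs : closedBall (0 : ℂ) (t' + η) ⊆ ball (0 : ℂ) (ρ - 2 * η) := closedBall_subset_ball (by linarith)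
    have hmaps : MapsTo (fun w => z - (K w - w)) (closedBall (0 : ℂ) (t' + η)) (closedBall (0 : ℂ) (t' + η)) := by
      intro w hw
      rw [mem_closedBall, dist_zero_right]
      have h1 := hKη w (hsub (hcs hw))
      have h2 := norm_sub_le z (K w - w)
      linarith
    have hcon : ContractingWith (1 / 2) (hmaps.restrict (fun w => z - (K w - w)) _ _) := by
      refine ⟨by
        rw [← NNReal.coe_lt_coe]
        push_cast
        norm_num, LipschitzWith.of_dist_le_mul ?_⟩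
      intro a b
      rw [Subtype.dist_eq, Subtype.dist_eq, MapsTo.val_restrict_apply, MapsTo.val_restrict_apply, dist_eq_norm, dist_eq_norm]
      have h1 : z - (K a.1 - a.1) - (z - (K b.1 - b.1)) = (K b.1 - b.1) - (K a.1 - a.1) := by ring
      rw [h1, norm_sub_rev a.1 b.1]
      have h2 := hlip b.1 (hcs b.2) a.1 (hcs a.2)
      push_cast
      exact h2
    obtain ⟨w, hw, hfix, _⟩ := hcon.exists_fixedPoint' (isClosed_closedBall.isComplete) hmaps (x := 0)
      (mem_closedBall_self (by linarith)) (edist_ne_top _ _)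
    refine ⟨w, hw, ?_⟩
    have h3 : z - (K w - w) = w := hfix
    linear_combination -h3
  choose! g hg1 hg2 using hex
  have hgs : ∀ z ∈ ball (0 : ℂ) t', g z ∈ ball (0 : ℂ) (ρ - 2 * η) := fun z hz =>
    closedBall_subset_ball (by linarith) (hg1 z hz)
  refine ⟨g, ?_, fun z hz => ⟨hsub (hgs z hz), hg2 z hz⟩, ?_⟩
  · intro z hz
    apply DifferentiableAt.differentiableWithinAt
    have hcont : ContinuousAt g z := by
      rw [Metric.continuousAt_iff]
      intro ε hε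
      obtain ⟨r, hr, hrs⟩ := Metric.isOpen_iff.1 isOpen_ball z hz
      refine ⟨min r (ε / 2), lt_min hr (by linarith), ?_⟩
      intro w hw
      obtain ⟨hw1, hw2⟩ := lt_min_iff.1 hw
      have hwt : w ∈ ball (0 : ℂ) t' := hrs hw1
      have h1 := hlow (g w) (hgs w hwt) (g z) (hgs z hz)
      rw [hg2 w hwt, hg2 z hz] at h1
      rw [dist_eq_norm] at hw2 ⊢
      linarith
    have hKd : HasDerivAt K (deriv K (g z)) (g z) :=
      (hK.differentiableAt (isOpen_ball.mem_nhds (hsub (hgs z hz)))).hasDerivAt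
    have hne : deriv K (g z) ≠ 0 := by
      intro h0
      have h1 : HasDerivAt (fun u => K u - u) (deriv K (g z) - 1) (g z) := hKd.sub (hasDerivAt_id' (g z))
      have h2 := hcau (g z) (hgs z hz)
      rw [h1.deriv, h0, zero_sub, norm_neg, norm_one] at h2
      norm_num at h2
    have h3 : HasDerivAt g (deriv K (g z))⁻¹ z := by
      refine HasDerivAt.of_local_left_inverse hcont hKd hne ?_
      filter_upwards [isOpen_ball.mem_nhds hz] with w hw
      exact hg2 w hw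
    exact h3.differentiableAt
  · intro w hw hKw
    have hws : w ∈ ball (0 : ℂ) (ρ - 2 * η) := ball_subset_ball (by linarith) hw
    have h1 := hlow (g (K w)) (hgs _ hKw) w hws
    rw [hg2 _ hKw, sub_self, norm_zero, mul_zero] at h1
    exact sub_eq_zero.1 (norm_eq_zero.1 (le_antisymm h1 (norm_nonneg _)))

theorem prt {B h : ℂ → ℂ} {Bj : ℕ → ℂ → ℂ} {t t' ρ R : ℝ} (ht0 : 0 ≤ t) (htt : t < t') (ht' : t' < ρ) (hR : R < 1)
    (hB : TendstoLocallyUniformlyOn Bj B atTop (ball 0 1)) (hBj : ∀ j, DifferentiableOn ℂ (Bj j) (ball 0 1))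
    (hBt : ∀ j, ‖Bj j 0‖ ≤ t) (hh : DifferentiableOn ℂ h (ball 0 ρ))
    (hh1 : ∀ z ∈ ball (0 : ℂ) ρ, ‖h z‖ ≤ R ∧ B (h z) = z) (hh0 : h (B 0) = 0) :
    ∀ᶠ j in atTop, ∃ hj : ℂ → ℂ, DifferentiableOn ℂ hj (ball 0 t') ∧
      (∀ z ∈ ball (0 : ℂ) t', ‖hj z‖ < 1 ∧ Bj j (hj z) = z) ∧ hj (Bj j 0) = 0 := by
  obtain ⟨η, hη⟩ : ∃ η : ℝ, η = (ρ - t') / 8 := ⟨_, rfl⟩
  have hη0 : 0 < η := by rw [hη]; linarith
  have hρη : t' + 8 * η = ρ := by rw [hη]; ring
  have ht'0 : 0 < t' := by linarith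
  have hcs : closedBall (0 : ℂ) R ⊆ ball (0 : ℂ) 1 := closedBall_subset_ball hR
  have hun := (tendstoLocallyUniformlyOn_iff_forall_isCompact isOpen_ball).1 hB _ hcs (isCompact_closedBall (0 : ℂ) R)
  have hB0 : ‖B 0‖ ≤ t := by
    have h1 : Tendsto (fun j => Bj j 0) atTop (𝓝 (B 0)) := hB.tendsto_at (mem_ball_self one_pos)
    exact le_of_tendsto h1.norm (Eventually.of_forall hBt)
  have hB0b : B 0 ∈ ball (0 : ℂ) t' := by
    rw [mem_ball, dist_zero_right]
    linarith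
  filter_upwards [Metric.tendstoUniformlyOn_iff.1 hun η hη0] with j hj
  have hhm : ∀ z ∈ ball (0 : ℂ) ρ, h z ∈ closedBall (0 : ℂ) R := by
    intro z hz
    rw [mem_closedBall, dist_zero_right]
    exact (hh1 z hz).1
  have hK : DifferentiableOn ℂ (fun z => Bj j (h z)) (ball 0 ρ) :=
    (hBj j).comp hh (fun z hz => hcs (hhm z hz))
  have hKη : ∀ z ∈ ball (0 : ℂ) ρ, ‖Bj j (h z) - z‖ ≤ η := by
    intro z hz
    have h1 := hj (h z) (hhm z hz)
    rw [(hh1 z hz).2, dist_comm, dist_eq_norm] at h1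
    exact h1.le
  obtain ⟨g, hg1, hg2, hg3⟩ := prt_inv ht'0 hη0 hρη hK hKη
  have hKB : Bj j (h (B 0)) = Bj j 0 := by rw [hh0]
  have hBjb : Bj j 0 ∈ ball (0 : ℂ) t' := by
    rw [mem_ball, dist_zero_right]
    have := hBt j
    linarith
  refine ⟨fun z => h (g z), hh.comp hg1 (fun z hz => (hg2 z hz).1), ?_, ?_⟩
  · intro z hz
    exact ⟨lt_of_le_of_lt (hh1 _ (hg2 z hz).1).1 hR, (hg2 z hz).2⟩
  · have h1 := hg3 (B 0) hB0b (by
      show Bj j (h (B 0)) ∈ ball (0 : ℂ) t'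
      rw [hKB]
      exact hBjb)
    show h (g (Bj j 0)) = 0
    have h2 : g (Bj j 0) = B 0 := by
      rw [← hKB]
      exact h1
    rw [h2, hh0]

end Pool.Agent.H56.MN
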