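import Pool.Agent.H56.MN.Rad
import Pool.Agent.H56.MN.Cmp
import Pool.Agent.H56.MN.Lim
import Pool.Agent.H56.MN.Prt
import Pool.Agent.H47.MM.Sml
import Pool.Agent.H47.MM.Ivd
import Pool.Agent.H47.OI.Pfl
import Pool.Agent.H47.OI.Scw

/-!
# Module Ln: THE LAW (bounded number of passes over `x`: no pass over the `t'`-part)

PROOF. Otherwise there are sequences for `ε = 1 / (j + 1)`: `g j`, `l j`, `u j`, `i j`, `B j`, `n j`, `Φ j`; pass to a subsequence with `l`, `i` constant (finitely many values), `u j → u`, `B j → B ∈ BC` (`bc_cmp`). `sml` (`h6`, `x`):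
`deriv (Φ j) 0 → 0` (`chord (g 0) (g z) ≤ ‖g 0 - g z‖` small; `g ((Me u (B w)) ^ l)`, `‖Me u (B w)‖ < 1`). `ivl` with `F j w = (Me (u j) (B j w)) ^ l`: `IV (ball 0 1) (F j) (pb μ (Φ j))`. `scw` with `w j = 0`: a subsequence, `φ`. `F j → F` locally
uniformly (`Me (u j) → Me u`). `pfl`: `PF (ball 0 1) F φ`. `lim_inv` for `Me u ∘ B` (`Rad`, `bc_bas`; `Me u` is injective on the disc), `‖Me u (B 0)‖ = ‖u‖ ≤ t < ρ`. `prt` for `Me (u j) ∘ B j`: contradiction for large `j`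
(`Me (u j) (B j 0) = u j`).
-/

set_option autoImplicit false

open Filter Topology Polynomial Metric Set MeasureTheory

namespace Pool.Agent.H56.MN

open Pool.Agent.H44.Fatou (rat)
open Pool.Agent.H44.RC (JS J6)
open Pool.Agent.H47.OI (AC IV PF pfl scw)
open Pool.Agent.H47.MM (Un Me FI sml ivl pb)
open Pool.Agent.H35.EX (chord)

private theorem chord_le' (x u : ℂ) : chord (x : OnePoint ℂ) (u : OnePoint ℂ) ≤ ‖u - x‖ := by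
  have h3 : chord (x : OnePoint ℂ) (u : OnePoint ℂ) = ‖x - u‖ / (√(1 + ‖x‖ ^ 2) * √(1 + ‖u‖ ^ 2)) := rfl
  rw [h3, norm_sub_rev]
  refine div_le_self (norm_nonneg _) ?_
  have h1 : (1 : ℝ) ≤ √(1 + ‖x‖ ^ 2) := Real.one_le_sqrt.2 (by nlinarith [sq_nonneg ‖x‖])
  have h2 : (1 : ℝ) ≤ √(1 + ‖u‖ ^ 2) := Real.one_le_sqrt.2 (by nlinarith [sq_nonneg ‖u‖])
  nlinarith

private theorem lu_comp {G : ℂ → ℂ → ℂ} {u : ℕ → ℂ} {u0 : ℂ} (hu : Tendsto u atTop (𝓝 u0)) {B : ℕ → ℂ → ℂ} {B0 : ℂ → ℂ}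
    {U : Set ℂ} (hB : TendstoLocallyUniformlyOn B B0 atTop U) (hc : ContinuousOn B0 U)
    (hG : ∀ x ∈ U, ContinuousAt (fun p : ℂ × ℂ => G p.1 p.2) (u0, B0 x)) :
    TendstoLocallyUniformlyOn (fun j w => G (u j) (B j w)) (fun w => G u0 (B0 w)) atTop U := by
  rw [tendstoLocallyUniformlyOn_iff_filter] at hB ⊢
  intro x hx
  have h1 := tendstoUniformlyOnFilter_iff_tendsto.1 (hB x hx)
  rw [tendstoUniformlyOnFilter_iff_tendsto]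
  have h2 : Tendsto (fun q : ℕ × ℂ => B0 q.2) (atTop ×ˢ 𝓝[U] x) (𝓝 (B0 x)) := (hc x hx).tendsto.comp tendsto_snd
  have h3 : Tendsto (fun q : ℕ × ℂ => B q.1 q.2) (atTop ×ˢ 𝓝[U] x) (𝓝 (B0 x)) := h2.congr_uniformity h1
  have h4 : Tendsto (fun q : ℕ × ℂ => u q.1) (atTop ×ˢ 𝓝[U] x) (𝓝 u0) := hu.comp tendsto_fst
  have h5 : Tendsto (fun q : ℕ × ℂ => G (u q.1) (B q.1 q.2)) (atTop ×ˢ 𝓝[U] x) (𝓝 (G u0 (B0 x))) :=
    (hG x hx).tendsto.comp (h4.prodMk_nhds h3)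
  have h6 : Tendsto (fun q : ℕ × ℂ => G u0 (B0 q.2)) (atTop ×ˢ 𝓝[U] x) (𝓝 (G u0 (B0 x))) :=
    (hG x hx).tendsto.comp ((tendsto_const_nhds (x := u0)).prodMk_nhds h2)
  exact (h6.prodMk_nhds h5).mono_right (nhds_le_uniformity _)

private theorem lu_sub {B : ℕ → ℂ → ℂ} {B0 : ℂ → ℂ} {U : Set ℂ} (hB : TendstoLocallyUniformlyOn B B0 atTop U) {s : ℕ → ℕ}
    (hs : Tendsto s atTop atTop) : TendstoLocallyUniformlyOn (fun j => B (s j)) B0 atTop U := by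
  intro v hv x hx
  obtain ⟨T, hT, h⟩ := hB v hv x hx
  exact ⟨T, hT, hs.eventually h⟩

private theorem me_cont {e z : ℂ} (he : ‖e‖ < 1) (hz : ‖z‖ < 1) : ContinuousAt (fun p : ℂ × ℂ => Me p.1 p.2) (e, z) := by
  have h1 : 1 + (starRingEnd ℂ) e * z ≠ 0 := Pool.H81.MM.mob_den he hz
  have h2 : Continuous (fun p : ℂ × ℂ => p.2 + p.1) := continuous_snd.add continuous_fst
  have h3 : Continuous (fun p : ℂ × ℂ => 1 + (starRingEnd ℂ) p.1 * p.2) :=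
    continuous_const.add ((Complex.continuous_conj.comp continuous_fst).mul continuous_snd)
  exact h2.continuousAt.div h3.continuousAt h1

theorem ln {a b : Polynomial ℂ} (hcop : IsCoprime a b) (hd : 1 ≤ max a.natDegree b.natDegree)
    (hfi : rat a b OnePoint.infty = OnePoint.infty) (h6 : J6 (rat a b)) {μ : ℂ → ℂ} (hμ : FI (rat a b) μ) {x : ℂ}
    (hx : (x : OnePoint ℂ) ∈ JS (rat a b)) (h1 : ‖μ x‖ = 1) (hac : AC μ x (μ x)) (L : ℕ) {t t' ρ : ℝ} (ht0 : 0 ≤ t)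
    (htt : t < t') (ht' : t' < ρ) (hρ : ρ < 1) {τ : ℕ → ℝ} (hτ : Rad L t ρ τ) (N : ℕ) : ∃ ε : ℝ, 0 < ε ∧
      ∀ g : ℂ → ℂ, Un g → (∀ w ∈ ball (0 : ℂ) 1, ‖g w - g 0‖ < ε) → ∀ l : ℕ, 2 ≤ l → l ≤ L → ∀ u : ℂ, ‖u‖ ≤ t →
        ∀ i ≤ N, ∀ B : ℂ → ℂ, BC L τ i B → ∀ (n : ℕ) (Φ : ℂ → ℂ), Un Φ → Φ 0 = x →
          (∀ w ∈ ball (0 : ℂ) 1, (rat a b)^[n] ((Φ w : ℂ) : OnePoint ℂ) = ((g (Me u (B w) ^ l) : ℂ) : OnePoint ℂ)) →
          ∃ h : ℂ → ℂ, DifferentiableOn ℂ h (ball 0 t') ∧ (∀ z ∈ ball (0 : ℂ) t', ‖h z‖ < 1 ∧ Me u (B (h z)) = z) ∧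
            h u = 0 := by
  have ht1 : t < 1 := by linarith
  have hρ0 : 0 < ρ := by linarith
  by_contra hcon
  have hseq : ∀ j : ℕ, ∃ g : ℂ → ℂ, Un g ∧ (∀ w ∈ ball (0 : ℂ) 1, ‖g w - g 0‖ < 1 / ((j : ℝ) + 1)) ∧
      ∃ l : ℕ, 2 ≤ l ∧ l ≤ L ∧ ∃ u : ℂ, ‖u‖ ≤ t ∧ ∃ i : ℕ, i ≤ N ∧ ∃ B : ℂ → ℂ, BC L τ i B ∧ ∃ (n : ℕ) (Φ : ℂ → ℂ),
        Un Φ ∧ Φ 0 = x ∧
        (∀ w ∈ ball (0 : ℂ) 1, (rat a b)^[n] ((Φ w : ℂ) : OnePoint ℂ) = ((g (Me u (B w) ^ l) : ℂ) : OnePoint ℂ)) ∧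
        ¬ ∃ h : ℂ → ℂ, DifferentiableOn ℂ h (ball 0 t') ∧ (∀ z ∈ ball (0 : ℂ) t', ‖h z‖ < 1 ∧ Me u (B (h z)) = z) ∧
            h u = 0 := by
    intro j
    by_contra hno
    apply hcon
    refine ⟨1 / ((j : ℝ) + 1), Nat.one_div_pos_of_nat, ?_⟩
    intro g hg hg1 l hl hlL u hu i hi B hB n Φ hΦ hΦ0 hf
    by_contra hh
    exact hno ⟨g, hg, hg1, l, hl, hlL, u, hu, i, hi, B, hB, n, Φ, hΦ, hΦ0, hf, hh⟩
  choose g hg hg1 l hl hlL u hu i hi B hB n Φ hΦ hΦ0 hf hh using hseq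
  -- constant `(l, i)` along a subsequence
  obtain ⟨P, Q, hPQ⟩ : ∃ P Q : ℕ, ∃ᶠ j in atTop, l j = P ∧ i j = Q := by
    by_contra hno
    push Not at hno
    have hev : ∀ᶠ j in atTop, ∀ P ∈ Finset.range (L + 1), ∀ Q ∈ Finset.range (N + 1), ¬ (l j = P ∧ i j = Q) := by
      rw [Finset.eventually_all]
      intro P _
      rw [Finset.eventually_all]
      intro Q _
      filter_upwards [hno P Q] with j hj hjj
      exact hj hjj.1 hjj.2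
    obtain ⟨j, hj⟩ := hev.exists
    exact hj (l j) (Finset.mem_range.2 (by have := hlL j; omega)) (i j)
      (Finset.mem_range.2 (by have := hi j; omega)) ⟨rfl, rfl⟩
  obtain ⟨σ, hσ, hσ1⟩ := Filter.extraction_of_frequently_atTop hPQ
  have hP : 2 ≤ P := (hσ1 0).1 ▸ hl (σ 0)
  -- `u` converges
  obtain ⟨u0, hu0, σ2, hσ2, hσ3⟩ := (isCompact_closedBall (0 : ℂ) t).tendsto_subseq (x := fun j => u (σ j))
    (fun j => mem_closedBall_zero_iff.2 (hu (σ j)))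
  rw [mem_closedBall_zero_iff] at hu0
  -- `B` converges
  obtain ⟨s, B0, hs, hB0, hBt⟩ := bc_cmp hτ.1 Q (B := fun j => B (σ (σ2 j))) (fun j => by
    have h := hB (σ (σ2 j))
    rw [(hσ1 (σ2 j)).2] at h
    exact h)
  obtain ⟨κ, hκ⟩ : ∃ κ : ℕ → ℕ, κ = fun j => σ (σ2 (s j)) := ⟨_, rfl⟩
  have hκm : StrictMono κ := by rw [hκ]; exact hσ.comp (hσ2.comp hs)
  have hκl : ∀ j, l (κ j) = P := fun j => by rw [hκ]; exact (hσ1 _).1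
  have hκi : ∀ j, i (κ j) = Q := fun j => by rw [hκ]; exact (hσ1 _).2
  have hκu : Tendsto (fun j => u (κ j)) atTop (𝓝 u0) := by
    rw [hκ]
    exact hσ3.comp hs.tendsto_atTop
  have hκB : TendstoLocallyUniformlyOn (fun j => B (κ j)) B0 atTop (ball 0 1) := by
    rw [hκ]
    exact hBt
  -- elementary properties
  have hBb : ∀ j, B j 0 = 0 ∧ (∀ w ∈ ball (0 : ℂ) 1, ‖B j w‖ < 1) ∧ DifferentiableOn ℂ (B j) (ball 0 1) := fun j => by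
    obtain ⟨a1, a2, a3, -⟩ := bc_bas hτ.1 (hB j)
    exact ⟨a1, a2, a3⟩
  obtain ⟨b1, b2, b3, b4⟩ := bc_bas hτ.1 hB0
  have hMd : ∀ (e : ℂ) (A : ℂ → ℂ), ‖e‖ < 1 → (∀ w ∈ ball (0 : ℂ) 1, ‖A w‖ < 1) → DifferentiableOn ℂ A (ball 0 1) →
      DifferentiableOn ℂ (fun w => Me e (A w)) (ball 0 1) := by
    intro e A he hA1 hA2 w hw
    have h2 : DifferentiableAt ℂ (Pool.H81.MM.mob e) (A w) :=
      (Pool.H81.MM.mob_hasDerivAt he (hA1 w hw)).differentiableAt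
    exact (h2.comp w (hA2.differentiableAt (isOpen_ball.mem_nhds hw))).differentiableWithinAt
  have hM1 : ∀ (e : ℂ) (A : ℂ → ℂ), ‖e‖ < 1 → (∀ w ∈ ball (0 : ℂ) 1, ‖A w‖ < 1) → ∀ w ∈ ball (0 : ℂ) 1,
      ‖Me e (A w)‖ < 1 := fun e A he hA w hw => Pool.H81.MM.mob_lt he (hA w hw)
  have hM0 : ∀ e : ℂ, Me e 0 = e := fun e => Pool.H81.MM.mob_zero e
  have hu1 : ∀ j, ‖u j‖ < 1 := fun j => (hu j).trans_lt ht1
  have hu01 : ‖u0‖ < 1 := hu0.trans_lt ht1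
  -- the equation with constant `l`
  have hf' : ∀ j, ∀ z ∈ ball (0 : ℂ) 1, (rat a b)^[n (κ j)] ((Φ (κ j) z : ℂ) : OnePoint ℂ) =
      ((g (κ j) (Me (u (κ j)) (B (κ j) z) ^ P) : ℂ) : OnePoint ℂ) := by
    intro j z hz
    have h := hf (κ j) z hz
    rw [hκl j] at h
    exact h
  have hF1 : ∀ j, ∀ z ∈ ball (0 : ℂ) 1, Me (u (κ j)) (B (κ j) z) ^ P ∈ ball (0 : ℂ) 1 := by
    intro j z hz
    rw [mem_ball_zero_iff]
    exact pow_lt1 (by omega) (hM1 _ _ (hu1 _) (hBb _).2.1 z hz)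
  -- the derivatives
  have hder : Tendsto (fun j => deriv (Φ (κ j)) 0) atTop (𝓝 0) := by
    rw [Metric.tendsto_atTop]
    intro ε hε
    obtain ⟨δ, hδ, hδ1⟩ := sml h6 hx (s := 0) one_pos hε
    obtain ⟨M, hM⟩ := exists_nat_one_div_lt hδ
    refine ⟨M, fun j hj => ?_⟩
    rw [dist_zero_right]
    refine hδ1 (Φ (κ j)) (hΦ (κ j)) (n (κ j)) ((g (κ j) 0 : ℂ) : OnePoint ℂ) ?_ 0 (by simp) (hΦ0 (κ j))
    intro z hz
    rw [hf' j z hz]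
    have h2 := hg1 (κ j) _ (hF1 j z hz)
    refine (chord_le' _ _).trans_lt (h2.trans ?_)
    refine lt_of_le_of_lt ?_ hM
    refine one_div_le_one_div_of_le (by positivity) ?_
    have h3 : M ≤ κ j := hj.trans (hκm.id_le j)
    have h4 : (M : ℝ) ≤ (κ j : ℝ) := by exact_mod_cast h3
    linarith
  obtain ⟨s4, φ, c', hs4, hc', hφd, hφi, hφ0, hφc⟩ := scw h1 hac (ψ := fun j => Φ (κ j)) (fun j => (hΦ (κ j)).1)
    (fun j => (hΦ (κ j)).2) (t := 0) one_pos (w := fun _ => 0) (fun _ => by simp) (fun j => hΦ0 (κ j)) hder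
  -- the limit law
  have hlu : TendstoLocallyUniformlyOn (fun j w => Me (u (κ j)) (B (κ j) w)) (fun w => Me u0 (B0 w)) atTop (ball 0 1) :=
    lu_comp (G := Me) hκu hκB b3.continuousOn (fun z hz => me_cont hu01 (b2 z hz))
  have hluP : TendstoLocallyUniformlyOn (fun j w => Me (u (κ j)) (B (κ j) w) ^ P) (fun w => Me u0 (B0 w) ^ P) atTop
      (ball 0 1) :=
    lu_comp (G := fun e w => Me e w ^ P) hκu hκB b3.continuousOn (fun z hz => (me_cont hu01 (b2 z hz)).pow P)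
  have hPF : PF (ball 0 1) (fun w => Me u0 (B0 w) ^ P) φ := by
    refine pfl (F := fun j w => Me (u (κ (s4 j))) (B (κ (s4 j)) w) ^ P) (ν := fun j => pb μ (Φ (κ (s4 j)))) hc'
      (fun j => (hMd _ _ (hu1 _) (hBb _).2.1 (hBb _).2.2).pow P) (lu_sub hluP hs4.tendsto_atTop) hφd hφ0 hφc ?_
    intro j
    exact ivl hcop hd hfi hμ (hΦ (κ (s4 j))) (hg (κ (s4 j))) ((hMd _ _ (hu1 _) (hBb _).2.1 (hBb _).2.2).pow P)
      (hF1 (s4 j)) (hf' (s4 j))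
  obtain ⟨R, hR, hRR⟩ := hτ.2 Q
  obtain ⟨h, hh1, hh2, hh3⟩ := lim_inv (B := fun w => Me u0 (B0 w)) hP hρ0 hρ hR (hMd u0 B0 hu01 b2 b3)
    (hM1 u0 B0 hu01 b2) (by
      show ‖Me u0 (B0 0)‖ < ρ
      rw [b1, hM0]
      linarith) (fun w hw hw2 => hRR B0 hB0 u0 hu0 w hw hw2) (by
      intro p hp hc
      refine b4 p hp ?_
      filter_upwards [hc, isOpen_ball.mem_nhds hp] with z hz hz1
      exact me_inj' hu01 (b2 z hz1) (b2 p hp) hz) hφd hφi hPF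
  have hfin := prt (Bj := fun j w => Me (u (κ j)) (B (κ j) w)) ht0 htt ht' hR hlu
    (fun j => hMd _ _ (hu1 _) (hBb _).2.1 (hBb _).2.2) (fun j => by
      show ‖Me (u (κ j)) (B (κ j) 0)‖ ≤ t
      rw [(hBb (κ j)).1, hM0]
      exact hu (κ j)) hh1 hh2 hh3
  obtain ⟨j, hj, hj1, hj2, hj3⟩ := hfin.exists
  refine hh (κ j) ⟨hj, hj1, hj2, ?_⟩
  have e1 : Me (u (κ j)) (B (κ j) 0) = u (κ j) := by rw [(hBb (κ j)).1, hM0]
  rw [← e1]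
  exact hj3

end Pool.Agent.H56.MN
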