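import Pool.Agent.H56.MN.Chn
import Pool.Agent.H39.HO.PB

/-!
# Module Nbu: more than `N` critical times give a small critical pull back at a time with at most `N` critical times above it

PROOF. `kap` decreases by at most `1` from `j` to `j + 1`, `kap 0 > N`, `kap n = 0 < N`: let `j` be the largest with `kap j ≥ N`: `kap j = N`, `j` is a critical time: a critical point `b'` in `Y = CC f (n - j) V (f^[j] x)`; `b' ∈ C` (`off`, as in Chn). `CC f (n - j - i) V (f^[i] b') = CC f (n - j - i) V (f^[i + j] x)`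
for `i ≤ n - j` (`cc_map`, `cc_eq`), so `CE f V b' (n - j)` has `kap j = N` elements (shift by `j`). `NB`: `i < n - j`, `q ∈ C` in `Y' = CC f (n - j - i) V (f^[j + i] x)`, `f Y' ⊆ g q (ball 0 k)`. `Y' ⊆ ψ q (ball 0 t)`: the set `{z ∈ Y' | z ∈ ψ q (ball 0 t)}` contains `q`, is open in `Y'`, and closed in `Y'`: if `z j = ψ q (w j) → z`,
`‖w j‖ < t`, then (subsequence) `w j → w`, `‖w‖ ≤ t < 1`, `z = ψ q w`, `g q (w ^ l q) = f z = g q w'`, `‖w'‖ < k ≤ t ^ l`, so `w ^ l = w'`, `‖w‖ < t`. `Y'` is preconnected. `kap (j + i) ≤ kap j = N`.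
-/

set_option autoImplicit false

open Filter Topology Polynomial Metric Set MeasureTheory

namespace Pool.Agent.H56.MN

open Pool.Agent.H44.Fatou (rat rat_continuous)
open Pool.Agent.H32.BT (IsCrit)
open Pool.Agent.H44.RC (CC cc_pre cc_mem cc_sub cc_eq cc_map)
open Pool.Agent.H3.UP (CE ce_fin)
open Pool.Agent.H47.MM (Un Me Hyp Sys)

private theorem kapb_anti (f : OnePoint ℂ → OnePoint ℂ) (V : Set (OnePoint ℂ)) (x : OnePoint ℂ) (n : ℕ) {i j : ℕ}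
    (hij : i ≤ j) : kap f V x n j ≤ kap f V x n i := by
  unfold kap
  refine ncard_le_ncard (fun k hk => ⟨hk.1, hij.trans hk.2⟩) ((ce_fin V x n).subset fun k hk => hk.1)

private theorem kapb_le (f : OnePoint ℂ → OnePoint ℂ) (V : Set (OnePoint ℂ)) (x : OnePoint ℂ) (n j : ℕ) :
    kap f V x n j ≤ kap f V x n (j + 1) + 1 := by
  unfold kap
  refine (ncard_le_ncard (t := insert j {k ∈ CE f V x n | j + 1 ≤ k}) ?_ ?_).trans (ncard_insert_le _ _)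
  · rintro k ⟨hk1, hk2⟩
    rcases hk2.eq_or_lt with h | h
    · exact Or.inl h.symm
    · exact Or.inr ⟨hk1, h⟩
  · exact ((ce_fin V x n).subset fun k hk => hk.1).insert _

private theorem kapb_not (f : OnePoint ℂ → OnePoint ℂ) (V : Set (OnePoint ℂ)) (x : OnePoint ℂ) (n j : ℕ)
    (hj : j ∉ CE f V x n) : kap f V x n j = kap f V x n (j + 1) := by
  unfold kap
  congr 1
  ext k
  constructor
  · rintro ⟨hk1, hk2⟩
    rcases hk2.eq_or_lt with h | h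
    · rw [← h] at hk1
      exact absurd hk1 hj
    · exact ⟨hk1, h⟩
  · rintro ⟨hk1, hk2⟩
    exact ⟨hk1, (Nat.le_succ j).trans hk2⟩

private theorem kapb_n (f : OnePoint ℂ → OnePoint ℂ) (V : Set (OnePoint ℂ)) (x : OnePoint ℂ) (n : ℕ) :
    kap f V x n n = 0 := by
  unfold kap
  have h1 : {k ∈ CE f V x n | n ≤ k} = ∅ := by
    ext k
    simp only [mem_ofPred_eq, mem_empty_iff_false, iff_false, not_and, not_le]
    exact fun hk => hk.1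
  rw [h1, ncard_empty]

/-- the last time with at least `N` critical times from it on -/
private theorem kapb_last (f : OnePoint ℂ → OnePoint ℂ) (V : Set (OnePoint ℂ)) (x : OnePoint ℂ) (n N : ℕ) (hN : 1 ≤ N)
    (h : N < kap f V x n 0) : ∃ j < n, j ∈ CE f V x n ∧ kap f V x n j = N := by
  classical
  have hex : ∃ j, ¬ N ≤ kap f V x n j := ⟨n, by rw [kapb_n]; omega⟩
  obtain ⟨j0, hj0⟩ : ∃ j0, j0 = Nat.find hex := ⟨_, rfl⟩
  have h1 : ¬ N ≤ kap f V x n j0 := hj0 ▸ Nat.find_spec hex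
  have h2 : j0 ≤ n := hj0 ▸ Nat.find_min' hex (by rw [kapb_n]; omega)
  obtain ⟨j, rfl⟩ : ∃ j, j0 = j + 1 := by
    cases j0 with
    | zero => exact absurd h.le h1
    | succ j => exact ⟨j, rfl⟩
  have h3 : N ≤ kap f V x n j := by
    by_contra hc
    have h4 : Nat.find hex ≤ j := Nat.find_min' hex hc
    omega
  have h5 := kapb_le f V x n j
  have h6 : kap f V x n j = N := by omega
  refine ⟨j, by omega, ?_, h6⟩
  by_contra hc
  have h7 := kapb_not f V x n j hc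
  omega

/-- the pull backs along `b'` in a pull back along `x` -/
private theorem cc_shift {f : OnePoint ℂ → OnePoint ℂ} (hf : Continuous f) {V : Set (OnePoint ℂ)} {x b' : OnePoint ℂ}
    {n j i : ℕ} (hj : j ≤ n) (hi : i ≤ n - j) (hb : b' ∈ CC f (n - j) V (f^[j] x)) :
    CC f (n - j - i) V (f^[i] b') = CC f (n - (j + i)) V (f^[j + i] x) := by
  have h1 := cc_map hf hi hb
  have h2 := cc_eq h1
  rw [h2, ← Function.iterate_add_apply, Nat.sub_sub, Nat.add_comm i j]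

/-- the general form: any target `V` -/
theorem nbu_gen {a b : Polynomial ℂ} {C : Set ℂ} (hcop : IsCoprime a b) {L : ℕ} {ε : ℝ} {g ψ : ℂ → ℂ → ℂ}
    {l : ℂ → ℕ} (hS : Sys a b C L ε g ψ l) {N : ℕ} {k t : ℝ} (hN : 1 ≤ N) (hk : k < 1) (ht0 : 0 < t) (ht : t < 1)
    (hkt : ∀ m : ℕ, m ≤ L → m ≠ 0 → k ≤ t ^ m) {V : Set (OnePoint ℂ)}
    (hof : ∀ c' : OnePoint ℂ, IsCrit (rat a b) c' → ∀ m : ℕ, (rat a b)^[m] c' ∈ V → ∃ c ∈ C, c' = ((c : ℂ) : OnePoint ℂ))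
    (hNB : ∀ b' ∈ C, ∀ n : ℕ, (rat a b)^[n] ((b' : ℂ) : OnePoint ℂ) ∈ V →
      N ≤ (CE (rat a b) V ((b' : ℂ) : OnePoint ℂ) n).ncard → ∃ j < n, ∃ q ∈ C,
        ((q : ℂ) : OnePoint ℂ) ∈ CC (rat a b) (n - j) V ((rat a b)^[j] ((b' : ℂ) : OnePoint ℂ)) ∧
        ∀ z ∈ CC (rat a b) (n - j) V ((rat a b)^[j] ((b' : ℂ) : OnePoint ℂ)),
          ∃ w : ℂ, ‖w‖ < k ∧ rat a b z = ((g q w : ℂ) : OnePoint ℂ))
    (n : ℕ) (X : OnePoint ℂ) (hkap : N < kap (rat a b) V X n 0) :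
      ∃ i < n, kap (rat a b) V X n i ≤ N ∧ ∃ q ∈ C,
        ∀ z ∈ CC (rat a b) (n - i) V ((rat a b)^[i] X), ∃ w : ℂ, ‖w‖ < t ∧ z = ((ψ q w : ℂ) : OnePoint ℂ) := by
  have hf : Continuous (rat a b) := rat_continuous hcop
  obtain ⟨j, hjn, ⟨-, c', hc'crit, hc'⟩, hjN⟩ := kapb_last (rat a b) V X n N hN hkap
  -- the critical point is in `C`
  have hc'V : (rat a b)^[n - j] c' ∈ V := cc_sub hc'
  obtain ⟨c0, hc0, rfl⟩ := hof c' hc'crit (n - j) hc'V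
  -- the critical times of the pull backs along `c0`
  have hcard : N ≤ (CE (rat a b) V ((c0 : ℂ) : OnePoint ℂ) (n - j)).ncard := by
    rw [← hjN]
    unfold kap
    refine (ncard_le_ncard (t := (fun i => j + i) '' CE (rat a b) V ((c0 : ℂ) : OnePoint ℂ) (n - j)) ?_
      ((ce_fin V _ _).image _)).trans (ncard_image_le (ce_fin V _ _))
    rintro m ⟨⟨hm1, c1, hc1, hc1'⟩, hm2⟩
    obtain ⟨i, rfl⟩ := Nat.exists_eq_add_of_le hm2
    refine ⟨i, ⟨by omega, c1, hc1, ?_⟩, rfl⟩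
    rw [cc_shift hf hjn.le (by omega) hc']
    exact hc1'
  obtain ⟨i, hi, q, hq, hqY, hY⟩ := hNB c0 hc0 (n - j) hc'V hcard
  rw [cc_shift hf hjn.le hi.le hc'] at hqY hY
  refine ⟨j + i, by omega, (kapb_anti _ _ _ _ (Nat.le_add_right j i)).trans hjN.le, q, hq, ?_⟩
  -- the inclusion
  have hun : Un (ψ q) := hS.pu q hq
  have hl2 := hS.l2 q hq
  have hlL := hS.lL q hq
  have hbt : ball (0 : ℂ) t ⊆ ball 0 1 := ball_subset_ball ht.le
  have hcbt : closedBall (0 : ℂ) t ⊆ ball 0 1 := closedBall_subset_ball ht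
  have hO1 : IsOpen ((fun z : ℂ => (z : OnePoint ℂ)) '' (ψ q '' ball 0 t)) := by
    refine OnePoint.isOpenEmbedding_coe.isOpenMap _ ?_
    exact Pool.Agent.H39.HO.inj_open isOpen_ball hun.1 hun.2 hbt isOpen_ball
  have hF1 : IsClosed ((fun z : ℂ => (z : OnePoint ℂ)) '' (ψ q '' closedBall 0 t)) := by
    have h1 : IsCompact (ψ q '' closedBall 0 t) :=
      (isCompact_closedBall (0 : ℂ) t).image_of_continuousOn (hun.1.continuousOn.mono hcbt)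
    exact (h1.image OnePoint.continuous_coe).isClosed
  have key : ∀ z ∈ CC (rat a b) (n - (j + i)) V ((rat a b)^[j + i] X),
      z ∈ (fun z : ℂ => (z : OnePoint ℂ)) '' (ψ q '' closedBall 0 t) →
      z ∈ (fun z : ℂ => (z : OnePoint ℂ)) '' (ψ q '' ball 0 t) := by
    rintro z hz ⟨_, ⟨w, hw, rfl⟩, rfl⟩
    obtain ⟨u, hu, hfu⟩ := hY _ hz
    have h1 := hS.fp q hq w (hcbt hw)
    have h2 : g q (w ^ l q) = g q u := by
      have h3 : rat a b ((ψ q w : ℂ) : OnePoint ℂ) = ((g q u : ℂ) : OnePoint ℂ) := hfu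
      rw [h1] at h3
      exact OnePoint.coe_injective h3
    have hw1 : ‖w‖ < 1 := mem_ball_zero_iff.1 (hcbt hw)
    have hwl : w ^ l q ∈ ball (0 : ℂ) 1 := by
      rw [mem_ball_zero_iff, norm_pow]
      exact pow_lt_one₀ (norm_nonneg _) hw1 (by omega)
    have hu1 : u ∈ ball (0 : ℂ) 1 := mem_ball_zero_iff.2 (hu.trans hk)
    have h4 : w ^ l q = u := (hS.gu q hq).2 hwl hu1 h2
    have h5 : ‖w‖ ^ l q < t ^ l q := by
      rw [← norm_pow, h4]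
      exact hu.trans_le (hkt (l q) hlL (by omega))
    have h6 : ‖w‖ < t := lt_of_pow_lt_pow_left₀ _ ht0.le h5
    exact ⟨_, ⟨w, mem_ball_zero_iff.2 h6, rfl⟩, rfl⟩
  have hsub : CC (rat a b) (n - (j + i)) V ((rat a b)^[j + i] X) ⊆
      (fun z : ℂ => (z : OnePoint ℂ)) '' (ψ q '' ball 0 t) := by
    by_contra hcon
    rw [not_subset] at hcon
    obtain ⟨z, hz, hz'⟩ := hcon
    have h1 : CC (rat a b) (n - (j + i)) V ((rat a b)^[j + i] X) ⊆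
        ((fun z : ℂ => (z : OnePoint ℂ)) '' (ψ q '' ball 0 t)) ∪
          ((fun z : ℂ => (z : OnePoint ℂ)) '' (ψ q '' closedBall 0 t))ᶜ := by
      intro y hy
      by_cases hy' : y ∈ (fun z : ℂ => (z : OnePoint ℂ)) '' (ψ q '' closedBall 0 t)
      · exact Or.inl (key y hy hy')
      · exact Or.inr hy'
    have h2 : (CC (rat a b) (n - (j + i)) V ((rat a b)^[j + i] X) ∩
        ((fun z : ℂ => (z : OnePoint ℂ)) '' (ψ q '' ball 0 t))).Nonempty := by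
      refine ⟨_, hqY, _, ⟨0, mem_ball_self ht0, rfl⟩, ?_⟩
      rw [hS.p0 q hq]
    obtain ⟨y, -, hy1, hy2⟩ := (cc_pre (n - (j + i)) V ((rat a b)^[j + i] X)) _ _ hO1 hF1.isOpen_compl h1 h2
      ⟨z, hz, fun hz2 => hz' (key z hz hz2)⟩
    refine hy2 ?_
    obtain ⟨_, ⟨w, hw, rfl⟩, rfl⟩ := hy1
    exact ⟨_, ⟨w, ball_subset_closedBall hw, rfl⟩, rfl⟩
  intro z hz
  obtain ⟨_, ⟨w, hw, rfl⟩, rfl⟩ := hsub hz
  exact ⟨w, mem_ball_zero_iff.1 hw, rfl⟩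

/-- more than `N` critical times of the pull backs of a univalent disc -/
theorem nbuT {a b : Polynomial ℂ} {C : Set ℂ} (h : Hyp a b C) {L : ℕ} {ε : ℝ} {g ψ : ℂ → ℂ → ℂ}
    {l : ℂ → ℕ} (hS : Sys a b C L ε g ψ l) {N : ℕ} {k t : ℝ} (hN : 1 ≤ N) (hk : k < 1) (ht0 : 0 < t) (ht : t < 1)
    (hkt : ∀ m : ℕ, m ≤ L → m ≠ 0 → k ≤ t ^ m) {T : ℂ → ℂ}
    (hof : ∀ c' : OnePoint ℂ, IsCrit (rat a b) c' → ∀ m : ℕ,
      (rat a b)^[m] c' ∈ (fun w : ℂ => ((T w : ℂ) : OnePoint ℂ)) '' ball 0 1 → ∃ c ∈ C, c' = ((c : ℂ) : OnePoint ℂ))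
    (hNB : ∀ b' ∈ C, ∀ n : ℕ, (rat a b)^[n] ((b' : ℂ) : OnePoint ℂ) ∈ (fun w : ℂ => ((T w : ℂ) : OnePoint ℂ)) '' ball 0 1 →
      N ≤ (CE (rat a b) ((fun w : ℂ => ((T w : ℂ) : OnePoint ℂ)) '' ball 0 1) ((b' : ℂ) : OnePoint ℂ) n).ncard →
      ∃ j < n, ∃ q ∈ C,
        ((q : ℂ) : OnePoint ℂ) ∈ CC (rat a b) (n - j) ((fun w : ℂ => ((T w : ℂ) : OnePoint ℂ)) '' ball 0 1)
          ((rat a b)^[j] ((b' : ℂ) : OnePoint ℂ)) ∧
        ∀ z ∈ CC (rat a b) (n - j) ((fun w : ℂ => ((T w : ℂ) : OnePoint ℂ)) '' ball 0 1)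
          ((rat a b)^[j] ((b' : ℂ) : OnePoint ℂ)),
          ∃ w : ℂ, ‖w‖ < k ∧ rat a b z = ((g q w : ℂ) : OnePoint ℂ)) (n : ℕ) (x : OnePoint ℂ)
    (hkap : N < kap (rat a b) ((fun w : ℂ => ((T w : ℂ) : OnePoint ℂ)) '' ball 0 1) x n 0) :
      ∃ i < n, kap (rat a b) ((fun w : ℂ => ((T w : ℂ) : OnePoint ℂ)) '' ball 0 1) x n i ≤ N ∧ ∃ q ∈ C,
        ∀ z ∈ CC (rat a b) (n - i) ((fun w : ℂ => ((T w : ℂ) : OnePoint ℂ)) '' ball 0 1) ((rat a b)^[i] x),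
          ∃ w : ℂ, ‖w‖ < t ∧ z = ((ψ q w : ℂ) : OnePoint ℂ) :=
  nbu_gen h.cop hS hN hk ht0 ht hkt hof hNB n x hkap

theorem nbu {a b : Polynomial ℂ} {C : Set ℂ} (h : Hyp a b C) : ∃ ε1 : ℝ, 0 < ε1 ∧ ∀ (L : ℕ) (ε : ℝ) (g ψ : ℂ → ℂ → ℂ)
    (l : ℂ → ℕ), Sys a b C L ε g ψ l → ε ≤ ε1 → ∀ (N : ℕ) (k t : ℝ), 1 ≤ N → k < 1 → 0 < t → t < 1 →
      (∀ m : ℕ, m ≤ L → m ≠ 0 → k ≤ t ^ m) → NB a b C g ψ N k → ∀ c ∈ C, ∀ (n : ℕ) (x : ℂ),
      (rat a b)^[n] ((x : ℂ) : OnePoint ℂ) ∈ Vd ψ c → N < kap (rat a b) (Vd ψ c) ((x : ℂ) : OnePoint ℂ) n 0 →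
      ∃ i < n, kap (rat a b) (Vd ψ c) ((x : ℂ) : OnePoint ℂ) n i ≤ N ∧ ∃ q ∈ C,
        ∀ z ∈ CC (rat a b) (n - i) (Vd ψ c) ((rat a b)^[i] ((x : ℂ) : OnePoint ℂ)),
          ∃ w : ℂ, ‖w‖ < t ∧ z = ((ψ q w : ℂ) : OnePoint ℂ) := by
  obtain ⟨ρ, hρ, hoff⟩ := h.off
  refine ⟨ρ, hρ, ?_⟩
  intro L ε g ψ l hS hε N k t hN hk ht0 ht hkt hNB c hc n x _ hkap
  refine nbu_gen h.cop hS hN hk ht0 ht hkt ?_ (hNB c hc) n _ hkap
  intro c' hc' m hm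
  by_contra hcon
  push Not at hcon
  obtain ⟨w, hw, hw'⟩ := hm
  have h1 := hoff c' hc' hcon m c hc (ψ c w) hw'.symm
  have h2 := hS.ps c hc w hw
  linarith

end Pool.Agent.H56.MN
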