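import Pool.Agent.H56.MN.Defs
import Mathlib.Topology.Maps.Proper.CompactlyGenerated

/-!
# Module Prp: proper holomorphic maps onto a disc

PROOF of `prp_sur`. `B '' W` is open (open mapping, `B` is not locally constant) and closed in `ball 0 ρ` (properness), nonempty.
PROOF of `prp_inv`. `B : W → ball 0 ρ` is a local homeomorphism and proper, so a covering map of the contractible disc: there is a global section through `p`
(`IsCoveringMapOn.existsUnique_continuousMap_lifts`); the section is holomorphic (local inverses).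
-/

set_option autoImplicit false

open Filter Topology Polynomial Metric Set MeasureTheory

namespace Pool.Agent.H56.MN

theorem prp_sur {B : ℂ → ℂ} {W : Set ℂ} {ρ : ℝ} {p : ℂ} (hρ : 0 < ρ) (ho : IsOpen W) (hc : IsPreconnected W) (hp : p ∈ W)
    (hd : DifferentiableOn ℂ B W) (h1 : ∀ w ∈ W, ‖B w‖ < ρ) (hpr : ∀ r : ℝ, r < ρ → IsCompact (W ∩ {w | ‖B w‖ ≤ r}))
    (hnc : ∀ q ∈ W, ¬ ∀ᶠ z in 𝓝 q, B z = B q) : ∀ z ∈ ball (0 : ℂ) ρ, ∃ w ∈ W, B w = z := by
  have hop : IsOpen (B '' W) := by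
    rw [isOpen_iff_mem_nhds]
    rintro _ ⟨q, hq, rfl⟩
    have h2 : AnalyticAt ℂ B q := hd.analyticAt (ho.mem_nhds hq)
    rcases h2.eventually_constant_or_nhds_le_map_nhds with h3 | h3
    · exact absurd h3 (hnc q hq)
    · exact h3 (image_mem_map (ho.mem_nhds hq))
  have hcl : ∀ z ∈ ball (0 : ℂ) ρ, z ∈ closure (B '' W) → z ∈ B '' W := by
    intro z hz hzc
    rw [mem_ball_zero_iff] at hz
    obtain ⟨r, hr1, hr2⟩ := exists_between hz
    have hK : IsCompact (B '' (W ∩ {w | ‖B w‖ ≤ r})) := (hpr r hr2).image_of_continuousOn (hd.continuousOn.mono inter_subset_left)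
    have h2 : z ∈ closure (B '' (W ∩ {w | ‖B w‖ ≤ r})) := by
      rw [_root_.mem_closure_iff] at hzc ⊢
      intro o ho1 hzo
      obtain ⟨x, hx1, hx2⟩ := hzc (o ∩ {x | ‖x‖ < r}) (ho1.inter (isOpen_lt continuous_norm continuous_const)) ⟨hzo, hr1⟩
      obtain ⟨w, hw, rfl⟩ := hx2
      have h3 : ‖B w‖ < r := hx1.2
      exact ⟨B w, hx1.1, ⟨w, ⟨hw, h3.le⟩, rfl⟩⟩
    rw [hK.isClosed.closure_eq] at h2
    exact image_mono inter_subset_left h2
  have hball : IsPreconnected (ball (0 : ℂ) ρ) := (convex_ball 0 ρ).isPreconnected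
  have hsub : ball (0 : ℂ) ρ ⊆ B '' W := by
    refine hball.subset_of_closure_inter_subset hop ⟨B p, ?_, mem_image_of_mem B hp⟩ ?_
    · exact mem_ball_zero_iff.2 (h1 p hp)
    · rintro z ⟨hz1, hz2⟩
      exact hcl z hz2 hz1
  intro z hz
  obtain ⟨w, hw, h2⟩ := hsub hz
  exact ⟨w, hw, h2⟩

theorem prp_inv {B : ℂ → ℂ} {W : Set ℂ} {ρ : ℝ} {p : ℂ} (hρ : 0 < ρ) (ho : IsOpen W) (hc : IsPreconnected W) (hp : p ∈ W)
    (hd : DifferentiableOn ℂ B W) (h1 : ∀ w ∈ W, ‖B w‖ < ρ) (hpr : ∀ r : ℝ, r < ρ → IsCompact (W ∩ {w | ‖B w‖ ≤ r}))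
    (hcr : ∀ w ∈ W, deriv B w ≠ 0) : ∃ h : ℂ → ℂ, DifferentiableOn ℂ h (ball 0 ρ) ∧
      (∀ z ∈ ball (0 : ℂ) ρ, h z ∈ W ∧ B (h z) = z) ∧ h (B p) = p := by
  classical
  have hBc : Continuous fun w : W => B w := continuousOn_iff_continuous_domRestrict.1 hd.continuousOn
  let β : W → ball (0 : ℂ) ρ := fun w => ⟨B w, mem_ball_zero_iff.2 (h1 w w.2)⟩
  have hβc : Continuous β := hBc.subtype_mk _
  have hprop : IsProperMap β := by
    rw [isProperMap_iff_isCompact_preimage]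
    refine ⟨hβc, fun K hK => ?_⟩
    -- the norm is bounded by `r < ρ` on `K`
    obtain ⟨r, hr, hKr⟩ : ∃ r < ρ, ∀ x ∈ K, ‖(x : ℂ)‖ ≤ r := by
      rcases K.eq_empty_or_nonempty with rfl | hne
      · exact ⟨0, hρ, by simp⟩
      · obtain ⟨x, hx, hmax⟩ := hK.exists_isMaxOn hne (continuous_norm.comp continuous_subtype_val).continuousOn
        exact ⟨‖(x : ℂ)‖, mem_ball_zero_iff.1 x.2, fun y hy => hmax hy⟩
    have h2 : IsCompact ((↑) ⁻¹' (W ∩ {w | ‖B w‖ ≤ r}) : Set W) := by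
      rw [Subtype.isCompact_iff]
      have h3 : ((↑) : W → ℂ) '' ((↑) ⁻¹' (W ∩ {w | ‖B w‖ ≤ r})) = W ∩ {w | ‖B w‖ ≤ r} := by
        rw [Subtype.image_preimage_coe]
        rw [← inter_assoc, inter_self]
      rw [h3]
      exact hpr r hr
    refine h2.of_isClosed_subset (hK.isClosed.preimage hβc) ?_
    intro w hw
    exact ⟨w.2, hKr _ hw⟩
  have hloc : IsLocalHomeomorph β := by
    rw [isLocalHomeomorph_iff_isOpenEmbedding_restrict]
    intro w
    have hw : (w : ℂ) ∈ W := w.2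
    have hst : HasStrictDerivAt B (deriv B w) w := (hd.analyticAt (ho.mem_nhds hw)).hasStrictDerivAt
    -- an injective neighbourhood
    obtain ⟨U, hU, hUi⟩ : ∃ U ∈ 𝓝 (w : ℂ), InjOn B U := by
      have h3 := hst.hasStrictFDerivAt_equiv (hcr w hw)
      refine ⟨(h3.toOpenPartialHomeomorph B).source, (h3.toOpenPartialHomeomorph B).open_source.mem_nhds
        h3.mem_toOpenPartialHomeomorph_source, ?_⟩
      intro x hx y hy hxy
      exact (h3.toOpenPartialHomeomorph B).injOn hx hy hxy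
    obtain ⟨U', hU'U, hU'o, hu'⟩ := _root_.mem_nhds_iff.1 hU
    have hopn : IsOpenMap β := by
      rw [IsOpenMap]
      intro s hs
      rw [isOpen_iff_mem_nhds]
      rintro _ ⟨x, hx, rfl⟩
      have hxW : (x : ℂ) ∈ W := x.2
      have h3 : HasStrictDerivAt B (deriv B x) x := (hd.analyticAt (ho.mem_nhds hxW)).hasStrictDerivAt
      have h4 : map B (𝓝 (x : ℂ)) = 𝓝 (B x) := h3.map_nhds_eq (hcr x hxW)
      have h5 : ((↑) : W → ℂ) '' s ∈ 𝓝 (x : ℂ) := (ho.isOpenMap_subtype_val s hs).mem_nhds ⟨x, hx, rfl⟩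
      have h6 : B '' (((↑) : W → ℂ) '' s) ∈ 𝓝 (B x) := by
        rw [← h4]
        exact image_mem_map h5
      rw [nhds_subtype_eq_comap, mem_comap]
      refine ⟨_, h6, ?_⟩
      rintro y hy
      obtain ⟨v, ⟨u, hu, rfl⟩, hv⟩ := hy
      exact ⟨u, hu, Subtype.ext hv⟩
    refine ⟨(↑) ⁻¹' U', (hU'o.preimage continuous_subtype_val).mem_nhds hu', ?_⟩
    refine Topology.IsOpenEmbedding.of_continuous_injective_isOpenMap ?_ ?_ ?_
    · exact hβc.comp continuous_subtype_val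
    · intro x y hxy
      have h3 : B (x : W) = B (y : W) := congrArg Subtype.val hxy
      exact Subtype.ext (Subtype.ext (hUi (hU'U x.2) (hU'U y.2) h3))
    · exact hopn.comp (hU'o.preimage continuous_subtype_val).isOpenMap_subtype_val
  have hfin : ∀ x ∈ (univ : Set (ball (0 : ℂ) ρ)), (β ⁻¹' {x}).Finite := by
    intro x _
    have hK : IsCompact (β ⁻¹' {x}) := hprop.isCompact_preimage isCompact_singleton
    refine hK.finite (IsDiscrete.of_openPartialHomeomorph β subset_rfl fun e _ => ?_)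
    obtain ⟨φ, hφ, hφ2⟩ := hloc e
    exact ⟨φ, hφ, hφ2.symm⟩
  have hcov : IsCoveringMapOn β univ :=
    hprop.isClosedMap.isCoveringMapOn_of_isLocalHomeomorphOn hfin (fun x _ => hloc x)
  have hcontr : ContractibleSpace (ball (0 : ℂ) ρ) := (convex_ball 0 ρ).contractibleSpace ⟨0, mem_ball_self hρ⟩
  have hlpc : LocallyPathConnectedSpace (ball (0 : ℂ) ρ) := isOpen_ball.locallyPathConnectedSpace
  obtain ⟨F, ⟨hF1, hF2⟩, -⟩ := hcov.existsUnique_continuousMap_lifts (ContinuousMap.id (ball (0 : ℂ) ρ))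
    (a₀ := β ⟨p, hp⟩) (e₀ := ⟨p, hp⟩) rfl (fun _ => mem_univ _)
  have hF3 : ∀ z : ball (0 : ℂ) ρ, B (F z) = z := fun z => congrArg Subtype.val (congrFun hF2 z)
  refine ⟨fun z => if hz : z ∈ ball (0 : ℂ) ρ then F ⟨z, hz⟩ else 0, ?_, ?_, ?_⟩
  · intro z hz
    have hcont : ContinuousAt (fun z => if hz : z ∈ ball (0 : ℂ) ρ then ((F ⟨z, hz⟩ : W) : ℂ) else 0) z := by
      have h2 : ContinuousOn (fun z => if hz : z ∈ ball (0 : ℂ) ρ then ((F ⟨z, hz⟩ : W) : ℂ) else 0) (ball 0 ρ) := by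
        rw [continuousOn_iff_continuous_domRestrict]
        have h3 : (ball (0 : ℂ) ρ).domRestrict (fun z => if hz : z ∈ ball (0 : ℂ) ρ then ((F ⟨z, hz⟩ : W) : ℂ) else 0) =
            fun z : ball (0 : ℂ) ρ => ((F z : W) : ℂ) := by
          funext x
          exact dif_pos x.2
        rw [h3]
        exact continuous_subtype_val.comp F.continuous
      exact h2.continuousAt (isOpen_ball.mem_nhds hz)
    have hzW : (F ⟨z, hz⟩ : ℂ) ∈ W := (F ⟨z, hz⟩).2
    have h3 : HasDerivAt B (deriv B (F ⟨z, hz⟩)) (F ⟨z, hz⟩) :=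
      (hd.differentiableAt (ho.mem_nhds hzW)).hasDerivAt
    have h4 : HasDerivAt (fun z => if hz : z ∈ ball (0 : ℂ) ρ then ((F ⟨z, hz⟩ : W) : ℂ) else 0) (deriv B (F ⟨z, hz⟩))⁻¹ z := by
      refine HasDerivAt.of_local_left_inverse (f := B) hcont ?_ (hcr _ hzW) ?_
      · rw [dif_pos hz]
        exact h3
      · filter_upwards [isOpen_ball.mem_nhds hz] with y hy
        rw [dif_pos hy]
        exact hF3 ⟨y, hy⟩
    exact h4.differentiableAt.differentiableWithinAt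
  · intro z hz
    show (if hz : z ∈ ball (0 : ℂ) ρ then ((F ⟨z, hz⟩ : W) : ℂ) else 0) ∈ W ∧
      B (if hz : z ∈ ball (0 : ℂ) ρ then ((F ⟨z, hz⟩ : W) : ℂ) else 0) = z
    rw [dif_pos hz]
    exact ⟨(F ⟨z, hz⟩).2, hF3 ⟨z, hz⟩⟩
  · have hz : B p ∈ ball (0 : ℂ) ρ := mem_ball_zero_iff.2 (h1 p hp)
    show (if hz : B p ∈ ball (0 : ℂ) ρ then ((F ⟨B p, hz⟩ : W) : ℂ) else 0) = p
    rw [dif_pos hz]
    exact congrArg Subtype.val hF1

end Pool.Agent.H56.MN
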