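import Pool.Agent.H56.MN.Defs

/-!
# Module Rad: the radii

PROOF. `R i` and `τ i` by recursion. `me_inv`: `Me (- e) (Me e z) = z`. `me_est`: `‖e‖ ≤ s < 1`, `‖z‖ ≤ r < 1` give
`1 - ‖Me e z‖ ^ 2 = (1 - ‖e‖ ^ 2) (1 - ‖z‖ ^ 2) / ‖1 + e* z‖ ^ 2 ≥ (1 - s ^ 2) (1 - r ^ 2) / 4`. `R 0`: `z = Me (- u) (Me u z)`. `τ i` with
`τ i ^ 2 = (1 + R i) / 2`. If `‖Me u (B0 (Bt σ e v m w))‖ ≤ ρ` then `‖Bt σ e v m w‖ ≤ R i`, so `‖Me e ((Me v w) ^ m)‖ ≤ R i / τ i ^ 2 < 1`,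
`‖Me v w‖ ^ m ≤ A < 1`, so `‖Me v w‖ ≤ q' < 1` (`m ≤ L`, Bernoulli), `‖v‖ ^ m = ‖e‖ ≤ τ i`, `‖v‖ ≤ q'' < 1`, `w = Me (- v) (Me v w)`, `‖w‖ ≤ R (i + 1)`.
-/

set_option autoImplicit false

open Filter Topology Polynomial Metric Set MeasureTheory

namespace Pool.Agent.H56.MN

open Pool.Agent.H47.MM (Un Me)

theorem rd_ne {e x : ℂ} (he : ‖e‖ < 1) (hx : ‖x‖ < 1) : 1 + (starRingEnd ℂ) e * x ≠ 0 := by
  intro h0
  have h2 : (starRingEnd ℂ) e * x = -1 := by linear_combination h0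
  have h3 : ‖(starRingEnd ℂ) e * x‖ = 1 := by rw [h2]; simp
  rw [norm_mul, Complex.norm_conj] at h3
  nlinarith [norm_nonneg e, norm_nonneg x]

theorem rd_id (e x : ℂ) : ‖1 + (starRingEnd ℂ) e * x‖ ^ 2 - ‖x + e‖ ^ 2 = (1 - ‖e‖ ^ 2) * (1 - ‖x‖ ^ 2) := by
  rw [← Complex.normSq_eq_norm_sq, ← Complex.normSq_eq_norm_sq, ← Complex.normSq_eq_norm_sq, ← Complex.normSq_eq_norm_sq]
  simp only [Complex.normSq_apply, Complex.add_re, Complex.add_im, Complex.mul_re, Complex.mul_im, Complex.one_re,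
    Complex.one_im, Complex.conj_re, Complex.conj_im]
  ring

theorem rd_lt {e x : ℂ} (he : ‖e‖ < 1) (hx : ‖x‖ < 1) : ‖Me e x‖ < 1 := by
  have h1 := rd_ne he hx
  unfold Me
  rw [norm_div, div_lt_one (norm_pos_iff.2 h1)]
  have h2 : ‖x + e‖ ^ 2 < ‖1 + (starRingEnd ℂ) e * x‖ ^ 2 := by
    have h3 := rd_id e x
    have h4 : 0 < (1 - ‖e‖ ^ 2) * (1 - ‖x‖ ^ 2) := by
      apply mul_pos <;> nlinarith [norm_nonneg e, norm_nonneg x]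
    linarith
  exact lt_of_pow_lt_pow_left₀ 2 (norm_nonneg _) h2

theorem rd_inv {e z : ℂ} (he : ‖e‖ < 1) (hz : ‖z‖ < 1) : Me (-e) (Me e z) = z := by
  have h1 := rd_ne he hz
  have h2 : (1 : ℂ) - (starRingEnd ℂ) e * e ≠ 0 := by
    have := rd_ne (e := e) (x := -e) he (by rw [norm_neg]; exact he)
    intro h0
    apply this
    linear_combination h0
  have h3 : 1 + (starRingEnd ℂ) (-e) * Me e z = (1 - (starRingEnd ℂ) e * e) / (1 + (starRingEnd ℂ) e * z) := by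
    unfold Me
    rw [map_neg, eq_div_iff h1, add_mul, mul_assoc, div_mul_cancel₀ _ h1]
    ring
  have h4 : Me e z + -e = z * (1 - (starRingEnd ℂ) e * e) / (1 + (starRingEnd ℂ) e * z) := by
    unfold Me
    rw [eq_div_iff h1, add_mul, div_mul_cancel₀ _ h1]
    ring
  have h5 : Me (-e) (Me e z) = (Me e z + -e) / (1 + (starRingEnd ℂ) (-e) * Me e z) := rfl
  rw [h5, h3, h4, div_div_div_cancel_right₀ h1, mul_div_assoc, div_self h2, mul_one]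

theorem rd_est {e z : ℂ} {s r : ℝ} (he : ‖e‖ ≤ s) (hs : s < 1) (hz : ‖z‖ ≤ r) (hr : r < 1) :
    ‖Me e z‖ ≤ Real.sqrt (1 - (1 - s ^ 2) * (1 - r ^ 2) / 4) := by
  have hs0 : 0 ≤ s := le_trans (norm_nonneg _) he
  have hr0 : 0 ≤ r := le_trans (norm_nonneg _) hz
  have he1 : ‖e‖ < 1 := lt_of_le_of_lt he hs
  have hz1 : ‖z‖ < 1 := lt_of_le_of_lt hz hr
  have h1 := rd_ne he1 hz1
  have hD : 0 < ‖1 + (starRingEnd ℂ) e * z‖ := norm_pos_iff.2 h1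
  have hD2 : ‖1 + (starRingEnd ℂ) e * z‖ ≤ 2 := by
    have h2 : ‖1 + (starRingEnd ℂ) e * z‖ ≤ ‖(1 : ℂ)‖ + ‖(starRingEnd ℂ) e * z‖ := norm_add_le _ _
    rw [norm_mul, Complex.norm_conj, norm_one] at h2
    nlinarith [norm_nonneg e, norm_nonneg z]
  apply Real.le_sqrt_of_sq_le
  have h3 : ‖Me e z‖ ^ 2 = 1 - (1 - ‖e‖ ^ 2) * (1 - ‖z‖ ^ 2) / ‖1 + (starRingEnd ℂ) e * z‖ ^ 2 := by
    have h4 := rd_id e z
    unfold Me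
    rw [norm_div, div_pow, ← h4, sub_div, div_self (pow_ne_zero 2 hD.ne')]
    ring
  rw [h3]
  have he2 : ‖e‖ ^ 2 ≤ s ^ 2 := pow_le_pow_left₀ (norm_nonneg e) he 2
  have hz2 : ‖z‖ ^ 2 ≤ r ^ 2 := pow_le_pow_left₀ (norm_nonneg z) hz 2
  have hs2 : s ^ 2 ≤ 1 := pow_le_one₀ hs0 hs.le
  have hr2 : r ^ 2 ≤ 1 := pow_le_one₀ hr0 hr.le
  have h5 : (1 - s ^ 2) * (1 - r ^ 2) ≤ (1 - ‖e‖ ^ 2) * (1 - ‖z‖ ^ 2) := by
    apply mul_le_mul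
    · linarith
    · linarith
    · linarith
    · linarith
  have h6 : 0 ≤ (1 - s ^ 2) * (1 - r ^ 2) := mul_nonneg (by linarith) (by linarith)
  have h7 : ‖1 + (starRingEnd ℂ) e * z‖ ^ 2 ≤ 4 := by nlinarith
  have h8 : (1 - s ^ 2) * (1 - r ^ 2) / 4 ≤ (1 - ‖e‖ ^ 2) * (1 - ‖z‖ ^ 2) / ‖1 + (starRingEnd ℂ) e * z‖ ^ 2 :=
    div_le_div₀ (le_trans h6 h5) h5 (by positivity) h7
  linarith

theorem rd_h1 {s r : ℝ} (hs0 : 0 ≤ s) (hs : s < 1) (hr0 : 0 ≤ r) (hr : r < 1) :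
    Real.sqrt (1 - (1 - s ^ 2) * (1 - r ^ 2) / 4) < 1 := by
  rw [Real.sqrt_lt' one_pos]
  have h6 : 0 < (1 - s ^ 2) * (1 - r ^ 2) := by
    apply mul_pos <;> nlinarith
  linarith

/-- back through a Moebius map -/
theorem rd_back {e z : ℂ} {s r : ℝ} (he : ‖e‖ ≤ s) (hs : s < 1) (hz : ‖z‖ < 1) (hr : r < 1) (h : ‖Me e z‖ ≤ r) :
    ‖z‖ ≤ Real.sqrt (1 - (1 - s ^ 2) * (1 - r ^ 2) / 4) := by
  rw [← rd_inv (lt_of_le_of_lt he hs) hz]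
  exact rd_est (by rw [norm_neg]; exact he) hs h hr

/-- roots (Bernoulli) -/
theorem rd_root {L m : ℕ} {x A : ℝ} (hx0 : 0 ≤ x) (hx1 : x ≤ 1) (hmL : m ≤ L) (h : x ^ m ≤ A) :
    x ≤ 1 - (1 - A) / (L + 1) := by
  have h1 : x ^ (L + 1) ≤ x ^ m := pow_le_pow_of_le_one hx0 hx1 (by omega)
  have h2 : 1 + ((L + 1 : ℕ) : ℝ) * (x - 1) ≤ (1 + (x - 1)) ^ (L + 1) := one_add_mul_le_pow (by linarith) (L + 1)
  have h3 : (1 : ℝ) + (x - 1) = x := by ring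
  rw [h3] at h2
  push_cast at h2
  have h4 : (0 : ℝ) < (L : ℝ) + 1 := by positivity
  have h5 : (1 - A) / ((L : ℝ) + 1) ≤ 1 - x := by
    rw [div_le_iff₀ h4]
    nlinarith
  linarith

theorem rd_step (L : ℕ) {R : ℝ} (h0 : 0 ≤ R) (h1 : R < 1) : ∃ τ R' : ℝ, 0 < τ ∧ τ < 1 ∧ 0 ≤ R' ∧ R' < 1 ∧
    ∀ (σ : ℝ) (e v : ℂ) (m : ℕ), (σ = τ ∨ σ = τ ^ 2) → ‖e‖ ≤ τ → ‖v‖ < 1 → 1 ≤ m → m ≤ L → Me e (v ^ m) = 0 →
      ∀ w : ℂ, ‖w‖ < 1 → ‖Bt σ e v m w‖ ≤ R → ‖w‖ ≤ R' := by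
  have hp : 0 < (1 + R) / 2 := by linarith
  have hp1 : (1 + R) / 2 < 1 := by linarith
  obtain ⟨τ, hτdef⟩ : ∃ τ : ℝ, τ = Real.sqrt ((1 + R) / 2) := ⟨_, rfl⟩
  have hτ0 : 0 < τ := by rw [hτdef]; exact Real.sqrt_pos.2 hp
  have hτ1 : τ < 1 := by
    rw [hτdef, Real.sqrt_lt' one_pos]
    linarith
  have hτ2 : τ ^ 2 = (1 + R) / 2 := by rw [hτdef, Real.sq_sqrt hp.le]
  have hq1 : R / τ ^ 2 < 1 := by
    rw [div_lt_one (by positivity), hτ2]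
    linarith
  have hq0 : 0 ≤ R / τ ^ 2 := by positivity
  obtain ⟨A, hA⟩ : ∃ A : ℝ, A = Real.sqrt (1 - (1 - τ ^ 2) * (1 - (R / τ ^ 2) ^ 2) / 4) := ⟨_, rfl⟩
  have hA1 : A < 1 := by rw [hA]; exact rd_h1 hτ0.le hτ1 hq0 hq1
  have hA0 : 0 ≤ A := by rw [hA]; exact Real.sqrt_nonneg _
  have hL : (0 : ℝ) < (L : ℝ) + 1 := by positivity
  have hrt : ∀ A : ℝ, 0 ≤ A → A < 1 → 0 ≤ 1 - (1 - A) / ((L : ℝ) + 1) ∧ 1 - (1 - A) / ((L : ℝ) + 1) < 1 := by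
    intro A hA0 hA1
    have h2 : 0 < (1 - A) / ((L : ℝ) + 1) := div_pos (by linarith) hL
    have h3 : (1 - A) / ((L : ℝ) + 1) ≤ 1 := by
      rw [div_le_one hL]
      have : (0 : ℝ) ≤ (L : ℝ) := Nat.cast_nonneg L
      linarith
    constructor <;> linarith
  obtain ⟨hqa0, hqa1⟩ := hrt A hA0 hA1
  obtain ⟨hqb0, hqb1⟩ := hrt τ hτ0.le hτ1
  refine ⟨τ, Real.sqrt (1 - (1 - (1 - (1 - τ) / ((L : ℝ) + 1)) ^ 2) * (1 - (1 - (1 - A) / ((L : ℝ) + 1)) ^ 2) / 4), hτ0, hτ1,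
    Real.sqrt_nonneg _, rd_h1 hqb0 hqb1 hqa0 hqa1, ?_⟩
  intro σ e v m hσ he hv hm hmL hev w hw hB
  have hσ2 : τ ^ 2 ≤ σ := by
    rcases hσ with h | h
    · rw [h]; nlinarith
    · rw [h]
  have he1 : ‖e‖ < 1 := lt_of_le_of_lt he hτ1
  have hX : ‖Me v w‖ < 1 := rd_lt hv hw
  have hXm : ‖Me v w ^ m‖ < 1 := by
    rw [norm_pow]
    exact pow_lt_one₀ (norm_nonneg _) hX (by omega)
  have hY : ‖Me e (Me v w ^ m)‖ ≤ R / τ ^ 2 := by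
    rw [le_div_iff₀ (by positivity)]
    unfold Bt at hB
    rw [norm_mul, Complex.norm_real, Real.norm_eq_abs, abs_of_pos (lt_of_lt_of_le (by positivity) hσ2)] at hB
    calc ‖Me e (Me v w ^ m)‖ * τ ^ 2 ≤ ‖Me e (Me v w ^ m)‖ * σ := mul_le_mul_of_nonneg_left hσ2 (norm_nonneg _)
      _ = σ * ‖Me e (Me v w ^ m)‖ := mul_comm _ _
      _ ≤ R := hB
  have hXA : ‖Me v w‖ ^ m ≤ A := by
    rw [← norm_pow, hA]
    exact rd_back he hτ1 hXm hq1 hY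
  have hXq : ‖Me v w‖ ≤ 1 - (1 - A) / ((L : ℝ) + 1) := rd_root (norm_nonneg _) hX.le hmL hXA
  have hvm : ‖v ^ m‖ < 1 := by
    rw [norm_pow]
    exact pow_lt_one₀ (norm_nonneg _) hv (by omega)
  have hve : v ^ m = -e := by
    have h2 := rd_ne he1 hvm
    unfold Me at hev
    rcases div_eq_zero_iff.1 hev with h | h
    · linear_combination h
    · exact absurd h h2
  have hvq : ‖v‖ ≤ 1 - (1 - τ) / ((L : ℝ) + 1) := by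
    apply rd_root (norm_nonneg _) hv.le hmL
    rw [← norm_pow, hve, norm_neg]
    exact he
  exact rd_back hvq hqb1 hw hqa1 hXq

theorem rad_ex (L : ℕ) {t ρ : ℝ} (ht0 : 0 ≤ t) (ht : t < 1) (hρ : ρ < 1) : ∃ τ : ℕ → ℝ, Rad L t ρ τ := by
  have hS : ∀ R : {x : ℝ // 0 ≤ x ∧ x < 1}, ∃ (τ : ℝ) (R' : {x : ℝ // 0 ≤ x ∧ x < 1}), 0 < τ ∧ τ < 1 ∧
      ∀ (σ : ℝ) (e v : ℂ) (m : ℕ), (σ = τ ∨ σ = τ ^ 2) → ‖e‖ ≤ τ → ‖v‖ < 1 → 1 ≤ m → m ≤ L → Me e (v ^ m) = 0 →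
        ∀ w : ℂ, ‖w‖ < 1 → ‖Bt σ e v m w‖ ≤ R.1 → ‖w‖ ≤ R'.1 := by
    rintro ⟨R, h0, h1⟩
    obtain ⟨τ, R', h2, h3, h4, h5, h6⟩ := rd_step L h0 h1
    exact ⟨τ, ⟨R', h4, h5⟩, h2, h3, h6⟩
  choose T N hT0 hT1 hN using hS
  have hρ0 : 0 ≤ max ρ 0 := le_max_right _ _
  have hρ1 : max ρ 0 < 1 := max_lt hρ one_pos
  obtain ⟨R0, hR0⟩ : ∃ R0 : {x : ℝ // 0 ≤ x ∧ x < 1}, R0.1 = Real.sqrt (1 - (1 - t ^ 2) * (1 - (max ρ 0) ^ 2) / 4) :=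
    ⟨⟨_, Real.sqrt_nonneg _, rd_h1 ht0 ht hρ0 hρ1⟩, rfl⟩
  refine ⟨fun i => T (N^[i] R0), fun i => ⟨hT0 _, hT1 _⟩, ?_⟩
  have key : ∀ (i : ℕ) (B : ℂ → ℂ), BC L (fun i => T (N^[i] R0)) i B → (∀ w : ℂ, ‖w‖ < 1 → ‖B w‖ < 1) ∧
      ∀ u : ℂ, ‖u‖ ≤ t → ∀ w : ℂ, ‖w‖ < 1 → ‖Me u (B w)‖ ≤ ρ → ‖w‖ ≤ (N^[i] R0).1 := by
    intro i
    induction i with
    | zero =>
      intro B hB
      have hB' : B = id := hB
      subst hB'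
      refine ⟨fun w hw => hw, ?_⟩
      intro u hu w hw h
      rw [Function.iterate_zero, id, hR0]
      exact rd_back hu ht hw hρ1 (le_trans h (le_max_left _ _))
    | succ i ih =>
      intro B hB
      obtain ⟨B0, σ, e, v, m, hB0, hσ, he, hv, hm, hmL, hev, hBe⟩ := hB
      obtain ⟨ih1, ih2⟩ := ih B0 hB0
      have hlt : ∀ w : ℂ, ‖w‖ < 1 → ‖Bt σ e v m w‖ < 1 := by
        intro w hw
        have hX : ‖Me v w‖ < 1 := rd_lt hv hw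
        have hXm : ‖Me v w ^ m‖ < 1 := by
          rw [norm_pow]
          exact pow_lt_one₀ (norm_nonneg _) hX (by omega)
        have hY := rd_lt (lt_of_le_of_lt he (hT1 _)) hXm
        have hs0 : 0 < σ := by
          rcases hσ with h | h
          · rw [h]; exact hT0 _
          · rw [h]; exact pow_pos (hT0 _) 2
        have hs1 : σ < 1 := by
          rcases hσ with h | h
          · rw [h]; exact hT1 _
          · rw [h]; exact pow_lt_one₀ (hT0 _).le (hT1 _) two_ne_zero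
        unfold Bt
        rw [norm_mul, Complex.norm_real, Real.norm_eq_abs, abs_of_pos hs0]
        nlinarith [norm_nonneg (Me e (Me v w ^ m))]
      subst hBe
      refine ⟨fun w hw => ih1 _ (hlt w hw), ?_⟩
      intro u hu w hw h
      rw [Function.iterate_succ_apply']
      exact hN _ σ e v m hσ he hv hm hmL hev w hw (ih2 u hu _ (hlt w hw) h)
  intro i
  exact ⟨(N^[i] R0).1, (N^[i] R0).2.2, fun B hB => (key i B hB).2⟩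

end Pool.Agent.H56.MN
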