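import Pool.Agent.H56.MN.Ln
import Pool.Agent.H56.MN.Nbu
import Pool.Agent.H56.MN.Bas
import Pool.Agent.H44.RC.CCO
import Pool.Agent.H80.AJ.Distort

/-!
# Module Vis: all visits are univalent over the `t'`-part

PROOF. `L1 = max L L0` (`L0` of `chn`); `τ` from `rad_ex L1`; `ε` from `ln` (with `L1`, `N`), `chn`, `nbu` (`Sys` with `L` is `Sys` with `L1`). Strong induction on `n`. If `kap 0 ≤ N`: `chn` with `j = 0`: `B`, `S = Φ`, `Φ 0 = x`, `f^[n] (Φ w) = ψ c (Me u (B w))`. If `kap 0 > N`: `nbu`: `i < n`, `q`; `chn` with `j = i`: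
`S`, `S (D) ⊆ CC f (n - i) (Vd ψ c) (f^[i] x)` (connected, contains `S 0 = f^[i] x`), so `S w = ψ q (η w)`, `‖η w‖ < t`, `η` univalent (inverse of `ψ q`). `f^[i] x = ψ q (η 0)`: induction hypothesis: `H'` on `ball 0 t'`, `f^[i] (H' z) = ψ q z`, `H' (η 0) = x`. `Φ = H' ∘ η` (injective: `f^[i] (Φ w) = S w`). In both cases
`f^[n + 1] (Φ w) = g c ((Me u (B w)) ^ l c)`: `ln` gives `h` on `ball 0 t'`; `H = Φ ∘ h`: `f^[n] (H z) = ψ c (Me u (B (h z))) = ψ c z`, `H u = Φ 0 = x`.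
-/

set_option autoImplicit false

open Filter Topology Polynomial Metric Set MeasureTheory

namespace Pool.Agent.H56.MN

open Pool.Agent.H44.Fatou (rat)
open Pool.Agent.H44.RC (JS J6 CC cc_max)
open Pool.Agent.H47.OI (AC)
open Pool.Agent.H47.MM (Un Me FI Hyp Sys)

private theorem un_dne {G : ℂ → ℂ} (h : Un G) {w : ℂ} (hw : w ∈ ball (0 : ℂ) 1) : deriv G w ≠ 0 := by
  rw [mem_ball_zero_iff] at hw
  have h1 : ball w (1 - ‖w‖) ⊆ ball 0 1 := by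
    intro z hz
    rw [mem_ball, dist_eq_norm] at hz
    rw [mem_ball_zero_iff]
    calc ‖z‖ = ‖(z - w) + w‖ := by rw [sub_add_cancel]
      _ ≤ ‖z - w‖ + ‖w‖ := norm_add_le _ _
      _ < 1 := by linarith
  exact norm_pos_iff.1 (Pool.Agent.H80.AJ.deriv_ne (by linarith) (h.1.mono h1) (h.2.mono h1)
    (mem_closedBall_self (by linarith)))

/-- division by a univalent map -/
private theorem un_inv {G S η : ℂ → ℂ} (hG : Un G) (hS : DifferentiableOn ℂ S (ball 0 1))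
    (hη : ∀ w ∈ ball (0 : ℂ) 1, ‖η w‖ < 1 ∧ S w = G (η w)) : DifferentiableOn ℂ η (ball 0 1) := by
  intro w0 hw0
  have hp : η w0 ∈ ball (0 : ℂ) 1 := mem_ball_zero_iff.2 (hη w0 hw0).1
  have hd : deriv G (η w0) ≠ 0 := un_dne hG hp
  have hsd : HasStrictDerivAt G (deriv G (η w0)) (η w0) :=
    (hG.1.analyticAt (isOpen_ball.mem_nhds hp)).hasStrictDerivAt
  have hGd : DifferentiableAt ℂ (hsd.localInverse _ _ _ hd) (G (η w0)) :=
    (hsd.to_localInverse hd).hasDerivAt.differentiableAt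
  have hG0 : hsd.localInverse _ _ _ hd (G (η w0)) = η w0 := (hsd.eventually_left_inverse hd).self_of_nhds
  have hSd : DifferentiableAt ℂ S w0 := hS.differentiableAt (isOpen_ball.mem_nhds hw0)
  have hS0 : S w0 = G (η w0) := (hη w0 hw0).2
  have hGd' : DifferentiableAt ℂ (hsd.localInverse _ _ _ hd) (S w0) := by
    rw [hS0]
    exact hGd
  have hcomp : DifferentiableAt ℂ (fun w => hsd.localInverse _ _ _ hd (S w)) w0 := hGd'.comp w0 hSd
  refine (hcomp.congr_of_eventuallyEq ?_).differentiableWithinAt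
  have h1 : ∀ᶠ w in 𝓝 w0, w ∈ ball (0 : ℂ) 1 := isOpen_ball.mem_nhds hw0
  have h2 : ∀ᶠ w in 𝓝 w0, hsd.localInverse _ _ _ hd (S w) ∈ ball (0 : ℂ) 1 := by
    refine hcomp.continuousAt.eventually_mem (isOpen_ball.mem_nhds ?_)
    show hsd.localInverse _ _ _ hd (S w0) ∈ ball (0 : ℂ) 1
    rw [hS0, hG0]
    exact hp
  have h3 : ∀ᶠ w in 𝓝 w0, G (hsd.localInverse _ _ _ hd (S w)) = S w := by
    have h4 : ∀ᶠ v in 𝓝 (S w0), G (hsd.localInverse _ _ _ hd v) = v := by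
      rw [hS0]
      exact hsd.eventually_right_inverse hd
    exact hSd.continuousAt.eventually h4
  filter_upwards [h1, h2, h3] with w h4 h5 h6
  refine hG.2 (mem_ball_zero_iff.2 (hη w h4).1) h5 ?_
  rw [h6, (hη w h4).2]

theorem visn {a b : Polynomial ℂ} {C : Set ℂ} (h : Hyp a b C) (h6 : J6 (rat a b)) {μ : ℂ → ℂ} (hμ : FI (rat a b) μ) {x : ℂ}
    (hx : (x : OnePoint ℂ) ∈ JS (rat a b)) (h1 : ‖μ x‖ = 1) (hac : AC μ x (μ x)) (L N : ℕ) (hN : 1 ≤ N) {k t t' : ℝ} (hk : k < 1)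
    (ht0 : 0 < t) (htt : t < t') (ht' : t' < 1) (hkt : ∀ m : ℕ, m ≤ L → m ≠ 0 → k ≤ t ^ m) : ∃ ε : ℝ, 0 < ε ∧
      ∀ (g ψ : ℂ → ℂ → ℂ) (l : ℂ → ℕ), Sys a b C L ε g ψ l → NB a b C g ψ N k → ∀ (n : ℕ) (c : ℂ), c ∈ C → ∀ u : ℂ, ‖u‖ < t →
        (rat a b)^[n] (x : OnePoint ℂ) = ((ψ c u : ℂ) : OnePoint ℂ) → ∃ H : ℂ → ℂ, DifferentiableOn ℂ H (ball 0 t') ∧
          (∀ z ∈ ball (0 : ℂ) t', (rat a b)^[n] ((H z : ℂ) : OnePoint ℂ) = ((ψ c z : ℂ) : OnePoint ℂ)) ∧ H u = x := by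
  obtain ⟨L0, hchn⟩ := chn h h6
  have ht1 : t < 1 := htt.trans ht'
  obtain ⟨ρ, hρ1, hρ2⟩ : ∃ ρ : ℝ, t' < ρ ∧ ρ < 1 := exists_between ht'
  obtain ⟨τ, hτ⟩ := rad_ex (max L L0) ht0.le ht1 hρ2
  obtain ⟨ε1, hε1, hC⟩ := hchn τ hτ.1 N
  obtain ⟨ε2, hε2, hL⟩ := ln h.cop (le_trans (by norm_num) h.deg) h.inf h6 hμ hx h1 hac (max L L0) ht0.le htt hρ1 hρ2 hτ N
  obtain ⟨ε3, hε3, hNb⟩ := nbu h
  refine ⟨min ε1 (min ε2 ε3), lt_min hε1 (lt_min hε2 hε3), ?_⟩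
  intro g ψ l hS hNB
  have hε1' : min ε1 (min ε2 ε3) ≤ ε1 := min_le_left _ _
  have hε2' : min ε1 (min ε2 ε3) ≤ ε2 := (min_le_right _ _).trans (min_le_left _ _)
  have hε3' : min ε1 (min ε2 ε3) ≤ ε3 := (min_le_right _ _).trans (min_le_right _ _)
  -- the last step, common to both cases
  have fin : ∀ (n : ℕ) (c : ℂ), c ∈ C → ∀ u : ℂ, ‖u‖ < t → ∀ i ≤ N, ∀ B : ℂ → ℂ, BC L0 τ i B → ∀ Φ : ℂ → ℂ, Un Φ → Φ 0 = x →
      (∀ w ∈ ball (0 : ℂ) 1, (rat a b)^[n] ((Φ w : ℂ) : OnePoint ℂ) = ((ψ c (Me u (B w)) : ℂ) : OnePoint ℂ)) →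
      ∃ H : ℂ → ℂ, DifferentiableOn ℂ H (ball 0 t') ∧
        (∀ z ∈ ball (0 : ℂ) t', (rat a b)^[n] ((H z : ℂ) : OnePoint ℂ) = ((ψ c z : ℂ) : OnePoint ℂ)) ∧ H u = x := by
    intro n c hc u hu i hi B hB Φ hΦ hΦ0 hΦf
    have hB1 : BC (max L L0) τ i B := bc_mono (le_max_right _ _) hB
    obtain ⟨hB2, hB3, -, -⟩ := bc_bas hτ.1 hB1
    have hu1 : ‖u‖ < 1 := hu.trans ht1
    have hMe : ∀ w ∈ ball (0 : ℂ) 1, Me u (B w) ∈ ball (0 : ℂ) 1 := by
      intro w hw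
      rw [mem_ball_zero_iff, me_mob]
      exact Pool.H81.MM.mob_lt hu1 (hB3 w hw)
    obtain ⟨hh, hh1, hh2, hh3⟩ := hL (g c) (hS.gu c hc) (fun w hw => (hS.gs c hc w hw).trans_le hε2') (l c) (hS.l2 c hc)
      ((hS.lL c hc).trans (le_max_left _ _)) u hu.le i hi B hB1 (n + 1) Φ hΦ hΦ0 (by
        intro w hw
        rw [Function.iterate_succ_apply', hΦf w hw]
        exact hS.fp c hc _ (hMe w hw))
    have hhb : ∀ z ∈ ball (0 : ℂ) t', hh z ∈ ball (0 : ℂ) 1 := fun z hz => mem_ball_zero_iff.2 (hh2 z hz).1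
    refine ⟨Φ ∘ hh, hΦ.1.comp hh1 hhb, ?_, ?_⟩
    · intro z hz
      show (rat a b)^[n] ((Φ (hh z) : ℂ) : OnePoint ℂ) = _
      rw [hΦf _ (hhb z hz), (hh2 z hz).2]
    · show Φ (hh u) = x
      rw [hh3, hΦ0]
  intro n
  induction n using Nat.strong_induction_on with
  | _ n ih =>
    intro c hc u hu hxu
    have hu1 : ‖u‖ < 1 := hu.trans ht1
    rcases le_or_gt (kap (rat a b) (Vd ψ c) ((x : ℂ) : OnePoint ℂ) n 0) N with hkN | hkN
    · obtain ⟨i, hi, B, hB, S, hSu, hS0, hSf⟩ := hC L _ g ψ l hS hε1' c hc n x u hu1 hxu 0 (Nat.zero_le _) hkN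
      have hS0' : S 0 = x := OnePoint.coe_injective hS0
      exact fin n c hc u hu i (hi.trans hkN) B hB S hSu hS0' hSf
    · have hxV : (rat a b)^[n] ((x : ℂ) : OnePoint ℂ) ∈ Vd ψ c := by
        rw [hxu]
        exact mem_image_of_mem _ (mem_ball_zero_iff.2 hu1)
      obtain ⟨i0, hi0, hki, q, hq, hqz⟩ := hNb L _ g ψ l hS hε3' N k t hN hk ht0 ht1 hkt hNB c hc n x hxV hkN
      obtain ⟨i, hi, B, hB, S, hSu, hS0, hSf⟩ := hC L _ g ψ l hS hε1' c hc n x u hu1 hxu i0 hi0.le hki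
      obtain ⟨-, hB3, -, -⟩ := bc_bas hτ.1 hB
      have hMe : ∀ w ∈ ball (0 : ℂ) 1, Me u (B w) ∈ ball (0 : ℂ) 1 := by
        intro w hw
        rw [mem_ball_zero_iff, me_mob]
        exact Pool.H81.MM.mob_lt hu1 (hB3 w hw)
      have hA : IsPreconnected ((fun w : ℂ => ((S w : ℂ) : OnePoint ℂ)) '' ball (0 : ℂ) 1) := by
        refine (convex_ball (0 : ℂ) 1).isPreconnected.image _ ?_
        exact OnePoint.continuous_coe.comp_continuousOn hSu.1.continuousOn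
      have hAs : (fun w : ℂ => ((S w : ℂ) : OnePoint ℂ)) '' ball (0 : ℂ) 1 ⊆
          CC (rat a b) (n - i0) (Vd ψ c) ((rat a b)^[i0] ((x : ℂ) : OnePoint ℂ)) := by
        refine cc_max hA ?_ ?_
        · rw [← hS0]
          exact mem_image_of_mem _ (mem_ball_self one_pos)
        · rintro _ ⟨w, hw, rfl⟩
          show (rat a b)^[n - i0] ((S w : ℂ) : OnePoint ℂ) ∈ Vd ψ c
          rw [hSf w hw]
          exact mem_image_of_mem _ (hMe w hw)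
      have hη : ∀ w : ℂ, ∃ v : ℂ, w ∈ ball (0 : ℂ) 1 → ‖v‖ < t ∧ S w = ψ q v := by
        intro w
        by_cases hw : w ∈ ball (0 : ℂ) 1
        · obtain ⟨v, hv1, hv2⟩ := hqz _ (hAs (mem_image_of_mem _ hw))
          exact ⟨v, fun _ => ⟨hv1, OnePoint.coe_injective hv2⟩⟩
        · exact ⟨0, fun hw' => absurd hw' hw⟩
      choose η hη using hη
      have hηd : DifferentiableOn ℂ η (ball 0 1) :=
        un_inv (hS.pu q hq) hSu.1 fun w hw => ⟨(hη w hw).1.trans ht1, (hη w hw).2⟩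
      have h00 : (0 : ℂ) ∈ ball (0 : ℂ) 1 := mem_ball_self one_pos
      obtain ⟨H', hH1, hH2, hH3⟩ := ih i0 hi0 q hq (η 0) (hη 0 h00).1 (by rw [← hS0, (hη 0 h00).2])
      have hηt : ∀ w ∈ ball (0 : ℂ) 1, η w ∈ ball (0 : ℂ) t' := fun w hw =>
        mem_ball_zero_iff.2 ((hη w hw).1.trans htt)
      have hΦi : ∀ w ∈ ball (0 : ℂ) 1, (rat a b)^[i0] (((H' (η w)) : ℂ) : OnePoint ℂ) = ((S w : ℂ) : OnePoint ℂ) := by
        intro w hw
        rw [hH2 _ (hηt w hw), (hη w hw).2]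
      have hΦu : Un (H' ∘ η) := by
        refine ⟨hH1.comp hηd hηt, ?_⟩
        intro w hw w' hw' hww
        have h2 := hΦi w hw
        have hww' : H' (η w) = H' (η w') := hww
        rw [hww', hΦi w' hw'] at h2
        exact (hSu.2 hw' hw (OnePoint.coe_injective h2)).symm
      refine fin n c hc u hu i (hi.trans hki) B hB (H' ∘ η) hΦu hH3 ?_
      intro w hw
      have h2 : n = (n - i0) + i0 := by omega
      conv_lhs => rw [h2, Function.iterate_add_apply]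
      show (rat a b)^[n - i0] ((rat a b)^[i0] (((H' (η w)) : ℂ) : OnePoint ℂ)) = _
      rw [hΦi w hw]
      exact hSf w hw

end Pool.Agent.H56.MN
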